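import Pool.Agent.H29E.WinMain

/-!
# Averages of characters over subsets of a multiplicative window; the pair principle
-/

open Set Filter Topology MeasureTheory
open scoped ENNReal NNReal Real

namespace Pool.Agent.MixR

open Pool.Agent.H29E Pool.Agent.MP_e27144_an

/-- the number `2 ^ a * 3 ^ b` -/
def sv (p : ℕ × ℕ) : ℕ := 2 ^ p.1 * 3 ^ p.2

/-- the average of `e(m s x)` over the numbers `s = 2 ^ a * 3 ^ b`, `(a, b) ∈ P` -/
noncomputable def avP (m : ℤ) (P : Finset (ℕ × ℕ)) (x : AddCircle (1 : ℝ)) : ℂ :=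
  (∑ p ∈ P, fourier (m * (sv p : ℤ)) x) / (P.card : ℂ)

lemma sv_pos (p : ℕ × ℕ) : 0 < sv p := by unfold sv; positivity

lemma continuous_avP (m : ℤ) (P : Finset (ℕ × ℕ)) : Continuous (avP m P) := by
  unfold avP
  exact (continuous_finsetSum _ fun s _ => (fourier _).continuous).div_const _

/-- Two distinct points: at the scale of their distance the averages are almost opposite. -/
lemma norm_avP_add_le {ε : ℝ} (hε : 0 < ε) {m : ℤ} {k : ℕ} {x y : AddCircle (1 : ℝ)}
    {P : Finset (ℕ × ℕ)}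
    (hP : ∀ p ∈ P, (1 + ε) ^ k ≤ (sv p : ℝ) ∧ (sv p : ℝ) < (1 + ε) ^ (k + 1))
    (h1 : (1 + ε) ^ k * (|(m : ℝ)| * ‖x - y‖) ≤ 1 / 2)
    (h2 : 1 / 2 ≤ (1 + ε) ^ (k + 1) * (|(m : ℝ)| * ‖x - y‖)) :
    ‖avP m P x + avP m P y‖ ≤ π * ε := by
  unfold avP
  rw [← add_div, ← Finset.sum_add_distrib, norm_div, Complex.norm_natCast]
  rcases Nat.eq_zero_or_pos P.card with h | h
  · rw [h]; simp; positivity
  · rw [div_le_iff₀ (by exact_mod_cast h)]
    refine (norm_sum_le _ _).trans ?_
    obtain ⟨t, ht, htn⟩ := Pool.Agent.MP_e27144_an.exists_rep (x - y)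
    have hd0 : 0 ≤ |(m : ℝ)| * ‖x - y‖ := by positivity
    have : ∀ p ∈ P, ‖fourier (m * (sv p : ℤ)) x + fourier (m * (sv p : ℤ)) y‖ ≤ π * ε := by
      intro p hp
      obtain ⟨hs1, hs2⟩ := hP p hp
      have hx : x = y + (x - y) := by abel
      have e1 : fourier (m * (sv p : ℤ)) x
          = fourier (m * (sv p : ℤ)) y * fourier (m * (sv p : ℤ)) (x - y) := by
        conv_lhs => rw [hx]
        simp only [fourier_apply, smul_add, AddCircle.toCircle_add, Circle.coe_mul]
      have e2 : fourier (m * (sv p : ℤ)) x + fourier (m * (sv p : ℤ)) y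
          = fourier (m * (sv p : ℤ)) y * (fourier (m * (sv p : ℤ)) (x - y) + 1) := by
        rw [e1]; ring
      have hn1 : ‖fourier (m * (sv p : ℤ)) y‖ ≤ 1 :=
        (ContinuousMap.norm_coe_le_norm _ _).trans (fourier_norm _).le
      rw [e2, norm_mul]
      have hmain : ‖fourier (m * (sv p : ℤ)) (x - y) + 1‖ ≤ π * ε := by
        rw [← ht]
        have habs : |((m * (sv p : ℤ) : ℤ) : ℝ) * t| = sv p * (|(m : ℝ)| * ‖x - y‖) := by
          push_cast
          rw [abs_mul, abs_mul, htn, Nat.abs_cast]; ring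
        apply norm_fourier_add_one_le hε
        · rw [habs, div_le_iff₀ (by positivity)]
          have h3 : (1 + ε) ^ (k + 1) * (|(m : ℝ)| * ‖x - y‖)
              ≤ (1 + ε) * (sv p * (|(m : ℝ)| * ‖x - y‖)) := by
            rw [pow_succ]
            have := mul_le_mul_of_nonneg_right hs1 hd0
            nlinarith
          nlinarith
        · rw [habs]
          have h3 : sv p * (|(m : ℝ)| * ‖x - y‖) ≤ (1 + ε) ^ (k + 1) * (|(m : ℝ)| * ‖x - y‖) :=
            mul_le_mul_of_nonneg_right hs2.le hd0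
          rw [pow_succ] at h3
          nlinarith
      calc ‖fourier (m * (sv p : ℤ)) y‖ * ‖fourier (m * (sv p : ℤ)) (x - y) + 1‖
          ≤ 1 * (π * ε) := by
            apply mul_le_mul hn1 hmain (norm_nonneg _) (by norm_num)
        _ = π * ε := one_mul _
    refine (Finset.sum_le_sum this).trans ?_
    rw [Finset.sum_const, nsmul_eq_mul]
    linarith

/-- the points for which at least `r` of the averages are not close to `c` -/
def Bad (m : ℤ) (c : ℂ) (η : ℝ) (r : ℕ) {M : ℕ} (P : Fin M → Finset (ℕ × ℕ)) :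
    Set (AddCircle (1 : ℝ)) :=
  {x | ∃ I : Finset (Fin M), I.card = r ∧ ∀ i ∈ I, η < ‖avP m (P i) x - c‖}

/-- Two points outside of the bad set for `2 r - 1` pieces have a common good piece. -/
lemma exists_common {m : ℤ} {c : ℂ} {η : ℝ} {r : ℕ} {P : Fin (2 * r - 1) → Finset (ℕ × ℕ)}
    (hr : 1 ≤ r)
    {x y : AddCircle (1 : ℝ)} (hx : x ∉ Bad m c η r P) (hy : y ∉ Bad m c η r P) :
    ∃ i, ‖avP m (P i) x - c‖ ≤ η ∧ ‖avP m (P i) y - c‖ ≤ η := by
  classical
  by_contra hcon
  push Not at hcon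
  set I := Finset.univ.filter fun i => η < ‖avP m (P i) x - c‖ with hI
  set J := Finset.univ.filter fun i => η < ‖avP m (P i) y - c‖ with hJ
  have hI1 : I.card < r := by
    by_contra h
    push Not at h
    obtain ⟨I', hI', hc⟩ := Finset.exists_subset_card_eq h
    exact hx ⟨I', hc, fun i hi => (Finset.mem_filter.1 (hI' hi)).2⟩
  have hJ1 : J.card < r := by
    by_contra h
    push Not at h
    obtain ⟨J', hJ', hc⟩ := Finset.exists_subset_card_eq h
    exact hy ⟨J', hc, fun i hi => (Finset.mem_filter.1 (hJ' hi)).2⟩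
  have hU : (Finset.univ : Finset (Fin (2 * r - 1))) ⊆ I ∪ J := by
    intro i _
    rw [Finset.mem_union]
    by_cases h : ‖avP m (P i) x - c‖ ≤ η
    · right
      exact Finset.mem_filter.2 ⟨Finset.mem_univ _, hcon i h⟩
    · left
      exact Finset.mem_filter.2 ⟨Finset.mem_univ _, not_le.1 h⟩
  have h1 := Finset.card_le_card hU
  have h2 := Finset.card_union_le I J
  rw [Finset.card_univ, Fintype.card_fin] at h1
  omega

/-- **Criterion.** If the measures of the bad sets of the windows are summable, the value `c` is small. -/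
theorem criterion {μ : Measure (AddCircle (1 : ℝ))} [IsProbabilityMeasure μ] [NullSingletonClass μ]
    {ε η : ℝ} (hε : 0 < ε) {m : ℤ} (hm : m ≠ 0) {c : ℂ} (hη : 2 * η + π * ε < 2 * ‖c‖)
    {r : ℕ} (hr : 1 ≤ r) (P : ℕ → Fin (2 * r - 1) → Finset (ℕ × ℕ)) {K₀ : ℕ}
    (hwin : ∀ k, K₀ ≤ k → ∀ i, ∀ p ∈ P k i,
      (1 + ε) ^ k ≤ (sv p : ℝ) ∧ (sv p : ℝ) < (1 + ε) ^ (k + 1))
    (hsum : ∑' k, μ (Bad m c η r (P (k + K₀))) ≠ ⊤) : False := by
  have hm' : 0 < |(m : ℝ)| := abs_pos.mpr (by exact_mod_cast hm)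
  have hcount : ∀ K, {x : AddCircle (1 : ℝ) | ∀ k, K₀ + K ≤ k → x ∉ Bad m c η r (P k)}.Countable := by
    intro K
    set D := {x : AddCircle (1 : ℝ) | ∀ k, K₀ + K ≤ k → x ∉ Bad m c η r (P k)} with hD
    set δ : ℝ := 1 / (2 * (1 + ε) ^ (K₀ + K) * |(m : ℝ)|) with hδ
    have hpow : 0 < (1 + ε) ^ (K₀ + K) := by positivity
    have hδpos : 0 < δ := by positivity
    have hsep : ∀ x ∈ D, ∀ y ∈ D, x ≠ y → δ ≤ dist x y := by
      intro x hx y hy hxy
      by_contra hcon
      push Not at hcon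
      have hd : 0 < |(m : ℝ)| * ‖x - y‖ := by
        have : 0 < ‖x - y‖ := norm_pos_iff.mpr (sub_ne_zero.mpr hxy)
        positivity
      rw [dist_eq_norm, hδ, lt_div_iff₀ (by positivity)] at hcon
      obtain ⟨k, hk, hk1, hk2⟩ := exists_scale hε hd (K := K₀ + K) (by nlinarith)
      obtain ⟨i, hi1, hi2⟩ := exists_common hr (hx k hk) (hy k hk)
      have h1 := norm_avP_add_le hε (P := P k i) (hwin k (by omega) i) hk1 hk2
      have h2 : 2 * ‖c‖ ≤ ‖avP m (P k i) x + avP m (P k i) y‖ + ‖avP m (P k i) x - c‖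
          + ‖avP m (P k i) y - c‖ := by
        have e : (2 : ℂ) * c = (avP m (P k i) x + avP m (P k i) y) - (avP m (P k i) x - c)
            - (avP m (P k i) y - c) := by ring
        have e2 : 2 * ‖c‖ = ‖(2 : ℂ) * c‖ := by rw [norm_mul]; simp
        rw [e2, e]
        refine (norm_sub_le _ _).trans ?_
        gcongr
        exact norm_sub_le _ _
      linarith
    have hdisj : D.PairwiseDisjoint (fun x => Metric.ball x (δ / 2)) := by
      intro x hx y hy hxy
      apply Metric.ball_disjoint_ball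
      have := hsep x hx y hy hxy
      linarith
    exact hdisj.countable_of_isOpen (fun x _ => Metric.isOpen_ball)
      (fun x _ => ⟨x, Metric.mem_ball_self (by positivity)⟩)
  have hae := ae_eventually_notMem hsum
  have hnull : μ (⋃ K, {x : AddCircle (1 : ℝ) | ∀ k, K₀ + K ≤ k → x ∉ Bad m c η r (P k)}) = 0 :=
    (countable_iUnion hcount).measure_zero μ
  have hfalse : ∀ᵐ x ∂μ, False := by
    filter_upwards [hae, measure_eq_zero_iff_ae_notMem.mp hnull] with x hx hx'
    apply hx'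
    obtain ⟨K, hK⟩ := eventually_atTop.mp hx
    rw [mem_iUnion]
    refine ⟨K, fun k hk => ?_⟩
    have := hK (k - K₀) (by omega)
    rwa [Nat.sub_add_cancel (by omega)] at this
  have h3 : μ univ = 0 := by
    rw [ae_iff] at hfalse
    simpa using hfalse
  rw [measure_univ] at h3
  exact one_ne_zero h3

end Pool.Agent.MixR
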