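import Pool.Agent.MixR.EnergyDef

/-!
# Cells of the circle, and codes of points
-/

open Set Filter Topology MeasureTheory
open scoped ENNReal NNReal Real

namespace Pool.Agent.MixR

open Pool.Agent.H29E Pool.Agent.MP_e27144_an

/-- the representative in `[0, 1)` -/
noncomputable def rep (x : AddCircle (1 : ℝ)) : ℝ :=
  ((AddCircle.equivIco (1 : ℝ) 0 x : Set.Ico (0 : ℝ) (0 + 1)) : ℝ)

lemma rep_nonneg (x : AddCircle (1 : ℝ)) : 0 ≤ rep x := (AddCircle.equivIco (1 : ℝ) 0 x).2.1

lemma rep_lt (x : AddCircle (1 : ℝ)) : rep x < 1 := by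
  have := (AddCircle.equivIco (1 : ℝ) 0 x).2.2
  unfold rep
  linarith

lemma coe_rep (x : AddCircle (1 : ℝ)) : ((rep x : ℝ) : AddCircle (1 : ℝ)) = x :=
  AddCircle.coe_equivIco

lemma measurable_rep : Measurable rep := by
  unfold rep
  exact measurable_subtype_coe.comp (AddCircle.measurableEquivIco (1 : ℝ) 0).measurable

/-- the index of the cell of length `1 / N` -/
noncomputable def cell (N : ℕ) (x : AddCircle (1 : ℝ)) : ℕ := ⌊N * rep x⌋₊

lemma measurable_cell (N : ℕ) : Measurable (cell N) := by
  unfold cell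
  exact Nat.measurable_floor.comp (measurable_rep.const_mul _)

lemma cell_lt {N : ℕ} (hN : 0 < N) (x : AddCircle (1 : ℝ)) : cell N x < N := by
  unfold cell
  rw [Nat.floor_lt (mul_nonneg (Nat.cast_nonneg _) (rep_nonneg x))]
  have h1 := rep_lt x
  have h2 : (0 : ℝ) < N := by exact_mod_cast hN
  nlinarith

lemma norm_sub_of_cell {N : ℕ} (hN : 0 < N) {x y : AddCircle (1 : ℝ)} (h : cell N x = cell N y) :
    ‖x - y‖ ≤ 1 / N := by
  have hN' : (0 : ℝ) < N := by exact_mod_cast hN
  have h1 : |N * rep x - N * rep y| < 1 := by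
    unfold cell at h
    have h2 := Nat.floor_le (mul_nonneg hN'.le (rep_nonneg x))
    have h3 := Nat.floor_le (mul_nonneg hN'.le (rep_nonneg y))
    have h4 := Nat.lt_floor_add_one (N * rep x)
    have h5 := Nat.lt_floor_add_one (N * rep y)
    rw [h] at h2 h4
    rw [abs_lt]
    constructor <;> linarith
  have h2 : |rep x - rep y| ≤ 1 / N := by
    rw [le_div_iff₀ hN']
    have e : |N * rep x - N * rep y| = |rep x - rep y| * N := by
      rw [← mul_sub, abs_mul, abs_of_pos hN', mul_comm]
    linarith
  calc ‖x - y‖ = ‖((rep x - rep y : ℝ) : AddCircle (1 : ℝ))‖ := by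
        rw [AddCircle.coe_sub, coe_rep, coe_rep]
    _ ≤ |rep x - rep y| := by
        rw [AddCircle.norm_eq]
        simp only [inv_one, one_mul, mul_one]
        have := round_le (rep x - rep y) 0
        simpa using this
    _ ≤ 1 / N := h2

/-- the norm of a multiple, as long as it is at most one half -/
lemma norm_nsmul_eq {n : ℕ} {t : AddCircle (1 : ℝ)} (h : n * ‖t‖ ≤ 1 / 2) : ‖n • t‖ = n * ‖t‖ := by
  obtain ⟨s, hs, hsn⟩ := Pool.Agent.MP_e27144_an.exists_rep t
  rw [← hs, ← AddCircle.coe_nsmul, nsmul_eq_mul]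
  have e1 : ‖(s : AddCircle (1 : ℝ))‖ = |s| := by rw [hs, hsn]
  rw [e1]
  have h2 : |(n : ℝ) * s| ≤ 1 / 2 := by
    rw [abs_mul, Nat.abs_cast, hsn]; exact h
  rw [(AddCircle.norm_coe_eq_abs_iff (1 : ℝ) one_ne_zero).2 (by rw [abs_one]; exact h2), abs_mul,
    Nat.abs_cast]

/-- If there are codes with finitely many values such that points with equal codes are close, the
energy is at least a quarter of the sum of the squares of the masses of the codes. -/
theorem energy_ge_sum {μ : Measure (AddCircle (1 : ℝ))} [IsProbabilityMeasure μ] {β : Type*}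
    [Fintype β] [MeasurableSpace β] [MeasurableSingletonClass β] {code : AddCircle (1 : ℝ) → β}
    (hcode : Measurable code) {L : ℕ}
    (hclose : ∀ x y, code x = code y → 1 / 4 ≤ kern L (x - y)) :
    1 / 4 * ∑ b, (μ.map code).real {b} ^ 2 ≤ EN μ L := by
  rw [EN_eq]
  have : IsProbabilityMeasure (μ.map code) := Measure.isProbabilityMeasure_map hcode.aemeasurable
  have h1 : ∀ x, 1 / 4 * (μ.map code).real {code x} ≤ ∫ y, kern L (x - y) ∂μ := by
    intro x
    have hm : MeasurableSet (code ⁻¹' {code x}) := hcode (measurableSet_singleton _)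
    have e1 : 1 / 4 * (μ.map code).real {code x}
        = ∫ y, (code ⁻¹' {code x}).indicator (fun _ => (1 / 4 : ℝ)) y ∂μ := by
      rw [integral_indicator_const _ hm, map_measureReal_apply hcode (measurableSet_singleton _),
        smul_eq_mul, mul_comm]
    rw [e1]
    apply integral_mono
    · exact (integrable_const _).indicator hm
    · exact integrable_of_cont' ((continuous_kern L).comp (continuous_const.sub continuous_id))
    · intro y
      by_cases hy : y ∈ code ⁻¹' {code x}
      · rw [Set.indicator_of_mem hy]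
        exact hclose x y hy.symm
      · rw [Set.indicator_of_notMem hy]
        exact kern_nonneg _ _
  have h2 : ∫ x, 1 / 4 * (μ.map code).real {code x} ∂μ
      = 1 / 4 * ∑ b, (μ.map code).real {b} ^ 2 := by
    rw [integral_const_mul]
    congr 1
    have h3 := integral_map (μ := μ) (φ := code) hcode.aemeasurable
      (f := fun b => (μ.map code).real {b}) (by
        exact (measurable_of_finite _).aestronglyMeasurable)
    rw [← h3, integral_fintype (Integrable.of_finite)]
    apply Finset.sum_congr rfl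
    intro b _
    rw [smul_eq_mul, sq]
  rw [← h2]
  apply integral_mono
  · exact ((measurable_of_finite (fun b => 1 / 4 * (μ.map code).real {b})).comp hcode
      |>.aestronglyMeasurable |> fun h => Integrable.of_bound h (1 / 4) (Eventually.of_forall fun x => by
        rw [Real.norm_of_nonneg (by positivity)]
        have := measureReal_le_one (μ := μ.map code) (s := {code x})
        linarith))
  · have : Continuous fun x => ∫ y, kern L (x - y) ∂μ := by
      refine continuous_of_dominated (F := fun x y => kern L (x - y)) (bound := fun _ => (1 : ℝ))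
        (fun x => ((continuous_kern L).comp (continuous_const.sub continuous_id)).aestronglyMeasurable)
        (fun x => Eventually.of_forall fun y => ?_) (integrable_const _)
        (Eventually.of_forall fun y => (continuous_kern L).comp (continuous_id.sub continuous_const))
      rw [Real.norm_of_nonneg (kern_nonneg _ _)]
      exact kern_le_one _ _
    exact integrable_of_cont' this
  · exact h1

/-- near `0` the kernel is at least one quarter -/
lemma kern_ge {L : ℕ} {t : AddCircle (1 : ℝ)} (ht : ‖t‖ ≤ 1 / (6 * 2 ^ L)) : 1 / 4 ≤ kern L t := by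
  obtain ⟨s, hs, hsn⟩ := Pool.Agent.MP_e27144_an.exists_rep t
  have h1 : ∀ j ∈ Finset.range (2 ^ L), (1 : ℝ) / 2 ≤ (fourier (j : ℤ) t : ℂ).re := by
    intro j hj
    have hj' : (j : ℝ) ≤ 2 ^ L := by
      have := (Finset.mem_range.1 hj).le
      exact_mod_cast this
    rw [← hs, fourier_coe_apply]
    have e : (2 * (π : ℂ) * Complex.I * ((j : ℤ) : ℂ) * (s : ℂ) / ((1 : ℝ) : ℂ))
        = ((2 * π * (j * s) : ℝ) : ℂ) * Complex.I := by
      push_cast; ring
    rw [e, Complex.exp_ofReal_mul_I_re]
    have h2 : |2 * π * (j * s)| ≤ π / 3 := by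
      rw [abs_mul (2 * π), abs_mul (j : ℝ), abs_of_pos (by positivity : (0 : ℝ) < 2 * π),
        Nat.abs_cast, hsn]
      have h3 : (j : ℝ) * ‖t‖ ≤ 2 ^ L * (1 / (6 * 2 ^ L)) :=
        mul_le_mul hj' ht (norm_nonneg _) (by positivity)
      have h4 : (2 : ℝ) ^ L * (1 / (6 * 2 ^ L)) = 1 / 6 := by field_simp
      rw [h4] at h3
      have := Real.pi_pos
      nlinarith
    rw [← Real.cos_abs, ← Real.cos_pi_div_three]
    apply Real.cos_le_cos_of_nonneg_of_le_pi (abs_nonneg _) _ h2
    have := Real.pi_pos
    linarith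
  have h2 : (2 : ℝ) ^ L / 2 ≤ ‖(∑ j ∈ Finset.range (2 ^ L), (fourier (j : ℤ) t : ℂ))‖ := by
    refine le_trans ?_ (Complex.re_le_norm _)
    rw [Complex.re_sum]
    calc (2 : ℝ) ^ L / 2 = ∑ _j ∈ Finset.range (2 ^ L), (1 : ℝ) / 2 := by
          rw [Finset.sum_const, Finset.card_range, nsmul_eq_mul]; push_cast; ring
      _ ≤ _ := Finset.sum_le_sum h1
  unfold kern
  rw [le_div_iff₀ (by positivity)]
  calc 1 / 4 * (4 : ℝ) ^ L = (2 ^ L / 2) ^ 2 := by
        rw [div_pow, ← pow_mul, mul_comm L 2, pow_mul]; norm_num; ring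
    _ ≤ _ := pow_le_pow_left₀ (by positivity) h2 2

end Pool.Agent.MixR
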