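import Pool.Agent.MixR.Code

/-!
# The energy is bounded below in terms of the measures of the bad sets
-/

open Set Filter Topology MeasureTheory
open scoped ENNReal NNReal Real

namespace Pool.Agent.MixR

open Pool.Agent.H29E Pool.Agent.MP_e27144_an

open Classical in
/-- the symbol of a point at one scale: `0` outside of the bad set, otherwise the octant of `n • x` -/
noncomputable def sym (B : Set (AddCircle (1 : ℝ))) (n : ℕ) (x : AddCircle (1 : ℝ)) : Fin 9 :=
  if x ∈ B then Fin.ofNat 9 (1 + cell 8 (n • x)) else 0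

lemma measurable_sym {B : Set (AddCircle (1 : ℝ))} (hB : MeasurableSet B) (n : ℕ) :
    Measurable (sym B n) := by
  classical
  have h1 : Measurable fun x : AddCircle (1 : ℝ) => cell 8 (n • x) :=
    (measurable_cell 8).comp (continuous_nsmul n).measurable
  have h3 : Measurable fun t : ℕ => (Fin.ofNat 9 (1 + t) : Fin 9) := measurable_from_top
  unfold sym
  exact Measurable.ite hB (h3.comp h1) measurable_const

lemma sym_of_mem {B : Set (AddCircle (1 : ℝ))} {n : ℕ} {x : AddCircle (1 : ℝ)} (h : x ∈ B) :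
    (sym B n x : ℕ) = 1 + cell 8 (n • x) := by
  unfold sym
  rw [if_pos h]
  have := cell_lt (by norm_num : 0 < 8) (n • x)
  simp only [Fin.ofNat]
  omega

lemma sym_of_notMem {B : Set (AddCircle (1 : ℝ))} {n : ℕ} {x : AddCircle (1 : ℝ)} (h : x ∉ B) :
    sym B n x = 0 := by
  unfold sym
  rw [if_neg h]

lemma sym_eq_zero {B : Set (AddCircle (1 : ℝ))} {n : ℕ} {x : AddCircle (1 : ℝ)} :
    sym B n x = 0 ↔ x ∉ B := by
  constructor
  · intro h hx
    have := sym_of_mem (n := n) hx
    rw [h] at this
    have h0 : ((0 : Fin 9) : ℕ) = 0 := rfl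
    omega
  · exact sym_of_notMem

/-- one step of the descent -/
lemma sym_step {B : Set (AddCircle (1 : ℝ))} {n : ℕ} {r r' : ℝ} (hn : n * r ≤ 1 / 2)
    (hn' : 1 / 8 ≤ n * r') (hpair : ∀ x y, r' ≤ ‖x - y‖ → ‖x - y‖ ≤ r → x ∈ B ∨ y ∈ B)
    {x y : AddCircle (1 : ℝ)} (hxy : ‖x - y‖ ≤ r) (hs : sym B n x = sym B n y) : ‖x - y‖ ≤ r' := by
  by_contra hcon
  push Not at hcon
  by_cases hx : x ∈ B
  · have hy : y ∈ B := by
      by_contra hy
      rw [sym_eq_zero.2 hy, sym_eq_zero] at hs
      exact hs hx
    have h1 : (sym B n x : ℕ) = sym B n y := by rw [hs]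
    rw [sym_of_mem hx, sym_of_mem hy] at h1
    have h2 : cell 8 (n • x) = cell 8 (n • y) := by omega
    have h3 := norm_sub_of_cell (by norm_num : 0 < 8) h2
    have h4 : (n : ℝ) * ‖x - y‖ ≤ 1 / 2 :=
      (mul_le_mul_of_nonneg_left hxy (Nat.cast_nonneg _)).trans hn
    rw [← nsmul_sub, norm_nsmul_eq h4] at h3
    have h5 : (0 : ℝ) < n := by
      by_contra h
      push Not at h
      have h0 : (n : ℝ) = 0 := le_antisymm h (Nat.cast_nonneg _)
      rw [h0, zero_mul] at hn'
      linarith
    push_cast at h3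
    nlinarith
  · have hy : y ∉ B := by
      rw [← sym_eq_zero (n := n), ← hs, sym_eq_zero]
      exact hx
    rcases hpair x y hcon.le hxy with h | h
    · exact hx h
    · exact hy h

/-- **Lower bound of the energy.** -/
theorem energy_ge {μ : Measure (AddCircle (1 : ℝ))} [IsProbabilityMeasure μ]
    {B : ℕ → Set (AddCircle (1 : ℝ))} (hB : ∀ k, MeasurableSet (B k)) {r : ℕ → ℝ} {nn : ℕ → ℕ}
    {N n L : ℕ} (hN : 0 < N) (hNr : 1 / (N : ℝ) ≤ r 0)
    (hn : ∀ k, nn k * r k ≤ 1 / 2) (hn' : ∀ k, 1 / 8 ≤ nn k * r (k + 1))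
    (hpair : ∀ k x y, r (k + 1) ≤ ‖x - y‖ → ‖x - y‖ ≤ r k → x ∈ B k ∨ y ∈ B k)
    (hL : r n ≤ 1 / (6 * 2 ^ L)) {t : ℝ} (ht : 0 ≤ t) :
    Real.exp (-2 * t * ∑ k ∈ Finset.range n, μ.real (B k))
      ≤ 4 * N * (1 + 8 * Real.exp (-2 * t)) ^ n * EN μ L := by
  classical
  have : NeZero N := ⟨hN.ne'⟩
  let code : AddCircle (1 : ℝ) → Fin N × (Fin n → Fin 9) := fun x =>
    (Fin.ofNat N (cell N x), fun i => sym (B i) (nn i) x)
  have hcode : Measurable code := by
    refine Measurable.prodMk ?_ ?_
    · have h3 : Measurable fun t : ℕ => (Fin.ofNat N t : Fin N) := measurable_from_top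
      exact h3.comp (measurable_cell N)
    · exact measurable_pi_lambda _ fun i => measurable_sym (hB i) _
  have hclose : ∀ x y, code x = code y → 1 / 4 ≤ kern L (x - y) := by
    intro x y hxy
    apply kern_ge
    refine le_trans ?_ hL
    have h1 : cell N x = cell N y := by
      have h := congrArg (fun z => ((Prod.fst z : Fin N) : ℕ)) hxy
      simp only [code, Fin.ofNat] at h
      rwa [Nat.mod_eq_of_lt (cell_lt hN x), Nat.mod_eq_of_lt (cell_lt hN y)] at h
    have h2 : ∀ i : Fin n, sym (B i) (nn i) x = sym (B i) (nn i) y := fun i =>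
      congrFun (congrArg Prod.snd hxy) i
    have h3 : ∀ k, k ≤ n → ‖x - y‖ ≤ r k := by
      intro k
      induction k with
      | zero => exact fun _ => (norm_sub_of_cell hN h1).trans hNr
      | succ k ih =>
        intro hk
        exact sym_step (hn k) (hn' k) (hpair k) (ih (by omega)) (h2 ⟨k, by omega⟩)
    exact h3 n le_rfl
  have hen := energy_ge_sum (μ := μ) hcode hclose
  set ν := μ.map code with hν
  have hνp : IsProbabilityMeasure ν := Measure.isProbabilityMeasure_map hcode.aemeasurable
  -- the weight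
  let v : Fin N × (Fin n → Fin 9) → ℝ := fun b => ∏ i, (if b.2 i = 0 then 1 else Real.exp (-t))
  have hv0 : ∀ b, 0 ≤ v b := fun b => Finset.prod_nonneg fun i _ => by
    split_ifs
    · exact zero_le_one
    · exact (Real.exp_pos _).le
  have hv2 : ∑ b, v b ^ 2 = N * (1 + 8 * Real.exp (-2 * t)) ^ n := by
    have e1 : ∀ b : Fin N × (Fin n → Fin 9), v b ^ 2
        = ∏ i, (if b.2 i = 0 then 1 else Real.exp (-2 * t)) := by
      intro b
      simp only [v]
      rw [← Finset.prod_pow]
      apply Finset.prod_congr rfl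
      intro i _
      split_ifs
      · norm_num
      · rw [← Real.exp_nat_mul]
        congr 1
        push_cast
        ring
    rw [Finset.sum_congr rfl (fun b _ => e1 b), Fintype.sum_prod_type]
    have e3 : ∀ a : Fin N, ∑ y : Fin n → Fin 9,
        ∏ i, (if ((a, y) : Fin N × (Fin n → Fin 9)).2 i = 0 then (1 : ℝ) else Real.exp (-2 * t))
        = ∑ y : Fin n → Fin 9, ∏ i, (if y i = 0 then (1 : ℝ) else Real.exp (-2 * t)) := fun a => rfl
    rw [Finset.sum_congr rfl (fun a _ => e3 a), Finset.sum_const, Finset.card_univ,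
      Fintype.card_fin, nsmul_eq_mul]
    congr 1
    have e2 : ∑ x : Fin n → Fin 9, ∏ i, (if x i = 0 then (1 : ℝ) else Real.exp (-2 * t))
        = ∏ _i : Fin n, ∑ j : Fin 9, (if j = 0 then (1 : ℝ) else Real.exp (-2 * t)) := by
      rw [Finset.prod_univ_sum (fun _ : Fin n => (Finset.univ : Finset (Fin 9)))
        (fun _ j => (if j = 0 then (1 : ℝ) else Real.exp (-2 * t))), Fintype.piFinset_univ]
    rw [e2, Finset.prod_const, Finset.card_univ, Fintype.card_fin]
    congr 1
    simp [Fin.sum_univ_succ]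
  -- the mean of the weight
  have hmean : ∫ x, v (code x) ∂μ = ∑ b, ν.real {b} * v b := by
    have h3 := integral_map (μ := μ) (φ := code) hcode.aemeasurable
      (f := v) ((measurable_of_finite _).aestronglyMeasurable)
    rw [← h3, integral_fintype (Integrable.of_finite)]
    rfl
  have hcs : (∑ b, ν.real {b} * v b) ^ 2 ≤ (∑ b, ν.real {b} ^ 2) * ∑ b, v b ^ 2 :=
    Finset.sum_mul_sq_le_sq_mul_sq _ _ _
  set E := ∑ k ∈ Finset.range n, μ.real (B k) with hE
  -- the lower bound of the mean
  have hlow : Real.exp (-t * E) ≤ ∫ x, v (code x) ∂μ := by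
    set S : AddCircle (1 : ℝ) → ℝ := fun x =>
      ∑ k ∈ Finset.range n, (B k).indicator (1 : AddCircle (1 : ℝ) → ℝ) x with hS
    have e1 : ∀ x, v (code x) = Real.exp (-t * S x) := by
      intro x
      simp only [v, code, hS]
      rw [Finset.mul_sum, Real.exp_sum, ← Fin.prod_univ_eq_prod_range
        (fun k => Real.exp (-t * (B k).indicator (1 : AddCircle (1 : ℝ) → ℝ) x)) n]
      apply Finset.prod_congr rfl
      intro i _
      by_cases hx : x ∈ B i
      · rw [if_neg (fun h => (sym_eq_zero.1 h) hx), Set.indicator_of_mem hx]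
        simp
      · rw [if_pos (sym_eq_zero.2 hx), Set.indicator_of_notMem hx]
        simp
    have e2 : ∀ x, Real.exp (-t * E) * ((1 + t * E) + (-t) * S x) ≤ v (code x) := by
      intro x
      rw [e1]
      have h1 := Real.add_one_le_exp (t * E - t * S x)
      have h2 : Real.exp (-t * S x) = Real.exp (-t * E) * Real.exp (t * E - t * S x) := by
        rw [← Real.exp_add]; congr 1; ring
      rw [h2]
      apply mul_le_mul_of_nonneg_left _ (Real.exp_pos _).le
      linarith
    have hint : ∀ k, Integrable (fun x => (B k).indicator (1 : AddCircle (1 : ℝ) → ℝ) x) μ := fun k =>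
      (integrable_const (1 : ℝ)).indicator (hB k)
    have hSint : Integrable S μ := integrable_finsetSum _ fun k _ => hint k
    have e3 : ∫ x, Real.exp (-t * E) * ((1 + t * E) + (-t) * S x) ∂μ = Real.exp (-t * E) := by
      rw [integral_const_mul, integral_add (integrable_const _) (hSint.const_mul _),
        integral_const_mul]
      have h7 : ∫ x, S x ∂μ = E := by
        simp only [hS]
        rw [integral_finsetSum _ (fun k _ => hint k)]
        have h6 : ∀ k ∈ Finset.range n, ∫ x, (B k).indicator (1 : AddCircle (1 : ℝ) → ℝ) x ∂μ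
            = μ.real (B k) := by
          intro k _
          rw [integral_indicator_one (hB k)]
        rw [Finset.sum_congr rfl h6]
      rw [h7, integral_const]
      simp
    rw [← e3]
    apply integral_mono _ _ e2
    · exact ((integrable_const _).add (hSint.const_mul _)).const_mul _
    · refine Integrable.of_bound ((measurable_of_finite v).comp hcode).aestronglyMeasurable 1
        (Eventually.of_forall fun x => ?_)
      rw [Real.norm_of_nonneg (hv0 _)]
      simp only [v]
      apply Finset.prod_le_one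
      · intro i _
        split_ifs
        · exact zero_le_one
        · exact (Real.exp_pos _).le
      · intro i _
        split_ifs
        · exact le_rfl
        · exact Real.exp_le_one_iff.2 (by linarith)
  have h5 : Real.exp (-2 * t * E) = Real.exp (-t * E) ^ 2 := by
    rw [← Real.exp_nat_mul]; congr 1; push_cast; ring
  rw [h5]
  have h6 : Real.exp (-t * E) ^ 2 ≤ (∑ b, ν.real {b} * v b) ^ 2 := by
    rw [← hmean]
    exact pow_le_pow_left₀ (Real.exp_pos _).le hlow 2
  refine h6.trans (hcs.trans ?_)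
  rw [hv2]
  have h7 : ∑ b, ν.real {b} ^ 2 ≤ 4 * EN μ L := by linarith
  calc (∑ b, ν.real {b} ^ 2) * (N * (1 + 8 * Real.exp (-2 * t)) ^ n)
      ≤ (4 * EN μ L) * (N * (1 + 8 * Real.exp (-2 * t)) ^ n) :=
        mul_le_mul_of_nonneg_right h7 (by positivity)
    _ = _ := by ring

end Pool.Agent.MixR
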