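import Pool.Agent.MixR.PairBlock

/-!
# The energy of a measure at the scale `2 ^ (-n)`
-/

open Set Filter Topology MeasureTheory
open scoped ENNReal NNReal Real

namespace Pool.Agent.MixR

open Pool.Agent.H29E Pool.Agent.MP_e27144_an

/-- the energy `4 ^ (-n) ∑ |c(j - j')| ^ 2`, `0 ≤ j, j' < 2 ^ n` -/
noncomputable def EN (μ : Measure (AddCircle (1 : ℝ))) (n : ℕ) : ℝ :=
  (∑ j ∈ Finset.range (2 ^ n), ∑ j' ∈ Finset.range (2 ^ n), ‖cf μ ((j : ℤ) - j')‖ ^ 2) / 4 ^ n

/-- the kernel `|2 ^ (-n) ∑ e(j t)| ^ 2`, `0 ≤ j < 2 ^ n` -/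
noncomputable def kern (n : ℕ) (t : AddCircle (1 : ℝ)) : ℝ :=
  ‖(∑ j ∈ Finset.range (2 ^ n), (fourier (j : ℤ) t : ℂ))‖ ^ 2 / 4 ^ n

lemma continuous_kern (n : ℕ) : Continuous (kern n) := by
  unfold kern
  exact ((continuous_finsetSum _ fun s _ => (fourier _).continuous).norm.pow 2).div_const _

lemma kern_nonneg (n : ℕ) (t : AddCircle (1 : ℝ)) : 0 ≤ kern n t := by
  unfold kern; positivity

lemma norm_fourier_pt (n : ℤ) (t : AddCircle (1 : ℝ)) : ‖(fourier n t : ℂ)‖ = 1 := by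
  rw [fourier_apply]; exact Circle.norm_coe _

lemma kern_le_one (n : ℕ) (t : AddCircle (1 : ℝ)) : kern n t ≤ 1 := by
  unfold kern
  rw [div_le_one (by positivity)]
  have h : ‖(∑ j ∈ Finset.range (2 ^ n), (fourier (j : ℤ) t : ℂ))‖ ≤ 2 ^ n := by
    refine (norm_sum_le _ _).trans ?_
    have h1 : ∀ i ∈ Finset.range (2 ^ n), ‖(fourier (i : ℤ) t : ℂ)‖ = 1 := fun i _ =>
      norm_fourier_pt _ t
    rw [Finset.sum_congr rfl h1, Finset.sum_const, Finset.card_range, nsmul_eq_mul, mul_one]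
    push_cast
    exact le_rfl
  calc ‖(∑ j ∈ Finset.range (2 ^ n), (fourier (j : ℤ) t : ℂ))‖ ^ 2 ≤ (2 ^ n) ^ 2 :=
        pow_le_pow_left₀ (norm_nonneg _) h 2
    _ = 4 ^ n := by rw [← pow_mul, mul_comm, pow_mul]; norm_num

/-- the kernel as a double sum -/
lemma kern_eq (n : ℕ) (x y : AddCircle (1 : ℝ)) : ((kern n (x - y) : ℝ) : ℂ)
    = (∑ j ∈ Finset.range (2 ^ n), ∑ j' ∈ Finset.range (2 ^ n),
      (fourier ((j : ℤ) - j') x : ℂ) * (starRingEnd ℂ) (fourier ((j : ℤ) - j') y)) / 4 ^ n := by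
  unfold kern
  push_cast
  congr 1
  have e : ∀ t : AddCircle (1 : ℝ), ((‖(∑ j ∈ Finset.range (2 ^ n), (fourier (j : ℤ) t : ℂ))‖ : ℝ) : ℂ) ^ 2
      = (∑ j ∈ Finset.range (2 ^ n), (fourier (j : ℤ) t : ℂ)) *
        (starRingEnd ℂ) (∑ j ∈ Finset.range (2 ^ n), (fourier (j : ℤ) t : ℂ)) := by
    intro t
    rw [Complex.mul_conj, Complex.normSq_eq_norm_sq]
    push_cast
    rfl
  rw [e, map_sum, Finset.sum_mul_sum]
  apply Finset.sum_congr rfl
  intro j _
  apply Finset.sum_congr rfl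
  intro j' _
  have e1 : ∀ l : ℤ, (fourier l (x - y) : ℂ) = fourier l x * fourier (-l) y := by
    intro l
    rw [sub_eq_add_neg]
    simp only [fourier_apply, smul_add, AddCircle.toCircle_add, Circle.coe_mul, smul_neg, neg_smul]
  rw [← fourier_neg, ← fourier_neg, e1, e1, sub_eq_add_neg, fourier_add (m := (j : ℤ)) (n := -(j' : ℤ)),
    neg_add, fourier_add (m := -(j : ℤ))]
  ring

variable {μ : Measure (AddCircle (1 : ℝ))} [IsProbabilityMeasure μ]

/-- the energy as a double integral -/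
theorem EN_eq (n : ℕ) : EN μ n = ∫ x, ∫ y, kern n (x - y) ∂μ ∂μ := by
  have hI : ∀ l : ℤ, Integrable (fun x : AddCircle (1 : ℝ) => (fourier l x : ℂ)) μ := fun l =>
    integrable_of_cont (fourier l).continuous
  have hI' : ∀ l : ℤ, Integrable (fun x : AddCircle (1 : ℝ) => (starRingEnd ℂ) (fourier l x : ℂ)) μ :=
    fun l => integrable_of_cont (Complex.continuous_conj.comp (fourier l).continuous)
  have e1 : ∀ x : AddCircle (1 : ℝ), ((∫ y, kern n (x - y) ∂μ : ℝ) : ℂ)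
      = (∑ j ∈ Finset.range (2 ^ n), ∑ j' ∈ Finset.range (2 ^ n),
        (fourier ((j : ℤ) - j') x : ℂ) * (starRingEnd ℂ) (cf μ ((j : ℤ) - j'))) / 4 ^ n := by
    intro x
    rw [← integral_complex_ofReal]
    simp_rw [kern_eq]
    rw [integral_div, integral_finsetSum _ (fun j _ => integrable_finsetSum _ fun j' _ =>
      (hI' _).const_mul _)]
    congr 1
    apply Finset.sum_congr rfl
    intro j _
    rw [integral_finsetSum _ (fun j' _ => (hI' _).const_mul _)]
    apply Finset.sum_congr rfl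
    intro j' _
    rw [integral_const_mul, integral_conj]
    rfl
  have e2 : ((∫ x, ∫ y, kern n (x - y) ∂μ ∂μ : ℝ) : ℂ) = ((EN μ n : ℝ) : ℂ) := by
    rw [← integral_complex_ofReal]
    simp_rw [e1]
    rw [integral_div, integral_finsetSum _ (fun j _ => integrable_finsetSum _ fun j' _ =>
      (hI _).mul_const _)]
    unfold EN
    push_cast
    congr 1
    apply Finset.sum_congr rfl
    intro j _
    rw [integral_finsetSum _ (fun j' _ => (hI _).mul_const _)]
    apply Finset.sum_congr rfl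
    intro j' _
    rw [integral_mul_const]
    have : ∫ x, (fourier ((j : ℤ) - j') x : ℂ) ∂μ = cf μ ((j : ℤ) - j') := rfl
    rw [this, Complex.mul_conj, Complex.normSq_eq_norm_sq]
    push_cast
    rfl
  exact_mod_cast e2.symm

end Pool.Agent.MixR
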