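import Pool.Agent.MixR.ExpWindow

/-!
# Exponential mixing implies that the nontrivial Fourier coefficients vanish
-/

open Set Filter Topology MeasureTheory
open scoped ENNReal NNReal Real

namespace Pool.Agent.MixR

open Pool.Agent.H29E Pool.Agent.MP_e27144_an

variable {μ : Measure (AddCircle (1 : ℝ))} [IsProbabilityMeasure μ]

/-- Summable moment bounds are contradictory. -/
theorem finish [NullSingletonClass μ] {ε η : ℝ} (hε : 0 < ε) (hη0 : 0 < η) {m : ℤ} (hm : m ≠ 0) {c : ℂ}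
    (hη : 2 * η + π * ε < 2 * ‖c‖) {r : ℕ} (hr : 1 ≤ r)
    (P : ℕ → Fin (2 * r - 1) → Finset (ℕ × ℕ)) (b : ℕ → ℝ) (hb : Summable b)
    (hwin : ∀ᶠ k in atTop, ∀ i, ∀ p ∈ P k i,
      (1 + ε) ^ k ≤ (sv p : ℝ) ∧ (sv p : ℝ) < (1 + ε) ^ (k + 1))
    (hP : ∀ᶠ k in atTop, ∀ I : Finset (Fin (2 * r - 1)), I.card = r →
      ∫ x, ∏ i : I, ‖avP m (P k i) x - c‖ ^ 2 ∂μ ≤ b k) : False := by
  obtain ⟨K₀, hK₀⟩ := eventually_atTop.1 (hwin.and hP)
  refine criterion (μ := μ) hε hm hη hr P (K₀ := K₀) (fun k hk => (hK₀ k hk).1) (ne_of_lt ?_)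
  have h1 : ∀ k, μ (Bad m c η r (P (k + K₀)))
      ≤ ENNReal.ofReal (2 ^ (2 * r - 1) * (b (k + K₀) / η ^ (2 * r))) := fun k =>
    bad_le hη0 (hK₀ (k + K₀) (by omega)).2
  refine (ENNReal.tsum_le_tsum h1).trans_lt ?_
  have h2 : Summable fun k => 2 ^ (2 * r - 1) * (b (k + K₀) / η ^ (2 * r)) :=
    (((summable_nat_add_iff K₀).2 hb).div_const _).mul_left _
  exact lt_top_iff_ne_top.2 h2.tsum_ofReal_ne_top

/-- the parameter `D` of the windows -/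
lemma ev_D {ε X₀ : ℝ} (hε : 0 < ε) (hX₀ : 1 ≤ X₀) {M : ℕ} (hM : 0 < M) {c₀ : ℝ}
    (hc₀ : c₀ = Real.log (1 + ε) / (2 * M * Real.log 3)) :
    0 < c₀ ∧ ∀ᶠ k : ℕ in atTop, X₀ * 3 ^ (M * ⌊c₀ * k⌋₊) ≤ (1 + ε) ^ k ∧
      c₀ * k / 2 ≤ (⌊c₀ * k⌋₊ : ℝ) ∧ (⌊c₀ * k⌋₊ : ℝ) ≤ c₀ * k := by
  have h3 : 0 < Real.log 3 := Real.log_pos (by norm_num)
  have hlam : 0 < Real.log (1 + ε) := Real.log_pos (by linarith)
  have hM' : (0 : ℝ) < M := by exact_mod_cast hM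
  have hc : 0 < c₀ := by rw [hc₀]; positivity
  refine ⟨hc, ?_⟩
  have hlim : Tendsto (fun k : ℕ => Real.exp (Real.log (1 + ε) / 2 * k)) atTop atTop :=
    Real.tendsto_exp_atTop.comp (tendsto_natCast_atTop_atTop.const_mul_atTop (by positivity))
  filter_upwards [hlim.eventually_ge_atTop X₀,
    tendsto_natCast_atTop_atTop.eventually_ge_atTop (2 / c₀)] with k hk1 hk2
  have h4 : (⌊c₀ * k⌋₊ : ℝ) ≤ c₀ * k := Nat.floor_le (by positivity)
  have h5 : c₀ * k < ⌊c₀ * k⌋₊ + 1 := Nat.lt_floor_add_one _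
  have h6 : 2 ≤ c₀ * k := by rw [div_le_iff₀ hc] at hk2; linarith
  refine ⟨?_, by linarith, h4⟩
  have e1 : (3 : ℝ) ^ (M * ⌊c₀ * k⌋₊) = Real.exp (M * ⌊c₀ * k⌋₊ * Real.log 3) := by
    rw [mul_comm _ (Real.log 3), Real.exp_mul, Real.exp_log (by norm_num)]
    exact_mod_cast rfl
  have e2 : (1 + ε) ^ k = Real.exp (Real.log (1 + ε) / 2 * k) * Real.exp (Real.log (1 + ε) / 2 * k) := by
    rw [← Real.exp_add, ← add_mul, add_halves, Real.exp_mul, Real.exp_log (by linarith)]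
    exact_mod_cast rfl
  have h7 : M * (⌊c₀ * k⌋₊ : ℝ) * Real.log 3 ≤ Real.log (1 + ε) / 2 * k := by
    calc M * (⌊c₀ * k⌋₊ : ℝ) * Real.log 3 ≤ M * (c₀ * k) * Real.log 3 := by gcongr
      _ = Real.log (1 + ε) / 2 * k := by rw [hc₀]; field_simp
  rw [e1, e2]
  exact mul_le_mul hk1 (Real.exp_le_exp.2 h7) (Real.exp_pos _).le (Real.exp_pos _).le

omit [IsProbabilityMeasure μ] in
lemma err_aux {q C X a E Y Y' : ℝ} (hq : 0 ≤ q) (hC : 0 ≤ C) (hX : X ≤ a * E) (hX0 : 0 ≤ a * E)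
    (hY0 : 0 ≤ Y) (hY : Y ≤ Y') : q * (C * X * Y) ≤ q * (C * a) * E * Y' := by
  have h1 : C * X ≤ C * (a * E) := mul_le_mul_of_nonneg_left hX hC
  have h2 : C * X * Y ≤ C * (a * E) * Y' :=
    mul_le_mul h1 hY hY0 (mul_nonneg hC hX0)
  calc q * (C * X * Y) ≤ q * (C * (a * E) * Y') := mul_le_mul_of_nonneg_left h2 hq
    _ = q * (C * a) * E * Y' := by ring

theorem exp_mixing [NullSingletonClass μ]
    (h2 : MeasurePreserving (fun x : AddCircle (1 : ℝ) => (2 : ℕ) • x) μ μ)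
    (h3 : MeasurePreserving (fun x : AddCircle (1 : ℝ) => (3 : ℕ) • x) μ μ)
    {r : ℕ} (hr : 2 ≤ r) {θ κ C : ℝ} {A : ℕ} (hθ : 1 / (r : ℝ) < θ) (hκ : 0 < κ)
    (hmix : ∀ (g : ℕ) (F : Finset (ℕ × ℕ)) (u : ℕ × ℕ → ℤ), F.card ≤ r → Sep g F →
      ‖cf μ (∑ p ∈ F, u p * (sv p : ℤ)) - ∏ p ∈ F, cf μ (u p)‖
        ≤ C * (∏ p ∈ F, (1 + |(u p : ℝ)|)) ^ A * Real.exp (-κ * (g : ℝ) ^ θ))
    {m : ℤ} (hm : m ≠ 0) : cf μ m = 0 := by
  by_contra hcm
  have hr0 : (0 : ℝ) < r := by positivity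
  have hr0' : (2 : ℝ) ≤ r := by exact_mod_cast hr
  have hθ0 : 0 < θ := lt_trans (by positivity) hθ
  have hC : 0 ≤ C := by
    have h := hmix 0 ∅ (fun _ => 0) (by simp) (by intro p hp; simp at hp)
    simp only [Finset.sum_empty, Finset.prod_empty, cf_zero, sub_self, norm_zero, one_pow, mul_one,
      Nat.cast_zero, Real.zero_rpow hθ0.ne', mul_zero, Real.exp_zero] at h
    exact h
  set c := cf μ m with hc
  have hc0 : 0 < ‖c‖ := norm_pos_iff.2 hcm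
  set ε : ℝ := min 1 (‖c‖ / 4) with hε_def
  have hε : 0 < ε := lt_min one_pos (by positivity)
  have hε1 : ε ≤ 1 := min_le_left _ _
  have hε2 : ε ≤ ‖c‖ / 4 := min_le_right _ _
  have hη : 2 * (‖c‖ / 4) + π * ε < 2 * ‖c‖ := by
    have := Real.pi_le_four
    have := Real.pi_pos
    nlinarith
  obtain ⟨L, X₀, f, hX₀, hL, hf⟩ := exists_el hε
  -- the exponent of the length of the pieces
  obtain ⟨θ', hθ1, hθ2⟩ : ∃ θ', 1 / (r : ℝ) < θ' ∧ θ' < min θ 1 := by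
    apply _root_.exists_between
    rw [lt_min_iff]
    exact ⟨hθ, by rw [div_lt_one hr0]; linarith⟩
  have hθ'θ : θ' < θ := hθ2.trans_le (min_le_left _ _)
  have hθ'1 : θ' < 1 := hθ2.trans_le (min_le_right _ _)
  have hθ'0 : 0 < θ' := lt_trans (by positivity) hθ1
  have hM : 0 < 2 * r - 1 := by omega
  obtain ⟨hc₀, hDev⟩ := ev_D hε hX₀ hM (c₀ := Real.log (1 + ε) / (2 * (2 * r - 1 : ℕ) * Real.log 3)) rfl
  set c₀ : ℝ := Real.log (1 + ε) / (2 * (2 * r - 1 : ℕ) * Real.log 3) with hc₀_def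
  set D : ℕ → ℕ := fun k => ⌊c₀ * k⌋₊ with hD
  set N : ℕ → ℕ := fun k => ⌈(k : ℝ) ^ θ'⌉₊ with hN
  set R : ℝ := 2 * ∑' t : ℕ, (2 + C * ((1 + |(m : ℝ)|) ^ 2) ^ A) * Real.exp (-κ * (t : ℝ) ^ θ) with hR
  have hR0 : 0 ≤ R := by
    rw [hR]
    apply mul_nonneg (by norm_num)
    apply tsum_nonneg
    intro t
    positivity
  set K₁ : ℝ := 4 ^ r * (C * ((1 + |(m : ℝ)| * 4) ^ r) ^ A) with hK₁
  have hK₁0 : 0 ≤ K₁ := by positivity
  set K₂ : ℝ := (r * A : ℕ) * (2 * L * Real.log 3) with hK₂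
  have hl3 : 0 < Real.log 3 := Real.log_pos (by norm_num)
  have hexp := tendsto_natCast_atTop_atTop.eventually
    (ev_exp2 hθ0 hθ'θ (κ := κ * (c₀ / 2) ^ θ) (by positivity) K₁ K₂ 2 hK₁0)
  have hNL := tendsto_natCast_atTop_atTop.eventually (ev_rpow hθ'1 (4 * L / c₀))
  have hb : Summable fun k : ℕ => R ^ r * (k : ℝ) ^ (-(θ' * r)) + (k : ℝ) ^ (-2 : ℝ) := by
    apply Summable.add
    · apply Summable.mul_left
      rw [Real.summable_nat_rpow]
      rw [div_lt_iff₀ hr0] at hθ1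
      linarith
    · exact Real.summable_nat_rpow.2 (by norm_num)
  refine finish (μ := μ) hε (by positivity : 0 < ‖c‖ / 4) hm hη (by omega : 1 ≤ r)
    (fun k i => piece f ((1 + ε) ^ k) (D k) L (N k) i) _ hb ?_ ?_
  all_goals
    filter_upwards [hDev, hexp, hNL, eventually_ge_atTop 1] with k hk1 hk2 hk3 hk4
    obtain ⟨hk1a, hk1b, hk1c⟩ := hk1
    have hk4' : (1 : ℝ) ≤ k := by exact_mod_cast hk4
    have hk0 : (0 : ℝ) < k := by linarith
    have hkθ : (1 : ℝ) ≤ (k : ℝ) ^ θ' := Real.one_le_rpow hk4' hθ'0.le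
    have hN1 : (N k : ℝ) ≤ 2 * (k : ℝ) ^ θ' := by
      have := Nat.ceil_lt_add_one (Real.rpow_nonneg hk0.le θ')
      simp only [hN]
      linarith
    have hN2 : (k : ℝ) ^ θ' ≤ N k := Nat.le_ceil _
    have hNL' : N k * L ≤ D k := by
      have h5 : ((N k * L : ℕ) : ℝ) ≤ (D k : ℕ) := by
        push_cast
        rw [Real.rpow_one, div_mul_eq_mul_div, div_le_iff₀ hc₀] at hk3
        have hL' : (0 : ℝ) ≤ L := Nat.cast_nonneg _
        have h6 : (N k : ℝ) * L ≤ 2 * (k : ℝ) ^ θ' * L := mul_le_mul_of_nonneg_right hN1 hL'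
        have h7 : (D k : ℝ) = (⌊c₀ * k⌋₊ : ℝ) := rfl
        rw [h7]
        linarith
      exact_mod_cast h5
    have hgood : Good ε X₀ ((1 + ε) ^ k) L f ((2 * r - 1) * D k) := good_of hε1 hX₀ hf hk1a
  · intro i p hp
    have h5 := hgood.piece_window hNL' i.2 hp
    refine ⟨h5.1, ?_⟩
    rw [pow_succ, mul_comm]
    exact h5.2
  · intro I hI
    have hN0 : 0 < N k := by
      have : (0 : ℝ) < N k := by linarith
      exact_mod_cast this
    have hDpos : 0 < D k := lt_of_lt_of_le (Nat.mul_pos hN0 hL) hNL'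
    have h3D : (3 : ℝ) ^ ((2 * r - 1) * D k) ≤ (1 + ε) ^ k := by
      refine le_trans ?_ hk1a
      have h30 : (0 : ℝ) ≤ 3 ^ ((2 * r - 1) * ⌊c₀ * k⌋₊) := by positivity
      exact le_mul_of_one_le_left h30 hX₀
    have hw := exp_window h2 h3 hc.symm hr hθ0 hκ hC hmix hgood hNL' hN0 hDpos h3D I hI
    refine hw.trans ?_
    rw [← hR]
    apply add_le_add
    · -- main term
      have h5 : R / (N k : ℝ) ≤ R * (k : ℝ) ^ (-θ') := by
        rw [Real.rpow_neg hk0.le, ← div_eq_mul_inv]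
        exact div_le_div_of_nonneg_left hR0 (by linarith) hN2
      have h6 : (R / (N k : ℝ)) ^ r ≤ (R * (k : ℝ) ^ (-θ')) ^ r :=
        pow_le_pow_left₀ (by positivity) h5 r
      refine h6.trans (le_of_eq ?_)
      rw [mul_pow, ← Real.rpow_natCast ((k : ℝ) ^ (-θ')) r, ← Real.rpow_mul hk0.le]
      ring_nf
    · -- error term
      refine le_trans ?_ hk2
      have h5 : (1 : ℝ) ≤ 3 ^ (N k * L) := one_le_pow₀ (by norm_num)
      have h6 : 1 + |(m : ℝ)| * (4 * 3 ^ (N k * L)) ≤ (1 + |(m : ℝ)| * 4) * 3 ^ (N k * L) := by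
        have e : (1 + |(m : ℝ)| * 4) * 3 ^ (N k * L)
            = 3 ^ (N k * L) + |(m : ℝ)| * (4 * 3 ^ (N k * L)) := by ring
        rw [e]
        exact add_le_add h5 le_rfl
      have h7 : (3 : ℝ) ^ (N k * L) ≤ Real.exp (2 * L * Real.log 3 * (k : ℝ) ^ θ') := by
        have e1 : (3 : ℝ) ^ (N k * L) = Real.exp (N k * L * Real.log 3) := by
          rw [mul_comm _ (Real.log 3), Real.exp_mul, Real.exp_log (by norm_num)]
          exact_mod_cast rfl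
        rw [e1]
        apply Real.exp_le_exp.2
        calc (N k : ℝ) * L * Real.log 3 ≤ (2 * (k : ℝ) ^ θ') * L * Real.log 3 := by gcongr
          _ = _ := by ring
      have h8 : ((1 + |(m : ℝ)| * (4 * 3 ^ (N k * L))) ^ r) ^ A
          ≤ ((1 + |(m : ℝ)| * 4) ^ r) ^ A * Real.exp (K₂ * (k : ℝ) ^ θ') := by
        calc ((1 + |(m : ℝ)| * (4 * 3 ^ (N k * L))) ^ r) ^ A
            ≤ (((1 + |(m : ℝ)| * 4) * Real.exp (2 * L * Real.log 3 * (k : ℝ) ^ θ')) ^ r) ^ A := by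
              gcongr
              exact h6.trans (mul_le_mul_of_nonneg_left h7 (by positivity))
          _ = ((1 + |(m : ℝ)| * 4) ^ r) ^ A * Real.exp (K₂ * (k : ℝ) ^ θ') := by
              rw [mul_pow, mul_pow, ← pow_mul (Real.exp _), ← Real.exp_nat_mul, hK₂,
                mul_assoc ((r * A : ℕ) : ℝ)]
      have h9 : Real.exp (-κ * (D k : ℝ) ^ θ)
          ≤ Real.exp (-(κ * (c₀ / 2) ^ θ) * (k : ℝ) ^ θ) := by
        apply Real.exp_le_exp.2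
        have h10 : (c₀ / 2) ^ θ * (k : ℝ) ^ θ ≤ (D k : ℝ) ^ θ := by
          rw [← Real.mul_rpow (by positivity) hk0.le]
          apply Real.rpow_le_rpow (by positivity) _ hθ0.le
          have h7 : (D k : ℝ) = (⌊c₀ * k⌋₊ : ℝ) := rfl
          rw [h7]; linarith
        have h11 := mul_le_mul_of_nonneg_left h10 hκ.le
        rw [← mul_assoc] at h11
        rw [neg_mul, neg_mul]
        exact neg_le_neg h11
      exact err_aux (by positivity) hC h8 (by positivity) (Real.exp_pos _).le h9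

end Pool.Agent.MixR
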