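import Pool.Agent.MixR.Pieces
import Pool.Agent.H29E.WinLeb

/-!
# Lebesgue measure is mixing in the neutral direction
-/

open Set Filter Topology MeasureTheory
open scoped ENNReal NNReal Real

namespace Pool.Agent.MixR

open Pool.Agent.H29E Pool.Agent.MP_e27144_an

/-- a vanishing combination of separated numbers has a coefficient divisible by a large power of two -/
lemma leb_key {g : ℕ} {F : Finset (ℕ × ℕ)} {u : ℕ × ℕ → ℤ} (hF : Sep g F)
    (hu : ∃ p ∈ F, u p ≠ 0) (h0 : ∑ p ∈ F, u p * (sv p : ℤ) = 0) :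
    ∃ p ∈ F, u p ≠ 0 ∧ (2 : ℤ) ^ g ∣ u p := by
  classical
  have hne : (F.filter fun p => u p ≠ 0).Nonempty := by
    obtain ⟨p, hp, hp0⟩ := hu
    exact ⟨p, Finset.mem_filter.2 ⟨hp, hp0⟩⟩
  obtain ⟨p, hp, hmin⟩ := Finset.exists_min_image _ (fun p : ℕ × ℕ => p.1) hne
  obtain ⟨hpF, hp0⟩ := Finset.mem_filter.1 hp
  refine ⟨p, hpF, hp0, ?_⟩
  have h1 : (2 : ℤ) ^ (p.1 + g) ∣ ∑ q ∈ F.erase p, u q * (sv q : ℤ) := by
    apply Finset.dvd_sum
    intro q hq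
    obtain ⟨hqp, hqF⟩ := Finset.mem_erase.1 hq
    by_cases hq0 : u q = 0
    · rw [hq0, zero_mul]; exact dvd_zero _
    have hm := hmin q (Finset.mem_filter.2 ⟨hqF, hq0⟩)
    have h2 : p.1 + g ≤ q.1 := by
      rcases hF p hpF q hqF (Ne.symm hqp) with h | h
      · exact h.1
      · omega
    apply Dvd.dvd.mul_left
    unfold sv
    push_cast
    exact (pow_dvd_pow 2 h2).trans (dvd_mul_right _ _)
  have h2 : u p * (sv p : ℤ) = -∑ q ∈ F.erase p, u q * (sv q : ℤ) := by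
    have := Finset.add_sum_erase F (fun q => u q * (sv q : ℤ)) hpF
    linarith
  have h3 : (2 : ℤ) ^ (p.1 + g) ∣ u p * (sv p : ℤ) := by
    rw [h2]; exact (dvd_neg).2 h1
  have h4 : (2 : ℤ) ^ p.1 * 2 ^ g ∣ 2 ^ p.1 * (u p * 3 ^ p.2) := by
    rw [← pow_add]
    have : u p * (sv p : ℤ) = 2 ^ p.1 * (u p * 3 ^ p.2) := by
      unfold sv; push_cast; ring
    rwa [this] at h3
  have h5 : (2 : ℤ) ^ g ∣ u p * 3 ^ p.2 :=
    (mul_dvd_mul_iff_left (by positivity)).1 h4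
  refine IsCoprime.dvd_of_dvd_mul_right ?_ h5
  apply IsCoprime.pow
  rw [Int.isCoprime_iff_gcd_eq_one]
  decide

lemma cf_volume (n : ℤ) : cf (volume : Measure (AddCircle (1 : ℝ))) n = if n = 0 then 1 else 0 := by
  unfold cf
  exact integral_fourier_eq n

/-- the difference for Lebesgue measure -/
lemma leb_diff {g : ℕ} {F : Finset (ℕ × ℕ)} {u : ℕ × ℕ → ℤ} (hF : Sep g F) :
    ‖cf (volume : Measure (AddCircle (1 : ℝ))) (∑ p ∈ F, u p * (sv p : ℤ))
      - ∏ p ∈ F, cf (volume : Measure (AddCircle (1 : ℝ))) (u p)‖ = 0 ∨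
    (‖cf (volume : Measure (AddCircle (1 : ℝ))) (∑ p ∈ F, u p * (sv p : ℤ))
      - ∏ p ∈ F, cf (volume : Measure (AddCircle (1 : ℝ))) (u p)‖ = 1 ∧
      ∃ p ∈ F, u p ≠ 0 ∧ (2 : ℤ) ^ g ∣ u p) := by
  by_cases hu : ∃ p ∈ F, u p ≠ 0
  · have h1 : ∏ p ∈ F, cf (volume : Measure (AddCircle (1 : ℝ))) (u p) = 0 := by
      obtain ⟨p, hp, hp0⟩ := hu
      exact Finset.prod_eq_zero hp (by rw [cf_volume, if_neg hp0])
    rw [h1, sub_zero, cf_volume]
    by_cases h0 : ∑ p ∈ F, u p * (sv p : ℤ) = 0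
    · right
      rw [if_pos h0]
      exact ⟨norm_one, leb_key hF hu h0⟩
    · left
      rw [if_neg h0, norm_zero]
  · left
    push Not at hu
    rw [Finset.sum_congr rfl (fun p hp => by rw [hu p hp]),
      Finset.prod_congr rfl (fun p hp => by rw [hu p hp])]
    simp [cf_volume]

end Pool.Agent.MixR
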