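import Pool.Agent.MixR.ExpMain
import Pool.Agent.MixR.Leb

/-!
# Exponentially mixing measures invariant under `x ↦ 2 x` and `x ↦ 3 x`
-/

open Set Filter Topology MeasureTheory
open scoped ENNReal NNReal Real

namespace Pool.Agent.Results.MP_e27144_an.ExponentialMixing

/-- The Fourier coefficient `∫ e(n x) dμ(x)`. -/
noncomputable def coef (μ : Measure (AddCircle (1 : ℝ))) (n : ℤ) : ℂ := ∫ x, fourier n x ∂μ

/-- The points `(a, b)` of `F`, which stand for the numbers `2 ^ a * 3 ^ b`, are `g`-separated in the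
neutral direction: of two different points one has the larger `a` and the other one the larger `b`, both
by at least `g`. -/
def Separated (g : ℕ) (F : Finset (ℕ × ℕ)) : Prop :=
  ∀ p ∈ F, ∀ q ∈ F, p ≠ q →
    (p.1 + g ≤ q.1 ∧ q.2 + g ≤ p.2) ∨ (q.1 + g ≤ p.1 ∧ p.2 + g ≤ q.2)

/-- Mixing of order `r` in the neutral direction, with the rate `exp (-κ g ^ θ)` and polynomial dependence
on the frequencies. -/
def ExpMixing (μ : Measure (AddCircle (1 : ℝ))) (r : ℕ) (θ : ℝ) : Prop :=
  ∃ (C κ : ℝ) (A : ℕ), 0 < κ ∧ ∀ (g : ℕ) (F : Finset (ℕ × ℕ)) (u : ℕ × ℕ → ℤ),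
    F.card ≤ r → Separated g F →
      ‖coef μ (∑ p ∈ F, u p * (2 ^ p.1 * 3 ^ p.2)) - ∏ p ∈ F, coef μ (u p)‖
        ≤ C * (∏ p ∈ F, (1 + |(u p : ℝ)|)) ^ A * Real.exp (-κ * (g : ℝ) ^ θ)

/-- For a probability measure `μ` without atoms on the circle which is invariant under `x ↦ 2 x` and
`x ↦ 3 x`, and for `r ≥ 2` and `1 / r < θ ≤ 1`: `μ` is Lebesgue measure if and only if it is mixing of
order `r` in the neutral direction with the rate `exp (-κ g ^ θ)`. In particular (`r = 2`) the only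
exponentially mixing invariant measure without atoms is Lebesgue measure. -/
theorem result (μ : Measure (AddCircle (1 : ℝ))) (hμ : IsProbabilityMeasure μ)
    (hna : ∀ x, μ {x} = 0)
    (h2 : MeasurePreserving (fun x : AddCircle (1 : ℝ) => (2 : ℕ) • x) μ μ)
    (h3 : MeasurePreserving (fun x : AddCircle (1 : ℝ) => (3 : ℕ) • x) μ μ)
    (r : ℕ) (hr : 2 ≤ r) (θ : ℝ) (hθ : 1 / (r : ℝ) < θ) (hθ1 : θ ≤ 1) :
    μ = volume ↔ ExpMixing μ r θ := by
  have : NullSingletonClass μ := ⟨hna⟩
  have hr0 : (0 : ℝ) < r := by positivity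
  have hθ0 : 0 < θ := lt_trans (by positivity) hθ
  have esv : ∀ (F : Finset (ℕ × ℕ)) (u : ℕ × ℕ → ℤ),
      ∑ p ∈ F, u p * (2 ^ p.1 * 3 ^ p.2 : ℤ) = ∑ p ∈ F, u p * (MixR.sv p : ℤ) := by
    intro F u
    apply Finset.sum_congr rfl
    intro p _
    unfold MixR.sv
    push_cast
    rfl
  constructor
  · intro h
    subst h
    refine ⟨1, Real.log 2, 1, Real.log_pos (by norm_num), ?_⟩
    intro g F u _ hF
    rw [esv, pow_one, one_mul]
    rcases MixR.leb_diff (u := u) hF with h | ⟨h, p, hp, hp0, hdvd⟩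
    · refine le_trans (le_of_eq h) ?_
      positivity
    · refine le_trans (le_of_eq h) ?_
      have h4 : (2 : ℝ) ^ g ≤ |(u p : ℝ)| := by
        have h5 := Int.le_of_dvd (abs_pos.2 hp0) ((dvd_abs _ _).2 hdvd)
        exact_mod_cast h5
      have h5 : |(u p : ℝ)| ≤ ∏ q ∈ F, (1 + |(u q : ℝ)|) := by
        have h6 : (1 + |(u p : ℝ)|) ≤ ∏ q ∈ F, (1 + |(u q : ℝ)|) := by
          rw [← Finset.mul_prod_erase F _ hp]
          apply le_mul_of_one_le_right (by positivity)
          calc (1 : ℝ) = ∏ _q ∈ F.erase p, (1 : ℝ) := by rw [Finset.prod_const_one]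
            _ ≤ ∏ q ∈ F.erase p, (1 + |(u q : ℝ)|) :=
                Finset.prod_le_prod (fun _ _ => zero_le_one)
                  (fun q _ => by linarith [abs_nonneg (u q : ℝ)])
        linarith
      have h7 : (g : ℝ) ^ θ ≤ g := by
        rcases Nat.eq_zero_or_pos g with h0 | h0
        · rw [h0, Nat.cast_zero, Real.zero_rpow hθ0.ne']
        · have h8 : (1 : ℝ) ≤ g := by exact_mod_cast h0
          calc (g : ℝ) ^ θ ≤ (g : ℝ) ^ (1 : ℝ) := Real.rpow_le_rpow_of_exponent_le h8 hθ1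
            _ = g := Real.rpow_one _
      have hlog : 0 < Real.log 2 := Real.log_pos (by norm_num)
      have h8 : Real.exp (-(Real.log 2 * g)) ≤ Real.exp (-Real.log 2 * (g : ℝ) ^ θ) := by
        apply Real.exp_le_exp.2
        nlinarith
      have h9 : (2 : ℝ) ^ g * Real.exp (-(Real.log 2 * g)) = 1 := by
        rw [Real.exp_neg, Real.exp_mul, Real.exp_log (by norm_num), Real.rpow_natCast]
        exact mul_inv_cancel₀ (by positivity)
      calc (1 : ℝ) = (2 : ℝ) ^ g * Real.exp (-(Real.log 2 * g)) := h9.symm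
        _ ≤ (∏ q ∈ F, (1 + |(u q : ℝ)|)) * Real.exp (-Real.log 2 * (g : ℝ) ^ θ) := by
            apply mul_le_mul (h4.trans h5) h8 (Real.exp_pos _).le
            exact Finset.prod_nonneg fun q _ => by positivity
  · rintro ⟨C, κ, A, hκ, hmix⟩
    apply H29E.eq_volume_of_fourier
    intro m hm
    exact MixR.exp_mixing h2 h3 hr hθ hκ (C := C) (A := A) (fun g F u hF hs => by
      have := hmix g F u hF hs
      rw [esv] at this
      exact this) hm

end Pool.Agent.Results.MP_e27144_an.ExponentialMixing
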