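import Mathlib

/-!
# Elementary asymptotics
-/

open Filter Topology

namespace Pool.Agent.MixR

lemma ev_rpow {a b : ℝ} (hab : a < b) (C : ℝ) : ∀ᶠ x : ℝ in atTop, C * x ^ a ≤ x ^ b := by
  have h := (tendsto_rpow_atTop (sub_pos.2 hab)).eventually_ge_atTop C
  filter_upwards [h, eventually_gt_atTop 0] with x hx hx0
  have e : x ^ b = x ^ (b - a) * x ^ a := by rw [← Real.rpow_add hx0]; ring_nf
  rw [e]
  exact mul_le_mul_of_nonneg_right hx (Real.rpow_nonneg hx0.le _)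

lemma ev_exp {θ κ : ℝ} (hθ : 0 < θ) (hκ : 0 < κ) (C : ℝ) (s : ℝ) :
    ∀ᶠ x : ℝ in atTop, C * Real.exp (-κ * x ^ θ) ≤ x ^ (-s) := by
  have h1 : ∀ᶠ y : ℝ in atTop, |C| * y ^ (s / θ) ≤ Real.exp (κ * y) := by
    have h := isLittleO_rpow_exp_pos_mul_atTop (s / θ) hκ
    have h' := h.bound (c := 1 / (|C| + 1)) (by positivity)
    filter_upwards [h', eventually_gt_atTop 0] with y hy hy0
    rw [Real.norm_of_nonneg (Real.rpow_nonneg hy0.le _), Real.norm_of_nonneg (Real.exp_pos _).le] at hy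
    have h0 := abs_nonneg C
    have h2 : (|C| + 1) * y ^ (s / θ) ≤ Real.exp (κ * y) := by
      rw [div_mul_eq_mul_div, one_mul, le_div_iff₀ (by positivity)] at hy
      linarith
    have h3 : 0 ≤ y ^ (s / θ) := Real.rpow_nonneg hy0.le _
    nlinarith
  have h2 := (tendsto_rpow_atTop hθ).eventually h1
  filter_upwards [h2, eventually_gt_atTop 0] with x hx hx0
  rw [← Real.rpow_mul hx0.le, mul_div_cancel₀ _ hθ.ne'] at hx
  have hxs : 0 < x ^ s := Real.rpow_pos_of_pos hx0 _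
  have hE : 0 < Real.exp (κ * x ^ θ) := Real.exp_pos _
  rw [Real.rpow_neg hx0.le, neg_mul, Real.exp_neg, ← div_eq_mul_inv, div_le_iff₀ hE,
    ← div_eq_inv_mul, le_div_iff₀ hxs]
  have := le_abs_self C
  nlinarith

/-- the decay of the error terms -/
lemma ev_exp2 {θ θ' κ : ℝ} (hθ : 0 < θ) (hθ' : θ' < θ) (hκ : 0 < κ) (C C₂ : ℝ) (s : ℝ) (hC : 0 ≤ C) :
    ∀ᶠ x : ℝ in atTop, C * Real.exp (C₂ * x ^ θ') * Real.exp (-κ * x ^ θ) ≤ x ^ (-s) := by
  have h1 := ev_rpow hθ' (2 * C₂ / κ)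
  have h2 := ev_exp hθ (half_pos hκ) C s
  filter_upwards [h1, h2] with x h1 h2
  refine le_trans ?_ h2
  rw [mul_assoc, ← Real.exp_add]
  apply mul_le_mul_of_nonneg_left _ hC
  apply Real.exp_le_exp.2
  have h3 : C₂ * x ^ θ' ≤ κ / 2 * x ^ θ := by
    have := mul_le_mul_of_nonneg_left h1 (half_pos hκ).le
    have e : κ / 2 * (2 * C₂ / κ * x ^ θ') = C₂ * x ^ θ' := by field_simp
    linarith
  linarith

lemma summable_exp {θ κ : ℝ} (hθ : 0 < θ) (hκ : 0 < κ) :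
    Summable fun t : ℕ => Real.exp (-κ * (t : ℝ) ^ θ) := by
  have h1 := tendsto_natCast_atTop_atTop.eventually (ev_exp hθ hκ 1 2)
  refine Summable.of_norm_bounded_eventually_nat (g := fun t : ℕ => (t : ℝ) ^ (-2 : ℝ))
    (Real.summable_nat_rpow.2 (by norm_num)) ?_
  filter_upwards [h1] with t ht
  rw [Real.norm_of_nonneg (Real.exp_pos _).le]
  linarith

end Pool.Agent.MixR
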