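import Pool.Agent.MixR.PairBlock
import Pool.Agent.MixR.Num

/-!
# One window, exponential mixing
-/

open Set Filter Topology MeasureTheory
open scoped ENNReal NNReal Real

namespace Pool.Agent.MixR

open Pool.Agent.H29E Pool.Agent.MP_e27144_an

/-- base points of the pieces -/
lemma exists_base {ε X₀ Y : ℝ} {L D N M : ℕ} {f : ℝ → ℕ → ℕ × ℕ}
    (h : Good ε X₀ Y L f (M * D)) (hN : N * L ≤ D) (h3 : (3 : ℝ) ^ (M * D) ≤ Y) :
    ∃ al : ℕ → ℕ, (∀ i < M, ∀ p ∈ piece f Y D L N i, al i ≤ p.1 ∧ i * D ≤ p.2 ∧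
      (sv p : ℝ) ≤ 4 * 3 ^ (N * L) * sv (al i, i * D)) ∧
      ∀ i < M, ∀ i' < M, i < i' → al i' + D ≤ al i := by
  have hex : ∀ i : ℕ, ∃ a : ℕ, i < M → (2 : ℝ) ^ a * 3 ^ (i * D + N * L) ≤ Y ∧
      Y < 2 ^ (a + 1) * 3 ^ (i * D + N * L) := by
    intro i
    by_cases hi : i < M
    · have h4 : (3 : ℝ) ^ (i * D + N * L) ≤ Y := by
        refine le_trans (pow_le_pow_right₀ (by norm_num) ?_) h3
        have h5 : (i + 1) * D ≤ M * D := Nat.mul_le_mul_right D hi
        have h6 : (i + 1) * D = i * D + D := by ring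
        omega
      have hp : (0 : ℝ) < 3 ^ (i * D + N * L) := by positivity
      have h5 : 1 ≤ Y / 3 ^ (i * D + N * L) := by rwa [one_le_div hp]
      obtain ⟨a, ha1, ha2⟩ := exists_nat_pow_near (x := Y / 3 ^ (i * D + N * L)) (y := (2 : ℝ)) h5
        (by norm_num)
      refine ⟨a, fun _ => ⟨?_, ?_⟩⟩
      · rwa [le_div_iff₀ hp] at ha1
      · rwa [div_lt_iff₀ hp] at ha2
    · exact ⟨0, fun h => absurd h hi⟩
  choose al hal using hex
  refine ⟨al, ?_, ?_⟩
  · intro i hi p hp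
    obtain ⟨j, hj, rfl⟩ := mem_piece.1 hp
    have hle : i * D + j * L ≤ M * D := pos_le hi hj hN
    have h4 := h.le _ hle
    have h5 := h.lt _ hle
    have h6 := h.lb _ hle
    have h7 := h.ub _ hle
    have h8 := hal i hi
    set q := f Y (i * D + j * L) with hq
    have h9 : (j + 1) * L ≤ N * L := Nat.mul_le_mul_right L hj
    have h10 : (j + 1) * L = j * L + L := by ring
    have h11 : q.2 ≤ i * D + N * L := by omega
    refine ⟨?_, by omega, ?_⟩
    · have h12 : (2 : ℝ) ^ (al i) * 3 ^ (i * D + N * L) ≤ 2 ^ q.1 * 3 ^ (i * D + N * L) := by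
        refine h8.1.trans (h6.trans ?_)
        unfold sv
        push_cast
        apply mul_le_mul_of_nonneg_left _ (by positivity)
        exact pow_le_pow_right₀ (by norm_num) h11
      have h13 : (2 : ℝ) ^ (al i) ≤ 2 ^ q.1 := le_of_mul_le_mul_right h12 (by positivity)
      exact (pow_le_pow_iff_right₀ (by norm_num)).1 h13
    · have h14 := h.one
      have h15 := h.pos
      have e : (4 : ℝ) * 3 ^ (N * L) * sv (al i, i * D)
          = 2 * (2 ^ (al i + 1) * 3 ^ (i * D + N * L)) := by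
        unfold sv
        push_cast
        rw [pow_add 3, pow_succ]
        ring
      rw [e]
      have : (1 + ε) * Y ≤ 2 * Y := by nlinarith
      linarith [h8.2]
  · intro i hi i' hi' hii
    have h8 := (hal i hi).2
    have h9 := (hal i' hi').1
    have h10 : (2 : ℝ) ^ (al i') * (3 ^ D * 3 ^ (i * D + N * L)) ≤ 2 ^ al i' * 3 ^ (i' * D + N * L) := by
      apply mul_le_mul_of_nonneg_left _ (by positivity)
      rw [← pow_add]
      apply pow_le_pow_right₀ (by norm_num)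
      have h5 : (i + 1) * D ≤ i' * D := Nat.mul_le_mul_right D hii
      have h6 : (i + 1) * D = i * D + D := by ring
      omega
    have h11 : (2 : ℝ) ^ D ≤ 3 ^ D := pow_le_pow_left₀ (by norm_num) (by norm_num) D
    have hp : (0 : ℝ) < 3 ^ (i * D + N * L) := by positivity
    have h12 : (2 : ℝ) ^ (al i' + D) * 3 ^ (i * D + N * L) < 2 ^ (al i + 1) * 3 ^ (i * D + N * L) := by
      calc (2 : ℝ) ^ (al i' + D) * 3 ^ (i * D + N * L)
          = 2 ^ (al i') * (2 ^ D * 3 ^ (i * D + N * L)) := by rw [pow_add]; ring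
        _ ≤ 2 ^ (al i') * (3 ^ D * 3 ^ (i * D + N * L)) := by gcongr
        _ ≤ 2 ^ al i' * 3 ^ (i' * D + N * L) := h10
        _ ≤ Y := h9
        _ < 2 ^ (al i + 1) * 3 ^ (i * D + N * L) := h8
    have h13 := lt_of_mul_lt_mul_right h12 hp.le
    have h14 := (pow_lt_pow_iff_right₀ (by norm_num : (1 : ℝ) < 2)).1 h13
    omega

variable {μ : Measure (AddCircle (1 : ℝ))} [IsProbabilityMeasure μ]

theorem exp_window
    (h2 : MeasurePreserving (fun x : AddCircle (1 : ℝ) => (2 : ℕ) • x) μ μ)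
    (h3 : MeasurePreserving (fun x : AddCircle (1 : ℝ) => (3 : ℕ) • x) μ μ)
    {m : ℤ} {c : ℂ} (hc : cf μ m = c) {r : ℕ} (hr : 2 ≤ r) {θ κ C : ℝ} {A : ℕ} (hθ : 0 < θ)
    (hκ : 0 < κ) (hC : 0 ≤ C)
    (hmix : ∀ (g : ℕ) (F : Finset (ℕ × ℕ)) (u : ℕ × ℕ → ℤ), F.card ≤ r → Sep g F →
      ‖cf μ (∑ p ∈ F, u p * (sv p : ℤ)) - ∏ p ∈ F, cf μ (u p)‖
        ≤ C * (∏ p ∈ F, (1 + |(u p : ℝ)|)) ^ A * Real.exp (-κ * (g : ℝ) ^ θ))
    {ε X₀ Y : ℝ} {L D N M : ℕ} {f : ℝ → ℕ → ℕ × ℕ} (hG : Good ε X₀ Y L f (M * D))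
    (hN : N * L ≤ D) (hN0 : 0 < N) (hD : 0 < D) (hY3 : (3 : ℝ) ^ (M * D) ≤ Y)
    (I : Finset (Fin M)) (hI : I.card = r) :
    ∫ x, ∏ i : I, ‖avP m (piece f Y D L N (i : Fin M)) x - c‖ ^ 2 ∂μ
      ≤ ((2 * ∑' t : ℕ, (2 + C * ((1 + |(m : ℝ)|) ^ 2) ^ A) * Real.exp (-κ * (t : ℝ) ^ θ)) / N) ^ r
        + 4 ^ r * (C * ((1 + |(m : ℝ)| * (4 * 3 ^ (N * L))) ^ r) ^ A
          * Real.exp (-κ * (D : ℝ) ^ θ)) := by
  classical
  obtain ⟨al, hal, hsep⟩ := exists_base hG hN hY3
  set C₁ : ℝ := 2 + C * ((1 + |(m : ℝ)|) ^ 2) ^ A with hC₁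
  have hC₁' : 2 ≤ C₁ := by
    have : 0 ≤ C * ((1 + |(m : ℝ)|) ^ 2) ^ A := by positivity
    linarith
  set ρ₀ : ℕ → ℝ := fun t => C₁ * Real.exp (-κ * (t : ℝ) ^ θ) with hρ₀
  have hρ0 : ∀ t, 0 ≤ ρ₀ t := fun t => by simp only [hρ₀]; positivity
  have hρs : Summable ρ₀ := (summable_exp hθ hκ).mul_left _
  set U : ℝ := 4 * 3 ^ (N * L) with hU
  set err : ℝ := C * ((1 + |(m : ℝ)| * U) ^ r) ^ A * Real.exp (-κ * (D : ℝ) ^ θ) with herr
  have herr0 : 0 ≤ err := by positivity
  have hcn : ‖c‖ ≤ 1 := by rw [← hc]; exact norm_cf_le m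
  have hcard : ∀ i : I, (piece f Y D L N (i : Fin M)).card = N := fun i =>
    hG.card_piece le_rfl hN i.1.2
  have hιcard : Fintype.card I = r := by rw [Fintype.card_coe, hI]
  have hmom := moment (μ := μ) (m := m) (c := c) (fun i : I => piece f Y D L N (i : Fin M))
    (fun i => by rw [hcard i]; exact hN0) (fun p q => ρ₀ ((p.2 : ℤ) - q.2).natAbs)
    (τ := 4 ^ r * err) (R := 2 * ∑' t, ρ₀ t) (fun p q => hρ0 _) ?_ ?_
  · refine hmom.trans (le_of_eq ?_)
    congr 1
    rw [Finset.prod_congr rfl (fun i _ => by rw [hcard i]), Finset.prod_const, Finset.card_univ,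
      hιcard]
  · -- individual terms
    intro φ hφ
    set b : I → ℕ × ℕ := fun i => (al (i : Fin M), (i : Fin M) * D) with hb
    have hbinj : Function.Injective b := by
      intro i i' he
      have h4 : ((i : Fin M) : ℕ) * D = ((i' : Fin M) : ℕ) * D := congrArg Prod.snd he
      have h5 := Nat.eq_of_mul_eq_mul_right hD h4
      exact Subtype.ext (Fin.ext h5)
    have hbsep : Sep D (Finset.univ.image b) := by
      intro x hx y hy hxy
      obtain ⟨i, -, rfl⟩ := Finset.mem_image.1 hx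
      obtain ⟨i', -, rfl⟩ := Finset.mem_image.1 hy
      have hne : ((i : Fin M) : ℕ) ≠ ((i' : Fin M) : ℕ) := by
        intro h; exact hxy (by rw [Subtype.ext (Fin.ext h)])
      have key : ∀ s t : ℕ, s < t → s * D + D ≤ t * D := by
        intro s t hst
        have h5 : (s + 1) * D ≤ t * D := Nat.mul_le_mul_right D hst
        have h6 : (s + 1) * D = s * D + D := by ring
        omega
      rcases lt_or_gt_of_ne hne with h | h
      · right
        exact ⟨hsep _ i.1.2 _ i'.1.2 h, key _ _ h⟩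
      · left
        exact ⟨hsep _ i'.1.2 _ i.1.2 h, key _ _ h⟩
    have hmix' : ∀ u : I → ℤ, (∀ i, |(u i : ℝ)| ≤ |(m : ℝ)| * U) →
        ‖cf μ (∑ i, u i * (sv (b i) : ℤ)) - ∏ i, cf μ (u i)‖ ≤ err := by
      intro u hu
      obtain ⟨u', hu'⟩ := idx (Finset.univ : Finset I) b hbinj.injOn u
      have h4 := hmix D (Finset.univ.image b) u' (by
        rw [Finset.card_image_of_injective _ hbinj, Finset.card_univ, hιcard]) hbsep
      rw [Finset.sum_image (fun _ _ _ _ h => hbinj h), Finset.prod_image (fun _ _ _ _ h => hbinj h),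
        Finset.prod_image (fun _ _ _ _ h => hbinj h)] at h4
      rw [Finset.sum_congr rfl (fun i hi => by rw [hu' i hi]),
        Finset.prod_congr rfl (fun i hi => by rw [hu' i hi]),
        Finset.prod_congr (f := fun i => (1 + |(u' (b i) : ℝ)|)) rfl
          (fun i hi => by rw [hu' i hi])] at h4
      refine h4.trans ?_
      rw [herr]
      apply mul_le_mul_of_nonneg_right _ (Real.exp_pos _).le
      apply mul_le_mul_of_nonneg_left _ hC
      apply pow_le_pow_left₀ (Finset.prod_nonneg fun i _ => by positivity)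
      calc ∏ i : I, (1 + |(u i : ℝ)|) ≤ ∏ _i : I, (1 + |(m : ℝ)| * U) :=
            Finset.prod_le_prod (fun i _ => by positivity) (fun i _ => by linarith [hu i])
        _ = (1 + |(m : ℝ)| * U) ^ r := by rw [Finset.prod_const, Finset.card_univ, hιcard]
    have hPB := pair_block h2 h3 hc (fun i : I => (φ i).1) (fun i : I => (φ i).2) b
      (fun i => ⟨(hal _ i.1.2 _ (hφ i).1).1, (hal _ i.1.2 _ (hφ i).1).2.1⟩)
      (fun i => ⟨(hal _ i.1.2 _ (hφ i).2).1, (hal _ i.1.2 _ (hφ i).2).2.1⟩)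
      (U := U) (fun i => ⟨(hal _ i.1.2 _ (hφ i).1).2.2, (hal _ i.1.2 _ (hφ i).2).2.2⟩) herr0 hmix'
    rw [hιcard] at hPB
    have htwo : ∀ i : I, ‖cf μ (m * ((sv (φ i).1 : ℤ) - sv (φ i).2)) - c * (starRingEnd ℂ) c‖
        ≤ ρ₀ (((φ i).1.2 : ℤ) - (φ i).2.2).natAbs := by
      intro i
      have hw1 := hG.piece_window hN i.1.2 (hφ i).1
      have hw2 := hG.piece_window hN i.1.2 (hφ i).2
      set p := (φ i).1 with hp
      set q := (φ i).2 with hq
      by_cases hpq : p = q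
      · rw [hpq, sub_self, mul_zero, cf_zero]
        simp only [sub_self, Int.natAbs_zero, hρ₀, Nat.cast_zero, Real.zero_rpow hθ.ne', mul_zero,
          Real.exp_zero, mul_one]
        refine le_trans ?_ hC₁'
        refine (norm_sub_le _ _).trans ?_
        rw [norm_one, norm_mul, RCLike.norm_conj]
        have := norm_nonneg c
        nlinarith
      · have h4 := hmix ((p.2 : ℤ) - q.2).natAbs {p, q} (fun x => if x = p then m else -m)
          ((Finset.card_le_two).trans hr) (sep_pair hG.one hG.pos hw1 hw2)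
        rw [Finset.sum_pair hpq, Finset.prod_pair hpq, Finset.prod_pair hpq] at h4
        simp only [if_true, if_neg (Ne.symm hpq)] at h4
        have e1 : m * (sv p : ℤ) + -m * (sv q : ℤ) = m * ((sv p : ℤ) - sv q) := by ring
        rw [e1, cf_neg, hc] at h4
        refine h4.trans ?_
        simp only [hρ₀]
        apply mul_le_mul_of_nonneg_right _ (Real.exp_pos _).le
        rw [hC₁]
        push_cast
        rw [abs_neg, ← sq]
        linarith
    have hfin : ‖∫ x, ∏ i : I, (hh m c (φ i).1 x * (starRingEnd ℂ) (hh m c (φ i).2 x)) ∂μ‖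
        ≤ ‖∏ i : I, (cf μ (m * ((sv (φ i).1 : ℤ) - sv (φ i).2)) - c * (starRingEnd ℂ) c)‖
          + 4 ^ r * err := by
      have := norm_sub_norm_le (∫ x, ∏ i : I, (hh m c (φ i).1 x *
        (starRingEnd ℂ) (hh m c (φ i).2 x)) ∂μ)
        (∏ i : I, (cf μ (m * ((sv (φ i).1 : ℤ) - sv (φ i).2)) - c * (starRingEnd ℂ) c))
      linarith
    refine hfin.trans (add_le_add ?_ le_rfl)
    rw [norm_prod]
    exact Finset.prod_le_prod (fun i _ => norm_nonneg _) (fun i _ => htwo i)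
  · -- rows
    intro i
    have hinj := hG.piece_snd_inj le_rfl hN i.1.2
    calc ∑ p ∈ piece f Y D L N (i : Fin M), ∑ q ∈ piece f Y D L N (i : Fin M),
          ρ₀ ((p.2 : ℤ) - q.2).natAbs
        ≤ ∑ _p ∈ piece f Y D L N (i : Fin M), 2 * ∑' t, ρ₀ t := by
          apply Finset.sum_le_sum
          intro p _
          have h4 := row_sum hρ0 hρs ((piece f Y D L N (i : Fin M)).image Prod.snd) p.2
          rw [Finset.sum_image (fun _ h _ h' he => hinj (Finset.mem_coe.1 h) (Finset.mem_coe.1 h') he)] at h4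
          exact h4
      _ = _ := by rw [Finset.sum_const, nsmul_eq_mul, mul_comm]

end Pool.Agent.MixR
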