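import Pool.Agent.MixR.Basic

/-!
# Moments of products of averages
-/

open Set Filter Topology MeasureTheory
open scoped ENNReal NNReal Real

namespace Pool.Agent.MixR

open Pool.Agent.H29E Pool.Agent.MP_e27144_an

/-- Fourier coefficients -/
noncomputable def cf (μ : Measure (AddCircle (1 : ℝ))) (n : ℤ) : ℂ := ∫ x, fourier n x ∂μ

/-- the centred character at `2 ^ a * 3 ^ b` -/
noncomputable def hh (m : ℤ) (c : ℂ) (p : ℕ × ℕ) (x : AddCircle (1 : ℝ)) : ℂ :=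
  fourier (m * (sv p : ℤ)) x - c

lemma continuous_hh (m : ℤ) (c : ℂ) (p : ℕ × ℕ) : Continuous (hh m c p) := by
  unfold hh
  exact (fourier _).continuous.sub continuous_const

lemma integrable_of_cont {μ : Measure (AddCircle (1 : ℝ))} [IsProbabilityMeasure μ]
    {f : AddCircle (1 : ℝ) → ℂ} (hf : Continuous f) : Integrable f μ :=
  hf.integrable_of_hasCompactSupport (HasCompactSupport.of_compactSpace _)

lemma integrable_of_cont' {μ : Measure (AddCircle (1 : ℝ))} [IsProbabilityMeasure μ]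
    {f : AddCircle (1 : ℝ) → ℝ} (hf : Continuous f) : Integrable f μ :=
  hf.integrable_of_hasCompactSupport (HasCompactSupport.of_compactSpace _)

lemma prod_fourier {ι : Type*} (s : Finset ι) (v : ι → ℤ) (x : AddCircle (1 : ℝ)) :
    ∏ i ∈ s, fourier (v i) x = fourier (∑ i ∈ s, v i) x := by
  classical
  induction s using Finset.induction_on with
  | empty => simp
  | insert a s ha ih =>
    rw [Finset.prod_insert ha, Finset.sum_insert ha, ih, fourier_add]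

/-- Almost independence of products of trigonometric polynomials. -/
theorem block {ι κ : Type*} [Fintype ι] [DecidableEq ι] {μ : Measure (AddCircle (1 : ℝ))}
    [IsProbabilityMeasure μ] (J : Finset κ) (w : ι → κ → ℂ) (v : ι → κ → ℤ) (z : ι → κ → ℂ)
    {W err : ℝ} (herr : 0 ≤ err)
    (hz : ∀ ψ : ι → κ, (∀ i, ψ i ∈ J) → ‖cf μ (∑ i, v i (ψ i)) - ∏ i, z i (ψ i)‖ ≤ err)
    (hW : ∀ i, ∑ j ∈ J, ‖w i j‖ ≤ W) :
    ‖∫ x, ∏ i, ∑ j ∈ J, w i j * fourier (v i j) x ∂μ - ∏ i, ∑ j ∈ J, w i j * z i j‖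
      ≤ W ^ (Fintype.card ι) * err := by
  have e1 : ∀ x : AddCircle (1 : ℝ), ∏ i, ∑ j ∈ J, w i j * fourier (v i j) x
      = ∑ ψ ∈ Fintype.piFinset (fun _ : ι => J),
        (∏ i, w i (ψ i)) * fourier (∑ i, v i (ψ i)) x := by
    intro x
    rw [Finset.prod_univ_sum]
    apply Finset.sum_congr rfl
    intro ψ _
    rw [Finset.prod_mul_distrib, prod_fourier]
  have e2 : ∏ i, ∑ j ∈ J, w i j * z i j
      = ∑ ψ ∈ Fintype.piFinset (fun _ : ι => J), (∏ i, w i (ψ i)) * ∏ i, z i (ψ i) := by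
    rw [Finset.prod_univ_sum]
    apply Finset.sum_congr rfl
    intro ψ _
    rw [Finset.prod_mul_distrib]
  simp_rw [e1]
  rw [e2, integral_finsetSum _ (fun ψ _ => (integrable_of_cont (fourier _).continuous).const_mul _),
    ← Finset.sum_sub_distrib]
  refine (norm_sum_le _ _).trans ?_
  have e3 : ∀ ψ ∈ Fintype.piFinset (fun _ : ι => J),
      ‖∫ x, (∏ i, w i (ψ i)) * fourier (∑ i, v i (ψ i)) x ∂μ
        - (∏ i, w i (ψ i)) * ∏ i, z i (ψ i)‖ ≤ (∏ i, ‖w i (ψ i)‖) * err := by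
    intro ψ hψ
    rw [integral_const_mul, ← mul_sub, norm_mul, norm_prod]
    apply mul_le_mul_of_nonneg_left _ (Finset.prod_nonneg fun i _ => norm_nonneg _)
    exact hz ψ (fun i => Fintype.mem_piFinset.1 hψ i)
  refine (Finset.sum_le_sum e3).trans ?_
  have e5 : ∑ ψ ∈ Fintype.piFinset (fun _ : ι => J), ∏ i, ‖w i (ψ i)‖
      = ∏ i, ∑ j ∈ J, ‖w i j‖ := by
    rw [Finset.prod_univ_sum (fun _ : ι => J) (fun i j => ‖w i j‖)]
  rw [← Finset.sum_mul, e5]
  apply mul_le_mul_of_nonneg_right _ herr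
  calc ∏ i, ∑ j ∈ J, ‖w i j‖ ≤ ∏ _i : ι, W :=
        Finset.prod_le_prod (fun i _ => Finset.sum_nonneg fun j _ => norm_nonneg _) (fun i _ => hW i)
    _ = W ^ (Fintype.card ι) := by rw [Finset.prod_const, Finset.card_univ]

/-- The moment bound from a bound of the individual terms. -/
theorem moment {ι : Type*} [Fintype ι] [DecidableEq ι] {μ : Measure (AddCircle (1 : ℝ))}
    [IsProbabilityMeasure μ] {m : ℤ} {c : ℂ} (P : ι → Finset (ℕ × ℕ)) (hne : ∀ i, 0 < (P i).card)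
    (ρ : ℕ × ℕ → ℕ × ℕ → ℝ) {τ R : ℝ} (hρ : ∀ p q, 0 ≤ ρ p q)
    (hT : ∀ φ : ι → (ℕ × ℕ) × (ℕ × ℕ), (∀ i, (φ i).1 ∈ P i ∧ (φ i).2 ∈ P i) →
      ‖∫ x, ∏ i, (hh m c (φ i).1 x * (starRingEnd ℂ) (hh m c (φ i).2 x)) ∂μ‖
        ≤ ∏ i, ρ (φ i).1 (φ i).2 + τ)
    (hR : ∀ i, ∑ p ∈ P i, ∑ q ∈ P i, ρ p q ≤ R * (P i).card) :
    ∫ x, ∏ i, ‖avP m (P i) x - c‖ ^ 2 ∂μ ≤ ∏ i, (R / (P i).card) + τ := by
  have hne' : ∀ i, ((P i).card : ℂ) ≠ 0 := fun i => by exact_mod_cast (hne i).ne'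
  have hne'' : ∀ i, (0 : ℝ) < (P i).card := fun i => by exact_mod_cast hne i
  set S := Fintype.piFinset (fun i => P i ×ˢ P i) with hS
  have e0 : ∀ x : AddCircle (1 : ℝ), ∀ i, ((‖avP m (P i) x - c‖ ^ 2 : ℝ) : ℂ)
      = (((P i).card : ℂ) ^ 2)⁻¹ * ∑ pq ∈ P i ×ˢ P i,
        (hh m c pq.1 x * (starRingEnd ℂ) (hh m c pq.2 x)) := by
    intro x i
    have e : avP m (P i) x - c = (∑ p ∈ P i, hh m c p x) / ((P i).card : ℂ) := by
      unfold avP hh
      rw [Finset.sum_sub_distrib, Finset.sum_const, nsmul_eq_mul, sub_div,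
        mul_div_cancel_left₀ _ (hne' i)]
    rw [e, Finset.sum_product]
    have e' : ((‖(∑ p ∈ P i, hh m c p x) / ((P i).card : ℂ)‖ ^ 2 : ℝ) : ℂ)
        = ((∑ p ∈ P i, hh m c p x) / ((P i).card : ℂ))
          * (starRingEnd ℂ) ((∑ p ∈ P i, hh m c p x) / ((P i).card : ℂ)) := by
      rw [Complex.mul_conj, Complex.normSq_eq_norm_sq]
    rw [e', map_div₀, Complex.conj_natCast, map_sum, div_mul_div_comm, Finset.sum_mul_sum]
    rw [div_eq_inv_mul, sq]
  have e1 : ∀ x : AddCircle (1 : ℝ), ((∏ i, ‖avP m (P i) x - c‖ ^ 2 : ℝ) : ℂ)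
      = (∏ i, (((P i).card : ℂ) ^ 2)⁻¹) * ∑ φ ∈ S,
        ∏ i, (hh m c (φ i).1 x * (starRingEnd ℂ) (hh m c (φ i).2 x)) := by
    intro x
    rw [Complex.ofReal_prod]
    simp_rw [e0 x]
    rw [Finset.prod_mul_distrib, Finset.prod_univ_sum]
  have hcont : ∀ φ : ι → (ℕ × ℕ) × (ℕ × ℕ), Continuous fun x =>
      ∏ i, (hh m c (φ i).1 x * (starRingEnd ℂ) (hh m c (φ i).2 x)) := by
    intro φ
    exact continuous_finsetProd _ fun i _ => (continuous_hh m c _).mul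
      (Complex.continuous_conj.comp (continuous_hh m c _))
  have e2 : ((∫ x, ∏ i, ‖avP m (P i) x - c‖ ^ 2 ∂μ : ℝ) : ℂ)
      = (∏ i, (((P i).card : ℂ) ^ 2)⁻¹) * ∑ φ ∈ S,
        ∫ x, ∏ i, (hh m c (φ i).1 x * (starRingEnd ℂ) (hh m c (φ i).2 x)) ∂μ := by
    rw [← integral_complex_ofReal]
    simp_rw [e1]
    rw [integral_const_mul, integral_finsetSum _ (fun φ _ => integrable_of_cont (hcont φ))]
  have h0 : (0 : ℝ) ≤ ∫ x, ∏ i, ‖avP m (P i) x - c‖ ^ 2 ∂μ :=
    integral_nonneg fun x => Finset.prod_nonneg fun i _ => by positivity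
  have e3 : ∫ x, ∏ i, ‖avP m (P i) x - c‖ ^ 2 ∂μ
      = ‖((∫ x, ∏ i, ‖avP m (P i) x - c‖ ^ 2 ∂μ : ℝ) : ℂ)‖ := by
    rw [Complex.norm_real, Real.norm_of_nonneg h0]
  rw [e3, e2, norm_mul, norm_prod]
  have e4 : ∀ i, ‖(((P i).card : ℂ) ^ 2)⁻¹‖ = (((P i).card : ℝ) ^ 2)⁻¹ := by
    intro i
    rw [norm_inv, norm_pow, Complex.norm_natCast]
  simp_rw [e4]
  have e5 : ‖∑ φ ∈ S, ∫ x, ∏ i, (hh m c (φ i).1 x * (starRingEnd ℂ) (hh m c (φ i).2 x)) ∂μ‖
      ≤ ∏ i, (R * ((P i).card : ℝ)) + (∏ i, ((P i).card : ℝ) ^ 2) * τ := by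
    refine (norm_sum_le _ _).trans ?_
    have e6 : ∀ φ ∈ S, ‖∫ x, ∏ i, (hh m c (φ i).1 x * (starRingEnd ℂ) (hh m c (φ i).2 x)) ∂μ‖
        ≤ ∏ i, ρ (φ i).1 (φ i).2 + τ := by
      intro φ hφ
      apply hT
      intro i
      have := Fintype.mem_piFinset.1 hφ i
      exact Finset.mem_product.1 this
    refine (Finset.sum_le_sum e6).trans ?_
    have hcard : (S.card : ℝ) = ∏ i, ((P i).card : ℝ) ^ 2 := by
      rw [hS, Fintype.card_piFinset, Nat.cast_prod]
      apply Finset.prod_congr rfl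
      intro i _
      rw [Finset.card_product, Nat.cast_mul, sq]
    rw [Finset.sum_add_distrib, Finset.sum_const, nsmul_eq_mul, hcard]
    apply add_le_add _ le_rfl
    · have e7 : ∑ φ ∈ S, ∏ i, ρ (φ i).1 (φ i).2 = ∏ i, ∑ pq ∈ P i ×ˢ P i, ρ pq.1 pq.2 := by
        rw [hS, Finset.prod_univ_sum (fun i => P i ×ˢ P i) (fun i pq => ρ pq.1 pq.2)]
      rw [e7]
      apply Finset.prod_le_prod
      · intro i _
        exact Finset.sum_nonneg fun pq _ => hρ _ _
      · intro i _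
        rw [Finset.sum_product]
        exact hR i
  have hpos : (0 : ℝ) < ∏ i, (((P i).card : ℝ) ^ 2)⁻¹ :=
    Finset.prod_pos fun i _ => inv_pos.2 (pow_pos (hne'' i) 2)
  refine (mul_le_mul_of_nonneg_left e5 hpos.le).trans (le_of_eq ?_)
  rw [mul_add, ← mul_assoc, ← Finset.prod_mul_distrib, ← Finset.prod_mul_distrib]
  congr 1
  · apply Finset.prod_congr rfl
    intro i _
    have := (hne'' i).ne'
    field_simp
  · have : ∏ i, ((((P i).card : ℝ) ^ 2)⁻¹ * ((P i).card : ℝ) ^ 2) = 1 := by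
      apply Finset.prod_eq_one
      intro i _
      have := (hne'' i).ne'
      field_simp
    rw [this, one_mul]

/-- the measure of the bad set from the moment bounds -/
theorem bad_le {μ : Measure (AddCircle (1 : ℝ))} [IsProbabilityMeasure μ] {m : ℤ} {c : ℂ} {η B : ℝ}
    (hη : 0 < η) {r M : ℕ} {P : Fin M → Finset (ℕ × ℕ)}
    (h : ∀ I : Finset (Fin M), I.card = r → ∫ x, ∏ i : I, ‖avP m (P i) x - c‖ ^ 2 ∂μ ≤ B) :
    μ (Bad m c η r P) ≤ ENNReal.ofReal (2 ^ M * (B / η ^ (2 * r))) := by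
  classical
  have hsub : Bad m c η r P ⊆ ⋃ I ∈ (Finset.univ.filter fun I : Finset (Fin M) => I.card = r),
      {x | ∀ i ∈ I, η < ‖avP m (P i) x - c‖} := by
    rintro x ⟨I, hI, hx⟩
    simp only [mem_iUnion]
    exact ⟨I, by simp [hI], hx⟩
  refine (measure_mono hsub).trans ((measure_biUnion_finset_le _ _).trans ?_)
  have hone : ∀ I ∈ (Finset.univ.filter fun I : Finset (Fin M) => I.card = r),
      μ {x | ∀ i ∈ I, η < ‖avP m (P i) x - c‖} ≤ ENNReal.ofReal (B / η ^ (2 * r)) := by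
    intro I hI
    have hI' : I.card = r := (Finset.mem_filter.1 hI).2
    have hc : Continuous fun x => ∏ i : I, ‖avP m (P i) x - c‖ ^ 2 :=
      continuous_finsetProd _ fun i _ => ((continuous_avP m _).sub continuous_const).norm.pow 2
    have h1 := mul_meas_ge_le_integral_of_nonneg (μ := μ)
      (f := fun x => ∏ i : I, ‖avP m (P i) x - c‖ ^ 2)
      (Eventually.of_forall fun x => Finset.prod_nonneg fun i _ => by positivity)
      (integrable_of_cont' hc) (η ^ (2 * r))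
    have h2 : {x | ∀ i ∈ I, η < ‖avP m (P i) x - c‖} ⊆
        {x | η ^ (2 * r) ≤ ∏ i : I, ‖avP m (P i) x - c‖ ^ 2} := by
      intro x hx
      have hx' : ∀ i ∈ I, η < ‖avP m (P i) x - c‖ := hx
      show η ^ (2 * r) ≤ ∏ i : I, ‖avP m (P i) x - c‖ ^ 2
      have e : η ^ (2 * r) = ∏ _i : I, η ^ 2 := by
        rw [Finset.prod_const, Finset.card_univ, Fintype.card_coe, hI', pow_mul]
      rw [e]
      apply Finset.prod_le_prod
      · intro i _; positivity
      · intro i _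
        exact pow_le_pow_left₀ hη.le (hx' i i.2).le 2
    have h3 : μ.real {x | ∀ i ∈ I, η < ‖avP m (P i) x - c‖} ≤ B / η ^ (2 * r) := by
      rw [le_div_iff₀ (by positivity), mul_comm]
      refine le_trans ?_ (h1.trans (h I hI'))
      apply mul_le_mul_of_nonneg_left _ (by positivity)
      exact measureReal_mono h2
    rw [← ENNReal.ofReal_toReal (measure_ne_top μ {x | ∀ i ∈ I, η < ‖avP m (P i) x - c‖})]
    exact ENNReal.ofReal_le_ofReal h3
  refine (Finset.sum_le_sum hone).trans ?_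
  rw [Finset.sum_const, nsmul_eq_mul]
  rcases lt_or_ge (B / η ^ (2 * r)) 0 with hB | hB
  · rw [ENNReal.ofReal_of_nonpos hB.le, mul_zero]
    exact zero_le
  rw [ENNReal.ofReal_mul (by positivity)]
  gcongr
  have h4 : (Finset.univ.filter fun I : Finset (Fin M) => I.card = r).card ≤ 2 ^ M := by
    refine (Finset.card_filter_le _ _).trans ?_
    rw [Finset.card_univ, Fintype.card_finset, Fintype.card_fin]
  calc (((Finset.univ.filter fun I : Finset (Fin M) => I.card = r).card : ℕ) : ℝ≥0∞)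
      ≤ ((2 ^ M : ℕ) : ℝ≥0∞) := by exact_mod_cast h4
    _ = ENNReal.ofReal (2 ^ M) := by
        rw [← ENNReal.ofReal_natCast]; push_cast; rfl

end Pool.Agent.MixR
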