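import Pool.Agent.MixR.PairBlock

/-!
# Moments, general form; products of centred characters at separated points
-/

open Set Filter Topology MeasureTheory
open scoped ENNReal NNReal Real

namespace Pool.Agent.MixR

open Pool.Agent.H29E Pool.Agent.MP_e27144_an

/-- The moment bound from arbitrary bounds of the individual terms. -/
theorem moment_gen {ι : Type*} [Fintype ι] [DecidableEq ι] {μ : Measure (AddCircle (1 : ℝ))}
    [IsProbabilityMeasure μ] {m : ℤ} {c : ℂ} (P : ι → Finset (ℕ × ℕ)) (hne : ∀ i, 0 < (P i).card)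
    (G : (ι → (ℕ × ℕ) × (ℕ × ℕ)) → ℝ)
    (hT : ∀ φ : ι → (ℕ × ℕ) × (ℕ × ℕ), (∀ i, (φ i).1 ∈ P i ∧ (φ i).2 ∈ P i) →
      ‖∫ x, ∏ i, (hh m c (φ i).1 x * (starRingEnd ℂ) (hh m c (φ i).2 x)) ∂μ‖ ≤ G φ) :
    ∫ x, ∏ i, ‖avP m (P i) x - c‖ ^ 2 ∂μ
      ≤ (∏ i, (((P i).card : ℝ) ^ 2)⁻¹) * ∑ φ ∈ Fintype.piFinset (fun i => P i ×ˢ P i), G φ := by
  have hne' : ∀ i, ((P i).card : ℂ) ≠ 0 := fun i => by exact_mod_cast (hne i).ne'
  have hne'' : ∀ i, (0 : ℝ) < (P i).card := fun i => by exact_mod_cast hne i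
  set S := Fintype.piFinset (fun i => P i ×ˢ P i) with hS
  have e0 : ∀ x : AddCircle (1 : ℝ), ∀ i, ((‖avP m (P i) x - c‖ ^ 2 : ℝ) : ℂ)
      = (((P i).card : ℂ) ^ 2)⁻¹ * ∑ pq ∈ P i ×ˢ P i,
        (hh m c pq.1 x * (starRingEnd ℂ) (hh m c pq.2 x)) := by
    intro x i
    have e : avP m (P i) x - c = (∑ p ∈ P i, hh m c p x) / ((P i).card : ℂ) := by
      unfold avP hh
      rw [Finset.sum_sub_distrib, Finset.sum_const, nsmul_eq_mul, sub_div,
        mul_div_cancel_left₀ _ (hne' i)]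
    rw [e, Finset.sum_product]
    have e' : ((‖(∑ p ∈ P i, hh m c p x) / ((P i).card : ℂ)‖ ^ 2 : ℝ) : ℂ)
        = ((∑ p ∈ P i, hh m c p x) / ((P i).card : ℂ))
          * (starRingEnd ℂ) ((∑ p ∈ P i, hh m c p x) / ((P i).card : ℂ)) := by
      rw [Complex.mul_conj, Complex.normSq_eq_norm_sq]
    rw [e', map_div₀, Complex.conj_natCast, map_sum, div_mul_div_comm, Finset.sum_mul_sum]
    rw [div_eq_inv_mul, sq]
  have e1 : ∀ x : AddCircle (1 : ℝ), ((∏ i, ‖avP m (P i) x - c‖ ^ 2 : ℝ) : ℂ)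
      = (∏ i, (((P i).card : ℂ) ^ 2)⁻¹) * ∑ φ ∈ S,
        ∏ i, (hh m c (φ i).1 x * (starRingEnd ℂ) (hh m c (φ i).2 x)) := by
    intro x
    rw [Complex.ofReal_prod]
    simp_rw [e0 x]
    rw [Finset.prod_mul_distrib, Finset.prod_univ_sum]
  have hcont : ∀ φ : ι → (ℕ × ℕ) × (ℕ × ℕ), Continuous fun x =>
      ∏ i, (hh m c (φ i).1 x * (starRingEnd ℂ) (hh m c (φ i).2 x)) := by
    intro φ
    exact continuous_finsetProd _ fun i _ => (continuous_hh m c _).mul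
      (Complex.continuous_conj.comp (continuous_hh m c _))
  have e2 : ((∫ x, ∏ i, ‖avP m (P i) x - c‖ ^ 2 ∂μ : ℝ) : ℂ)
      = (∏ i, (((P i).card : ℂ) ^ 2)⁻¹) * ∑ φ ∈ S,
        ∫ x, ∏ i, (hh m c (φ i).1 x * (starRingEnd ℂ) (hh m c (φ i).2 x)) ∂μ := by
    rw [← integral_complex_ofReal]
    simp_rw [e1]
    rw [integral_const_mul, integral_finsetSum _ (fun φ _ => integrable_of_cont (hcont φ))]
  have h0 : (0 : ℝ) ≤ ∫ x, ∏ i, ‖avP m (P i) x - c‖ ^ 2 ∂μ :=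
    integral_nonneg fun x => Finset.prod_nonneg fun i _ => by positivity
  have e3 : ∫ x, ∏ i, ‖avP m (P i) x - c‖ ^ 2 ∂μ
      = ‖((∫ x, ∏ i, ‖avP m (P i) x - c‖ ^ 2 ∂μ : ℝ) : ℂ)‖ := by
    rw [Complex.norm_real, Real.norm_of_nonneg h0]
  rw [e3, e2, norm_mul, norm_prod]
  have e4 : ∀ i, ‖(((P i).card : ℂ) ^ 2)⁻¹‖ = (((P i).card : ℝ) ^ 2)⁻¹ := by
    intro i
    rw [norm_inv, norm_pow, Complex.norm_natCast]
  simp_rw [e4]
  have hpos : (0 : ℝ) < ∏ i, (((P i).card : ℝ) ^ 2)⁻¹ :=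
    Finset.prod_pos fun i _ => inv_pos.2 (pow_pos (hne'' i) 2)
  apply mul_le_mul_of_nonneg_left _ hpos.le
  refine (norm_sum_le _ _).trans (Finset.sum_le_sum ?_)
  intro φ hφ
  apply hT
  intro i
  exact Finset.mem_product.1 (Fintype.mem_piFinset.1 hφ i)

/-- the sum of a function of one coordinate plus a product -/
lemma sum_pi_add {ι κ : Type*} [Fintype ι] [DecidableEq ι] [DecidableEq κ] (S : ι → Finset κ)
    (a w : κ → ℝ) {n A R : ℝ} (hn : 0 < n)
    (hcard : ∀ i, ((S i).card : ℝ) = n) (ha0 : ∀ x, 0 ≤ a x)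
    (ha : ∀ i, ∑ x ∈ S i, a x ≤ A * n) (hw : ∀ i, ∑ x ∈ S i, w x ≤ R * n) :
    (n ^ (Fintype.card ι))⁻¹ * ∑ φ ∈ Fintype.piFinset S, (∏ i, a (φ i) + ∑ i, w (φ i))
      ≤ A ^ (Fintype.card ι) + Fintype.card ι * R := by
  have hnp : 0 < n ^ (Fintype.card ι) := by positivity
  rw [Finset.sum_add_distrib, mul_add]
  apply add_le_add
  · rw [← Finset.prod_univ_sum S (fun _ x => a x)]
    rw [← div_eq_inv_mul, div_le_iff₀ hnp, ← mul_pow]
    calc ∏ i, ∑ x ∈ S i, a x ≤ ∏ _i : ι, A * n :=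
          Finset.prod_le_prod (fun i _ => Finset.sum_nonneg fun x _ => ha0 x) (fun i _ => ha i)
      _ = (A * n) ^ (Fintype.card ι) := by rw [Finset.prod_const, Finset.card_univ]
  · rw [Finset.sum_comm, ← div_eq_inv_mul, div_le_iff₀ hnp]
    have h1 : ∀ i : ι, ∑ φ ∈ Fintype.piFinset S, w (φ i) ≤ R * n ^ (Fintype.card ι) := by
      intro i
      have e1 : ∀ φ ∈ Fintype.piFinset S, w (φ i) = ∏ j, (if j = i then w (φ j) else 1) := by
        intro φ _
        rw [Finset.prod_ite_eq' Finset.univ i (fun j => w (φ j))]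
        simp
      rw [Finset.sum_congr rfl e1,
        ← Finset.prod_univ_sum S (fun j x => if j = i then w x else 1)]
      rw [← Finset.mul_prod_erase Finset.univ _ (Finset.mem_univ i)]
      have e2 : ∀ j ∈ Finset.univ.erase i, (∑ x ∈ S j, if j = i then w x else (1 : ℝ)) = n := by
        intro j hj
        rw [← hcard j]
        simp [Finset.ne_of_mem_erase hj]
      rw [Finset.prod_congr rfl e2, Finset.prod_const, Finset.card_erase_of_mem (Finset.mem_univ i),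
        Finset.card_univ]
      have hc : 0 < Fintype.card ι := Fintype.card_pos_iff.2 ⟨i⟩
      have e3 : n ^ Fintype.card ι = n * n ^ (Fintype.card ι - 1) := by
        rw [← pow_succ']; congr 1; omega
      rw [e3, ← mul_assoc]
      apply mul_le_mul_of_nonneg_right _ (by positivity)
      simp only [if_true]
      exact hw i
    calc ∑ i : ι, ∑ φ ∈ Fintype.piFinset S, w (φ i)
        ≤ ∑ _i : ι, R * n ^ (Fintype.card ι) := Finset.sum_le_sum fun i _ => h1 i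
      _ = _ := by rw [Finset.sum_const, Finset.card_univ, nsmul_eq_mul]; ring

end Pool.Agent.MixR
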