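import Pool.Agent.MixR.Pieces

/-!
# Invariance, and the factorisation of products of pairs
-/

open Set Filter Topology MeasureTheory
open scoped ENNReal NNReal Real

namespace Pool.Agent.MixR

open Pool.Agent.H29E Pool.Agent.MP_e27144_an

section

variable {μ : Measure (AddCircle (1 : ℝ))} [IsProbabilityMeasure μ]

lemma cf_zero : cf μ 0 = 1 := by
  unfold cf
  simp

lemma norm_cf_le (n : ℤ) : ‖cf μ n‖ ≤ 1 := by
  unfold cf
  have h : ∀ x : AddCircle (1 : ℝ), ‖(fourier n x : ℂ)‖ ≤ 1 := fun x =>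
    (ContinuousMap.norm_coe_le_norm _ _).trans (fourier_norm _).le
  refine (norm_integral_le_of_norm_le_const (Eventually.of_forall h)).trans ?_
  simp

omit [IsProbabilityMeasure μ] in
lemma cf_neg (n : ℤ) : cf μ (-n) = (starRingEnd ℂ) (cf μ n) := by
  unfold cf
  rw [← integral_conj]
  congr 1
  ext x
  rw [fourier_neg]

lemma cf_inv (h2 : MeasurePreserving (fun x : AddCircle (1 : ℝ) => (2 : ℕ) • x) μ μ)
    (h3 : MeasurePreserving (fun x : AddCircle (1 : ℝ) => (3 : ℕ) • x) μ μ) (n : ℤ) (p : ℕ × ℕ) :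
    cf μ (n * (sv p : ℤ)) = cf μ n := by
  unfold cf sv
  have hmp := mp_pow h2 h3 p.1 p.2
  have e1 : ∀ x : AddCircle (1 : ℝ), fourier (n * ((2 ^ p.1 * 3 ^ p.2 : ℕ) : ℤ)) x
      = fourier n ((2 ^ p.1 * 3 ^ p.2 : ℕ) • x) := by
    intro x
    rw [fourier_apply, fourier_apply, mul_smul, natCast_zsmul]
  simp_rw [e1]
  have h5 := integral_map (μ := μ) hmp.measurable.aemeasurable
    (f := fun y : AddCircle (1 : ℝ) => (fourier n y : ℂ))
    (fourier n).continuous.aestronglyMeasurable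
  rw [hmp.map_eq] at h5
  exact h5.symm

/-- products of pairs of centred characters, the pairs having far apart base points -/
theorem pair_block {ι : Type*} [Fintype ι] [DecidableEq ι]
    (h2 : MeasurePreserving (fun x : AddCircle (1 : ℝ) => (2 : ℕ) • x) μ μ)
    (h3 : MeasurePreserving (fun x : AddCircle (1 : ℝ) => (3 : ℕ) • x) μ μ)
    {m : ℤ} {c : ℂ} (hc : cf μ m = c) (p q b : ι → ℕ × ℕ)
    (hbp : ∀ i, (b i).1 ≤ (p i).1 ∧ (b i).2 ≤ (p i).2)
    (hbq : ∀ i, (b i).1 ≤ (q i).1 ∧ (b i).2 ≤ (q i).2) {U : ℝ}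
    (hU : ∀ i, (sv (p i) : ℝ) ≤ U * sv (b i) ∧ (sv (q i) : ℝ) ≤ U * sv (b i)) {err : ℝ}
    (herr : 0 ≤ err)
    (hmix : ∀ u : ι → ℤ, (∀ i, |(u i : ℝ)| ≤ |(m : ℝ)| * U) →
      ‖cf μ (∑ i, u i * (sv (b i) : ℤ)) - ∏ i, cf μ (u i)‖ ≤ err) :
    ‖∫ x, ∏ i, (hh m c (p i) x * (starRingEnd ℂ) (hh m c (q i) x)) ∂μ
      - ∏ i, (cf μ (m * ((sv (p i) : ℤ) - sv (q i))) - c * (starRingEnd ℂ) c)‖
      ≤ 4 ^ (Fintype.card ι) * err := by
  classical
  have hcn : ‖c‖ ≤ 1 := by rw [← hc]; exact norm_cf_le m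
  -- the quotients
  have hp' : ∀ i, (sv (p i) : ℤ) = sv ((p i).1 - (b i).1, (p i).2 - (b i).2) * sv (b i) := by
    intro i
    have h1 := hbp i
    unfold sv
    push_cast
    have e1 : (2 : ℤ) ^ (p i).1 = 2 ^ ((p i).1 - (b i).1) * 2 ^ (b i).1 := by
      rw [← pow_add, Nat.sub_add_cancel h1.1]
    have e2 : (3 : ℤ) ^ (p i).2 = 3 ^ ((p i).2 - (b i).2) * 3 ^ (b i).2 := by
      rw [← pow_add, Nat.sub_add_cancel h1.2]
    rw [e1, e2]; ring
  have hq' : ∀ i, (sv (q i) : ℤ) = sv ((q i).1 - (b i).1, (q i).2 - (b i).2) * sv (b i) := by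
    intro i
    have h1 := hbq i
    unfold sv
    push_cast
    have e1 : (2 : ℤ) ^ (q i).1 = 2 ^ ((q i).1 - (b i).1) * 2 ^ (b i).1 := by
      rw [← pow_add, Nat.sub_add_cancel h1.1]
    have e2 : (3 : ℤ) ^ (q i).2 = 3 ^ ((q i).2 - (b i).2) * 3 ^ (b i).2 := by
      rw [← pow_add, Nat.sub_add_cancel h1.2]
    rw [e1, e2]; ring
  set pp : ι → ℕ := fun i => sv ((p i).1 - (b i).1, (p i).2 - (b i).2) with hpp
  set qq : ι → ℕ := fun i => sv ((q i).1 - (b i).1, (q i).2 - (b i).2) with hqq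
  have hpU : ∀ i, (pp i : ℝ) ≤ U := by
    intro i
    have h1 := (hU i).1
    have h0 : (0 : ℝ) < sv (b i) := by exact_mod_cast sv_pos _
    have e : ((sv (p i) : ℕ) : ℝ) = pp i * sv (b i) := by exact_mod_cast hp' i
    rw [e] at h1
    exact le_of_mul_le_mul_right h1 h0
  have hqU : ∀ i, (qq i : ℝ) ≤ U := by
    intro i
    have h1 := (hU i).2
    have h0 : (0 : ℝ) < sv (b i) := by exact_mod_cast sv_pos _
    have e : ((sv (q i) : ℕ) : ℝ) = qq i * sv (b i) := by exact_mod_cast hq' i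
    rw [e] at h1
    exact le_of_mul_le_mul_right h1 h0
  -- the expansion
  let w : ι → Bool × Bool → ℂ := fun _ s => (if s.1 then 1 else -c) *
    (if s.2 then 1 else -(starRingEnd ℂ) c)
  let u : ι → Bool × Bool → ℤ := fun i s => m * ((if s.1 then (pp i : ℤ) else 0)
    - (if s.2 then (qq i : ℤ) else 0))
  let v : ι → Bool × Bool → ℤ := fun i s => u i s * (sv (b i) : ℤ)
  have hub : ∀ i s, |(u i s : ℝ)| ≤ |(m : ℝ)| * U := by
    intro i s
    have h1 := hpU i
    have h2 := hqU i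
    have h3 : (0 : ℝ) ≤ pp i := Nat.cast_nonneg _
    have h4 : (0 : ℝ) ≤ qq i := Nat.cast_nonneg _
    simp only [u]
    push_cast
    rw [abs_mul]
    apply mul_le_mul_of_nonneg_left _ (abs_nonneg _)
    rw [abs_le]
    rcases s with ⟨s1, s2⟩
    cases s1 <;> cases s2 <;> simp <;> (try constructor) <;> linarith
  have hcount : ∀ a : AddCircle (1 : ℝ), ∀ i, hh m c (p i) a * (starRingEnd ℂ) (hh m c (q i) a)
      = ∑ s ∈ (Finset.univ : Finset (Bool × Bool)), w i s * fourier (v i s) a := by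
    intro a i
    rw [Fintype.sum_prod_type]
    simp only [Fintype.sum_bool, w, v, u, if_true, Bool.false_eq_true, if_false]
    have e1 : (m * ((pp i : ℤ) - (qq i : ℤ)) * (sv (b i) : ℤ)) = m * sv (p i) + -(m * sv (q i)) := by
      rw [hp' i, hq' i]; ring
    have e2 : (m * ((pp i : ℤ) - 0) * (sv (b i) : ℤ)) = m * sv (p i) := by
      rw [hp' i]; ring
    have e3 : (m * (0 - (qq i : ℤ)) * (sv (b i) : ℤ)) = -(m * sv (q i)) := by
      rw [hq' i]; ring
    have e4 : (m * ((0 : ℤ) - 0) * (sv (b i) : ℤ)) = 0 := by ring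
    rw [e1, e2, e3, e4]
    unfold hh
    rw [fourier_add, fourier_neg, fourier_zero, map_sub]
    ring
  have hz : ∀ i, ∑ s ∈ (Finset.univ : Finset (Bool × Bool)), w i s * cf μ (u i s)
      = cf μ (m * ((sv (p i) : ℤ) - sv (q i))) - c * (starRingEnd ℂ) c := by
    intro i
    rw [Fintype.sum_prod_type]
    simp only [Fintype.sum_bool, w, u, if_true, Bool.false_eq_true, if_false]
    have e1 : cf μ (m * ((pp i : ℤ) - (qq i : ℤ))) = cf μ (m * ((sv (p i) : ℤ) - sv (q i))) := by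
      rw [← cf_inv h2 h3 _ (b i)]
      congr 1
      rw [hp' i, hq' i]; ring
    have e2 : cf μ (m * ((pp i : ℤ) - 0)) = c := by
      rw [sub_zero, hpp]
      simp only
      rw [cf_inv h2 h3, hc]
    have e3 : cf μ (m * (0 - (qq i : ℤ))) = (starRingEnd ℂ) c := by
      have : m * (0 - (qq i : ℤ)) = -(m * (qq i : ℤ)) := by ring
      rw [this, cf_neg, hqq]
      simp only
      rw [cf_inv h2 h3, hc]
    have e4 : cf μ (m * ((0 : ℤ) - 0)) = 1 := by
      rw [sub_zero, mul_zero, cf_zero]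
    rw [e1, e2, e3, e4]
    ring
  have hw : ∀ i, ∑ s ∈ (Finset.univ : Finset (Bool × Bool)), ‖w i s‖ ≤ 4 := by
    intro i
    rw [Fintype.sum_prod_type]
    simp only [Fintype.sum_bool, w, if_true, Bool.false_eq_true, if_false, norm_mul, norm_neg,
      norm_one, RCLike.norm_conj]
    have := norm_nonneg c
    nlinarith
  have hb := block (μ := μ) (Finset.univ : Finset (Bool × Bool)) w v (fun i s => cf μ (u i s))
    (W := 4) herr (fun ψ _ => hmix (fun i => u i (ψ i)) (fun i => hub i (ψ i))) hw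
  have e1 : ∀ x : AddCircle (1 : ℝ), ∏ i, (hh m c (p i) x * (starRingEnd ℂ) (hh m c (q i) x))
      = ∏ i, ∑ s ∈ (Finset.univ : Finset (Bool × Bool)), w i s * fourier (v i s) x :=
    fun x => Finset.prod_congr rfl fun i _ => hcount x i
  have e2 : ∏ i, (cf μ (m * ((sv (p i) : ℤ) - sv (q i))) - c * (starRingEnd ℂ) c)
      = ∏ i, ∑ s ∈ (Finset.univ : Finset (Bool × Bool)), w i s * cf μ (u i s) :=
    Finset.prod_congr rfl fun i _ => (hz i).symm
  simp_rw [e1]
  rw [e2]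
  exact hb

/-- a function on the index set of an injective family, moved to the points -/
lemma idx {ι α β : Type*} [DecidableEq ι] [Nonempty β] (A : Finset ι) (pt : ι → α)
    (hinj : Set.InjOn pt A) (e : ι → β) : ∃ e' : α → β, ∀ a ∈ A, e' (pt a) = e a := by
  classical
  refine ⟨fun x => if h : ∃ a ∈ A, pt a = x then e h.choose else Classical.arbitrary β, ?_⟩
  intro a ha
  have h : ∃ a' ∈ A, pt a' = pt a := ⟨a, ha, rfl⟩
  simp only
  rw [dif_pos h]
  congr 1
  exact hinj (Finset.mem_coe.2 h.choose_spec.1) (Finset.mem_coe.2 ha) h.choose_spec.2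

end

end Pool.Agent.MixR
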