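import Pool.Agent.MixR.Moment

/-!
# Choice of elements of a multiplicative window
-/

open Set Filter Topology MeasureTheory
open scoped ENNReal NNReal Real

namespace Pool.Agent.MixR

open Pool.Agent.H29E Pool.Agent.MP_e27144_an

/-- a ratio `3 ^ l / 2 ^ k` slightly larger than one -/
lemma exists_ratio_two {u : ℝ} (hu : 1 < u) :
    ∃ k l : ℕ, 0 < k ∧ (2 : ℝ) ^ k < 3 ^ l ∧ (3 : ℝ) ^ l < u * 2 ^ k := by
  wlog hu2 : u ≤ 2 with H
  · obtain ⟨k, l, hk, h1, h2⟩ := H (u := 2) (by norm_num) le_rfl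
    refine ⟨k, l, hk, h1, h2.trans_le ?_⟩
    have : (0 : ℝ) < 2 ^ k := by positivity
    nlinarith
  rcases exists_ratio hu with h | ⟨k, l, hk, h1, h2⟩
  · exact h
  have h3k : (0 : ℝ) < 3 ^ k := by positivity
  set v : ℝ := 2 ^ l / 3 ^ k with hv
  have hv1 : 1 < v := by rw [hv, one_lt_div h3k]; exact h1
  have hvu : v < u := by rw [hv, div_lt_iff₀ h3k]; exact h2
  have hl2 : 2 ≤ l := by
    by_contra hcon
    push Not at hcon
    have h4 : (2 : ℝ) ^ l ≤ 2 ^ 1 := pow_le_pow_right₀ (by norm_num) (by omega)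
    have h5 : (3 : ℝ) ^ 1 ≤ 3 ^ k := pow_le_pow_right₀ (by norm_num) hk
    linarith
  obtain ⟨N, hN1, hN2⟩ := exists_nat_pow_near (x := (2 : ℝ)) (by norm_num) hv1
  have hN0 : 1 ≤ N := by
    by_contra hcon
    have : N = 0 := by omega
    rw [this, zero_add, pow_one] at hN2
    linarith
  have hlN : 2 ≤ l * N := le_trans hl2 (Nat.le_mul_of_pos_right _ hN0)
  have e1 : (2 : ℝ) ^ (l * N) = 2 * 2 ^ (l * N - 1) := by
    rw [← pow_succ']; congr 1; omega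
  have e2 : v ^ N * 3 ^ (k * N) = 2 * 2 ^ (l * N - 1) := by
    rw [← e1, hv, div_pow, ← pow_mul, ← pow_mul]
    field_simp
  have hvN : 0 < v ^ N := by positivity
  have h3kN : (0 : ℝ) < 3 ^ (k * N) := by positivity
  have h2p : (0 : ℝ) < 2 ^ (l * N - 1) := by positivity
  refine ⟨l * N - 1, k * N, by omega, ?_, ?_⟩
  · have hle : (2 : ℝ) ^ (l * N - 1) ≤ 3 ^ (k * N) := by nlinarith
    rcases hle.lt_or_eq with h | h
    · exact h
    · exfalso
      have h6 : (2 : ℕ) ^ (l * N - 1) = 3 ^ (k * N) := by exact_mod_cast h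
      have h7 : Even ((2 : ℕ) ^ (l * N - 1)) := (Nat.even_pow.2 ⟨even_two, by omega⟩)
      rw [h6] at h7
      have h8 : Odd ((3 : ℕ) ^ (k * N)) := Odd.pow (by decide)
      exact (Nat.not_even_iff_odd.2 h8) h7
  · have h9 : (2 : ℝ) < v ^ N * v := by rw [← pow_succ]; exact hN2
    have h10 : (2 : ℝ) * 3 ^ (k * N) < v * (2 * 2 ^ (l * N - 1)) := by
      rw [← e2]; nlinarith
    nlinarith

/-- For every position `β` the window `[Y, (1 + ε) Y)` contains an element `2 ^ a * 3 ^ b` with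
`β ≤ b < β + L`, as soon as `3 ^ β` is not too large. -/
theorem exists_el {ε : ℝ} (hε : 0 < ε) :
    ∃ (L : ℕ) (X₀ : ℝ) (f : ℝ → ℕ → ℕ × ℕ), 1 ≤ X₀ ∧ 0 < L ∧ ∀ Y β, X₀ * 3 ^ β ≤ Y →
      Y ≤ sv (f Y β) ∧ (sv (f Y β) : ℝ) < (1 + ε) * Y ∧ β ≤ (f Y β).2 ∧ (f Y β).2 < β + L := by
  set u : ℝ := 1 + ε / 2 with hu
  have hu1 : 1 < u := by rw [hu]; linarith
  obtain ⟨k, l, hk, h1, h2⟩ := exists_ratio_two hu1
  obtain ⟨L, X₀, hX₀, hL, h⟩ := exists_between_bdd (p := 2) (q := 3) (by norm_num) (by norm_num) hk h1 h2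
  have key : ∀ (Y : ℝ) (β : ℕ), ∃ p : ℕ × ℕ, X₀ * 3 ^ β ≤ Y →
      Y ≤ sv p ∧ (sv p : ℝ) < (1 + ε) * Y ∧ β ≤ p.2 ∧ p.2 < β + L := by
    intro Y β
    by_cases hY : X₀ * 3 ^ β ≤ Y
    · have h3 : (0 : ℝ) < 3 ^ β := by positivity
      have hYp : 0 < Y := lt_of_lt_of_le (by positivity) hY
      obtain ⟨a, b, hb, hab1, hab2⟩ := h (Y / 3 ^ β * u) (by
        have : X₀ ≤ Y / 3 ^ β := by rw [le_div_iff₀ h3]; exact hY
        have h0 : 0 < Y / 3 ^ β := by positivity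
        nlinarith)
      refine ⟨(a, β + b), fun _ => ⟨?_, ?_, by simp, by simpa using hb⟩⟩
      · have e : ((sv (a, β + b) : ℕ) : ℝ) = 3 ^ β * (2 ^ a * 3 ^ b) := by
          unfold sv; push_cast; rw [pow_add]; ring
        rw [e]
        have h4 : Y / 3 ^ β < 2 ^ a * 3 ^ b := by nlinarith
        rw [div_lt_iff₀ h3] at h4
        linarith
      · have e : ((sv (a, β + b) : ℕ) : ℝ) = 3 ^ β * (2 ^ a * 3 ^ b) := by
          unfold sv; push_cast; rw [pow_add]; ring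
        rw [e]
        have h5 : (3 : ℝ) ^ β * (2 ^ a * 3 ^ b) ≤ 3 ^ β * (Y / 3 ^ β * u) :=
          mul_le_mul_of_nonneg_left hab1 h3.le
        have h6 : (3 : ℝ) ^ β * (Y / 3 ^ β * u) = Y * u := by field_simp
        rw [h6] at h5
        refine h5.trans_lt ?_
        rw [hu]; nlinarith
    · exact ⟨(0, 0), fun h => absurd h hY⟩
  choose f hf using key
  exact ⟨L, X₀, f, hX₀, hL, hf⟩

/-- Separation of the second coordinates implies separation of the first ones. -/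
lemma sep_aux {Y ε : ℝ} (hε : ε ≤ 1) (hY : 0 < Y) {p q : ℕ × ℕ} {g : ℕ}
    (hp : Y ≤ sv p) (hq : (sv q : ℝ) < (1 + ε) * Y) (hpq : p.2 + g ≤ q.2) : q.1 + g ≤ p.1 := by
  have h1 : (sv q : ℝ) < 2 * sv p := by nlinarith
  have h2 : sv q < 2 * sv p := by exact_mod_cast h1
  unfold sv at h2
  have h3 : 2 ^ q.1 * (3 ^ g * 3 ^ p.2) ≤ 2 ^ q.1 * 3 ^ q.2 := by
    apply Nat.mul_le_mul_left
    rw [← pow_add]
    exact Nat.pow_le_pow_right (by norm_num) (by omega)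
  have h4 : 2 ^ g ≤ 3 ^ g := Nat.pow_le_pow_left (by norm_num) g
  have h5 : 2 ^ (q.1 + g) * 3 ^ p.2 < 2 ^ (p.1 + 1) * 3 ^ p.2 := by
    calc 2 ^ (q.1 + g) * 3 ^ p.2 = 2 ^ q.1 * (2 ^ g * 3 ^ p.2) := by rw [pow_add]; ring
      _ ≤ 2 ^ q.1 * (3 ^ g * 3 ^ p.2) :=
          Nat.mul_le_mul_left _ (Nat.mul_le_mul_right _ h4)
      _ ≤ 2 ^ q.1 * 3 ^ q.2 := h3
      _ < 2 * (2 ^ p.1 * 3 ^ p.2) := h2
      _ = 2 ^ (p.1 + 1) * 3 ^ p.2 := by rw [pow_succ]; ring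
  have h6 : 2 ^ (q.1 + g) < 2 ^ (p.1 + 1) := lt_of_mul_lt_mul_right h5 (Nat.zero_le _)
  have h7 := (Nat.pow_lt_pow_iff_right (by norm_num)).1 h6
  omega

/-- `F` is `g`-separated in the neutral direction -/
def Sep (g : ℕ) (F : Finset (ℕ × ℕ)) : Prop :=
  ∀ p ∈ F, ∀ q ∈ F, p ≠ q → (p.1 + g ≤ q.1 ∧ q.2 + g ≤ p.2) ∨ (q.1 + g ≤ p.1 ∧ p.2 + g ≤ q.2)

/-- the pieces: `N` elements of the window at the positions `i D + j L'` -/
noncomputable def piece (f : ℝ → ℕ → ℕ × ℕ) (Y : ℝ) (D L' N i : ℕ) : Finset (ℕ × ℕ) :=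
  (Finset.range N).image fun j => f Y (i * D + j * L')

section

variable {ε X₀ Y : ℝ} {L D L' N M : ℕ} {f : ℝ → ℕ → ℕ × ℕ}

/-- the properties of the choice function at one window -/
structure Good (ε X₀ Y : ℝ) (L : ℕ) (f : ℝ → ℕ → ℕ × ℕ) (B : ℕ) : Prop where
  one : ε ≤ 1
  pos : 0 < Y
  lb : ∀ β, β ≤ B → Y ≤ sv (f Y β)
  ub : ∀ β, β ≤ B → (sv (f Y β) : ℝ) < (1 + ε) * Y
  le : ∀ β, β ≤ B → β ≤ (f Y β).2
  lt : ∀ β, β ≤ B → (f Y β).2 < β + L

lemma good_of {B : ℕ} (hε : ε ≤ 1) (hX : 1 ≤ X₀)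
    (hf : ∀ Y β, X₀ * 3 ^ β ≤ Y →
      Y ≤ sv (f Y β) ∧ (sv (f Y β) : ℝ) < (1 + ε) * Y ∧ β ≤ (f Y β).2 ∧ (f Y β).2 < β + L)
    (hY : X₀ * 3 ^ B ≤ Y) : Good ε X₀ Y L f B := by
  have h : ∀ β, β ≤ B → X₀ * 3 ^ β ≤ Y := by
    intro β hβ
    refine le_trans ?_ hY
    apply mul_le_mul_of_nonneg_left _ (by linarith)
    exact pow_le_pow_right₀ (by norm_num) hβ
  exact ⟨hε, lt_of_lt_of_le (by positivity) hY, fun β hβ => (hf Y β (h β hβ)).1,
    fun β hβ => (hf Y β (h β hβ)).2.1, fun β hβ => (hf Y β (h β hβ)).2.2.1,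
    fun β hβ => (hf Y β (h β hβ)).2.2.2⟩

/-- two positions at distance at least `L + g` give separated elements -/
lemma Good.sep {B : ℕ} (h : Good ε X₀ Y L f B) {β β' g : ℕ} (hβ' : β' ≤ B)
    (hg : β + L + g ≤ β' + 1) :
    (f Y β').1 + g ≤ (f Y β).1 ∧ (f Y β).2 + g ≤ (f Y β').2 := by
  have hβ : β ≤ B := by
    rcases Nat.eq_zero_or_pos L with h0 | h0
    · have := h.le β' hβ'
      have := h.lt β' hβ'
      omega
    · omega
  have h1 := h.lt β hβ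
  have h2 := h.le β' hβ'
  have h3 : (f Y β).2 + g ≤ (f Y β').2 := by omega
  exact ⟨sep_aux h.one h.pos (h.lb β hβ) (h.ub β' hβ') h3, h3⟩

lemma mem_piece {i : ℕ} {p : ℕ × ℕ} :
    p ∈ piece f Y D L' N i ↔ ∃ j < N, f Y (i * D + j * L') = p := by
  simp [piece]

lemma pos_le {i j : ℕ} (hi : i < M) (hj : j < N) (hN : N * L' ≤ D) : i * D + j * L' ≤ M * D := by
  have h1 : (i + 1) * D ≤ M * D := Nat.mul_le_mul_right D hi
  have h2 : j * L' ≤ N * L' := Nat.mul_le_mul_right L' hj.le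
  have h3 : (i + 1) * D = i * D + D := by ring
  omega

lemma Good.piece_injOn (h : Good ε X₀ Y L f (M * D)) (hL : L ≤ L') (hN : N * L' ≤ D) {i : ℕ}
    (hi : i < M) {j j' : ℕ} (hj : j < N) (hj' : j' < N)
    (he : (f Y (i * D + j * L')).2 = (f Y (i * D + j' * L')).2) : j = j' := by
  wlog hlt : j ≤ j' with H
  · exact (H h hL hN hi hj' hj he.symm (by omega)).symm
  rcases hlt.lt_or_eq with hlt | hlt
  · exfalso
    have h1 := h.lt _ (pos_le hi hj hN)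
    have h2 := h.le _ (pos_le hi hj' hN)
    have h3 : (j + 1) * L' ≤ j' * L' := Nat.mul_le_mul_right L' hlt
    have h4 : (j + 1) * L' = j * L' + L' := by ring
    omega
  · exact hlt

lemma Good.card_piece (h : Good ε X₀ Y L f (M * D)) (hL : L ≤ L') (hN : N * L' ≤ D) {i : ℕ}
    (hi : i < M) : (piece f Y D L' N i).card = N := by
  unfold piece
  rw [Finset.card_image_of_injOn, Finset.card_range]
  intro j hj j' hj' he
  simp only [Finset.coe_range, Set.mem_Iio] at hj hj'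
  exact h.piece_injOn hL hN hi hj hj' (by simpa using congrArg Prod.snd he)

/-- in a piece the second coordinate determines the element -/
lemma Good.piece_snd_inj (h : Good ε X₀ Y L f (M * D)) (hL : L ≤ L') (hN : N * L' ≤ D) {i : ℕ}
    (hi : i < M) : Set.InjOn (Prod.snd : ℕ × ℕ → ℕ) (piece f Y D L' N i) := by
  intro p hp q hq he
  obtain ⟨j, hj, rfl⟩ := mem_piece.1 (Finset.mem_coe.1 hp)
  obtain ⟨j', hj', rfl⟩ := mem_piece.1 (Finset.mem_coe.1 hq)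
  rw [h.piece_injOn hL hN hi hj hj' he]

lemma Good.piece_window (h : Good ε X₀ Y L f (M * D)) (hN : N * L' ≤ D) {i : ℕ}
    (hi : i < M) {p : ℕ × ℕ} (hp : p ∈ piece f Y D L' N i) :
    Y ≤ sv p ∧ (sv p : ℝ) < (1 + ε) * Y := by
  obtain ⟨j, hj, rfl⟩ := mem_piece.1 hp
  exact ⟨h.lb _ (pos_le hi hj hN), h.ub _ (pos_le hi hj hN)⟩

end

/-- rows of a matrix depending on the distance of distinct integers -/
lemma row_sum {ρ : ℕ → ℝ} (h0 : ∀ t, 0 ≤ ρ t) (hs : Summable ρ) (S : Finset ℕ) (a : ℕ) :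
    ∑ b ∈ S, ρ ((a : ℤ) - b).natAbs ≤ 2 * ∑' t, ρ t := by
  rw [← Finset.sum_filter_add_sum_filter_not S (fun b => a ≤ b), two_mul]
  apply add_le_add
  · have h1 : ∑ b ∈ S.filter (fun b => a ≤ b), ρ ((a : ℤ) - b).natAbs
        = ∑ t ∈ (S.filter (fun b => a ≤ b)).image (fun b => b - a), ρ t := by
      rw [Finset.sum_image]
      · apply Finset.sum_congr rfl
        intro b hb
        have := (Finset.mem_filter.1 hb).2
        congr 1
        omega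
      · intro b hb b' hb' he
        have h1 := (Finset.mem_filter.1 (Finset.mem_coe.1 hb)).2
        have h2 := (Finset.mem_filter.1 (Finset.mem_coe.1 hb')).2
        simp only at he
        omega
    rw [h1]
    exact hs.sum_le_tsum _ (fun t _ => h0 t)
  · have h1 : ∑ b ∈ S.filter (fun b => ¬ a ≤ b), ρ ((a : ℤ) - b).natAbs
        = ∑ t ∈ (S.filter (fun b => ¬ a ≤ b)).image (fun b => a - b), ρ t := by
      rw [Finset.sum_image]
      · apply Finset.sum_congr rfl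
        intro b hb
        have := (Finset.mem_filter.1 hb).2
        congr 1
        omega
      · intro b hb b' hb' he
        have h1 := (Finset.mem_filter.1 (Finset.mem_coe.1 hb)).2
        have h2 := (Finset.mem_filter.1 (Finset.mem_coe.1 hb')).2
        simp only at he
        omega
    rw [h1]
    exact hs.sum_le_tsum _ (fun t _ => h0 t)

/-- two elements of a window are separated by the distance of their second coordinates -/
lemma sep_pair {Y ε : ℝ} (hε : ε ≤ 1) (hY : 0 < Y) {p q : ℕ × ℕ}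
    (hp : Y ≤ sv p ∧ (sv p : ℝ) < (1 + ε) * Y) (hq : Y ≤ sv q ∧ (sv q : ℝ) < (1 + ε) * Y) :
    Sep ((p.2 : ℤ) - q.2).natAbs {p, q} := by
  have key : ∀ p q : ℕ × ℕ, Y ≤ sv p ∧ (sv p : ℝ) < (1 + ε) * Y →
      Y ≤ sv q ∧ (sv q : ℝ) < (1 + ε) * Y →
      (p.1 + ((p.2 : ℤ) - q.2).natAbs ≤ q.1 ∧ q.2 + ((p.2 : ℤ) - q.2).natAbs ≤ p.2) ∨
      (q.1 + ((p.2 : ℤ) - q.2).natAbs ≤ p.1 ∧ p.2 + ((p.2 : ℤ) - q.2).natAbs ≤ q.2) := by
    intro p q hp hq
    rcases le_total p.2 q.2 with h | h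
    · right
      have h1 : p.2 + ((p.2 : ℤ) - q.2).natAbs ≤ q.2 := by omega
      exact ⟨sep_aux hε hY hp.1 hq.2 h1, h1⟩
    · left
      have h1 : q.2 + ((p.2 : ℤ) - q.2).natAbs ≤ p.2 := by omega
      exact ⟨sep_aux hε hY hq.1 hp.2 h1, h1⟩
  intro x hx y hy hxy
  simp only [Finset.mem_insert, Finset.mem_singleton] at hx hy
  rcases hx with rfl | rfl <;> rcases hy with rfl | rfl
  · exact absurd rfl hxy
  · exact key x y hp hq
  · rcases key y x hp hq with h | h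
    · right; exact h
    · left; exact h
  · exact absurd rfl hxy

end Pool.Agent.MixR
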