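import Pool.Agent.MixR.Moment2

/-!
# Products of pairs of centred characters, polynomial mixing
-/

open Set Filter Topology MeasureTheory
open scoped ENNReal NNReal Real

namespace Pool.Agent.MixR

open Pool.Agent.H29E Pool.Agent.MP_e27144_an

/-- separation from a gap of the second coordinates -/
lemma sep_of_gap {Y ε : ℝ} (hε : ε ≤ 1) (hY : 0 < Y) {F : Finset (ℕ × ℕ)} {g : ℕ}
    (hF : ∀ p ∈ F, Y ≤ sv p ∧ (sv p : ℝ) < (1 + ε) * Y)
    (hgap : ∀ p ∈ F, ∀ q ∈ F, p ≠ q → p.2 + g ≤ q.2 ∨ q.2 + g ≤ p.2) : Sep g F := by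
  intro p hp q hq hpq
  rcases hgap p hp q hq hpq with h | h
  · right
    exact ⟨sep_aux hε hY (hF p hp).1 (hF q hq).2 h, h⟩
  · left
    exact ⟨sep_aux hε hY (hF q hq).1 (hF p hp).2 h, h⟩

variable {μ : Measure (AddCircle (1 : ℝ))} [IsProbabilityMeasure μ]

omit [IsProbabilityMeasure μ] in
/-- the mixing hypothesis for indexed families with coefficients in `{-1, 0, 1}` -/
lemma mix_idx {κ' : Type*} [DecidableEq κ'] {r g : ℕ} {m : ℤ} {B : ℝ}
    (hmix : ∀ (F : Finset (ℕ × ℕ)) (e : ℕ × ℕ → ℤ), F.card ≤ r → Sep g F →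
      (∀ p ∈ F, |e p| = 1) →
      ‖cf μ (m * ∑ p ∈ F, e p * (sv p : ℤ)) - ∏ p ∈ F, cf μ (m * e p)‖ ≤ B)
    (A : Finset κ') (pt : κ' → ℕ × ℕ) (e : κ' → ℤ) (hinj : Set.InjOn pt A) (hcard : A.card ≤ r)
    (hsep : Sep g (A.image pt)) (he : ∀ a ∈ A, |e a| = 1) :
    ‖cf μ (m * ∑ a ∈ A, e a * (sv (pt a) : ℤ)) - ∏ a ∈ A, cf μ (m * e a)‖ ≤ B := by
  obtain ⟨e', he'⟩ := idx A pt hinj e
  have h4 := hmix (A.image pt) e' (Finset.card_image_le.trans hcard) hsep (by
    intro p hp
    obtain ⟨a, ha, rfl⟩ := Finset.mem_image.1 hp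
    rw [he' a ha]
    exact he a ha)
  have hinj' : ∀ x ∈ A, ∀ y ∈ A, pt x = pt y → x = y := fun x hx y hy h =>
    hinj (Finset.mem_coe.2 hx) (Finset.mem_coe.2 hy) h
  rw [Finset.sum_image (fun x hx y hy h => hinj' x hx y hy h),
    Finset.prod_image (fun x hx y hy h => hinj' x hx y hy h)] at h4
  rw [Finset.sum_congr rfl (fun a ha => by rw [he' a ha]),
    Finset.prod_congr rfl (fun a ha => by rw [he' a ha])] at h4
  exact h4

/-- products of pairs: if some pair is not diagonal, the integral is small -/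
theorem poly_block {ι : Type*} [Fintype ι] [DecidableEq ι]
    {m : ℤ} {c : ℂ} (hc : cf μ m = c) (p q : ι → ℕ × ℕ)
    (hne : ∃ i, p i ≠ q i) {r g : ℕ} (hr : 2 * Fintype.card ι ≤ r) {B : ℝ} (hB : 0 ≤ B)
    (hmix : ∀ (F : Finset (ℕ × ℕ)) (e : ℕ × ℕ → ℤ), F.card ≤ r → Sep g F →
      (∀ p ∈ F, |e p| = 1) →
      ‖cf μ (m * ∑ p ∈ F, e p * (sv p : ℤ)) - ∏ p ∈ F, cf μ (m * e p)‖ ≤ B)
    (hdist : ∀ i j, i ≠ j → p i ≠ p j ∧ p i ≠ q j ∧ q i ≠ q j)
    (hsep : Sep g (Finset.univ.image p ∪ Finset.univ.image q)) :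
    ‖∫ x, ∏ i, (hh m c (p i) x * (starRingEnd ℂ) (hh m c (q i) x)) ∂μ‖
      ≤ 4 ^ (2 * Fintype.card ι) * B := by
  classical
  have hcn : ‖c‖ ≤ 1 := by rw [← hc]; exact norm_cf_le m
  let pt : ι × Bool → ℕ × ℕ := fun a => if a.2 then p a.1 else q a.1
  -- coefficient of the exponent
  let e : ι × Bool → Fin 3 → ℤ := fun a j =>
    if a.2 then ![0, 1, -1] j else if p a.1 = q a.1 then 0 else ![0, 1, -1] j
  let w : ι × Bool → Fin 3 → ℂ := fun a j =>
    if a.2 then (if p a.1 = q a.1 then ![1 + c * (starRingEnd ℂ) c, -(starRingEnd ℂ) c, -c] j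
      else ![-c, 1, 0] j)
    else (if p a.1 = q a.1 then ![1, 0, 0] j else ![-(starRingEnd ℂ) c, 0, 1] j)
  let v : ι × Bool → Fin 3 → ℤ := fun a j => m * (e a j * (sv (pt a) : ℤ))
  let z : ι × Bool → Fin 3 → ℂ := fun a j => cf μ (m * e a j)
  have hc' : cf μ (m * (-1)) = (starRingEnd ℂ) c := by
    rw [mul_neg_one, cf_neg, hc]
  -- the expansion
  have hexp : ∀ x : AddCircle (1 : ℝ), ∏ i, (hh m c (p i) x * (starRingEnd ℂ) (hh m c (q i) x))
      = ∏ a : ι × Bool, ∑ j ∈ (Finset.univ : Finset (Fin 3)), w a j * fourier (v a j) x := by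
    intro x
    rw [Fintype.prod_prod_type]
    apply Finset.prod_congr rfl
    intro i _
    rw [Fintype.prod_bool]
    by_cases hpq : p i = q i
    · simp only [Fin.sum_univ_three, w, v, e, pt, hpq, if_true, Bool.false_eq_true, if_false,
        Matrix.cons_val_zero, Matrix.cons_val_one, Matrix.cons_val_two, Matrix.head_cons,
        Matrix.tail_cons, Matrix.cons_val]
      unfold hh
      have e1 : fourier (m * (0 * (sv (q i) : ℤ))) x = 1 := by simp
      have e2 : fourier (m * (1 * (sv (q i) : ℤ))) x = fourier (m * (sv (q i) : ℤ)) x := by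
        rw [one_mul]
      have e3 : fourier (m * (-1 * (sv (q i) : ℤ))) x
          = (starRingEnd ℂ) (fourier (m * (sv (q i) : ℤ)) x) := by
        rw [← fourier_neg, show m * (-1 * (sv (q i) : ℤ)) = -(m * (sv (q i) : ℤ)) by ring]
      have e4 : fourier (m * (sv (q i) : ℤ)) x * (starRingEnd ℂ) (fourier (m * (sv (q i) : ℤ)) x)
          = 1 := by
        rw [← fourier_neg, ← fourier_add, add_neg_cancel, fourier_zero]
      rw [e1, e2, e3, map_sub]
      linear_combination e4
    · simp only [Fin.sum_univ_three, w, v, e, pt, hpq, if_true, Bool.false_eq_true, if_false,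
        Matrix.cons_val_zero, Matrix.cons_val_one, Matrix.cons_val_two, Matrix.head_cons,
        Matrix.tail_cons, Matrix.cons_val]
      unfold hh
      have e1 : ∀ s : ℤ, fourier (m * (0 * s)) x = 1 := by intro s; simp
      have e3 : fourier (m * (-1 * (sv (q i) : ℤ))) x
          = (starRingEnd ℂ) (fourier (m * (sv (q i) : ℤ)) x) := by
        rw [← fourier_neg, show m * (-1 * (sv (q i) : ℤ)) = -(m * (sv (q i) : ℤ)) by ring]
      rw [e1, e1, e3, one_mul, map_sub]
      ring
  -- the product of the means vanishes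
  have hzero : ∏ a : ι × Bool, ∑ j ∈ (Finset.univ : Finset (Fin 3)), w a j * z a j = 0 := by
    obtain ⟨i, hi⟩ := hne
    apply Finset.prod_eq_zero (Finset.mem_univ (i, true))
    simp only [Fin.sum_univ_three, w, z, e, hi, if_true, if_false,
        Matrix.cons_val_zero, Matrix.cons_val_one, Matrix.cons_val_two, Matrix.head_cons,
        Matrix.tail_cons, Matrix.cons_val]
    have e1 : cf μ (m * 1) = c := by rw [mul_one, hc]
    rw [mul_zero, cf_zero, e1]
    ring
  have hW : ∀ a : ι × Bool, ∑ j ∈ (Finset.univ : Finset (Fin 3)), ‖w a j‖ ≤ 4 := by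
    rintro ⟨i, b⟩
    have h0 := norm_nonneg c
    by_cases hpq : p i = q i <;> cases b
    · simp [Fin.sum_univ_three, w, hpq]
    · simp only [Fin.sum_univ_three, w, hpq, if_true, Matrix.cons_val_zero, Matrix.cons_val_one,
        Matrix.cons_val_two, Matrix.head_cons, Matrix.tail_cons, Matrix.cons_val, norm_neg,
        RCLike.norm_conj]
      have h1 : ‖1 + c * (starRingEnd ℂ) c‖ ≤ 1 + ‖c‖ * ‖c‖ := by
        refine (norm_add_le _ _).trans ?_
        rw [norm_one, norm_mul, RCLike.norm_conj]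
      nlinarith
    · simp only [Fin.sum_univ_three, w, hpq, if_false, Bool.false_eq_true, Matrix.cons_val_zero,
        Matrix.cons_val_one, Matrix.cons_val_two, Matrix.head_cons, Matrix.tail_cons,
        Matrix.cons_val, norm_neg, RCLike.norm_conj, norm_zero, norm_one]
      linarith
    · simp only [Fin.sum_univ_three, w, hpq, if_false, if_true, Matrix.cons_val_zero,
        Matrix.cons_val_one, Matrix.cons_val_two, Matrix.head_cons, Matrix.tail_cons,
        Matrix.cons_val, norm_neg, norm_zero, norm_one]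
      linarith
  -- independence
  have hz : ∀ ψ : ι × Bool → Fin 3, (∀ a, ψ a ∈ (Finset.univ : Finset (Fin 3))) →
      ‖cf μ (∑ a, v a (ψ a)) - ∏ a, z a (ψ a)‖ ≤ B := by
    intro ψ _
    set A := (Finset.univ : Finset (ι × Bool)).filter fun a => e a (ψ a) ≠ 0 with hA
    have hA1 : ∀ a ∈ A, |e a (ψ a)| = 1 := by
      rintro ⟨i, b⟩ ha
      have h1 := (Finset.mem_filter.1 ha).2
      revert h1
      have hj : ∀ j : Fin 3, (![0, 1, -1] : Fin 3 → ℤ) j ≠ 0 → |(![0, 1, -1] : Fin 3 → ℤ) j| = 1 := by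
        decide
      simp only [e]
      split_ifs with h2 h3
      · exact hj _
      · intro h; exact absurd rfl h
      · exact hj _
    have hAd : ∀ a ∈ A, a.2 = false → p a.1 ≠ q a.1 := by
      rintro ⟨i, b⟩ ha hb
      have h1 := (Finset.mem_filter.1 ha).2
      simp only at hb
      subst hb
      intro h
      apply h1
      simp only [e, Bool.false_eq_true, if_false] at h ⊢
      simp [h]
    have hinj : Set.InjOn pt A := by
      rintro ⟨i, b⟩ ha ⟨i', b'⟩ ha' heq
      by_cases hii : i = i'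
      · subst hii
        cases b <;> cases b'
        · rfl
        · exfalso
          have := hAd _ (Finset.mem_coe.1 ha) rfl
          simp only [pt, Bool.false_eq_true, if_false, if_true] at heq this
          exact this heq.symm
        · exfalso
          have := hAd _ (Finset.mem_coe.1 ha') rfl
          simp only [pt, Bool.false_eq_true, if_false, if_true] at heq this
          exact this heq
        · rfl
      · exfalso
        obtain ⟨d1, d2, d3⟩ := hdist i i' hii
        obtain ⟨_, d4, _⟩ := hdist i' i (Ne.symm hii)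
        cases b <;> cases b' <;>
          simp only [pt, Bool.false_eq_true, if_false, if_true] at heq
        · exact d3 heq
        · exact d4 heq.symm
        · exact d2 heq
        · exact d1 heq
    have hAcard : A.card ≤ r := by
      refine (Finset.card_filter_le _ _).trans ?_
      rw [Finset.card_univ, Fintype.card_prod, Fintype.card_bool]
      omega
    have hAsep : Sep g (A.image pt) := by
      have hsub : A.image pt ⊆ Finset.univ.image p ∪ Finset.univ.image q := by
        intro x hx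
        obtain ⟨⟨i, b⟩, _, rfl⟩ := Finset.mem_image.1 hx
        rw [Finset.mem_union]
        cases b
        · right; exact Finset.mem_image_of_mem _ (Finset.mem_univ _)
        · left; exact Finset.mem_image_of_mem _ (Finset.mem_univ _)
      intro x hx y hy hxy
      exact hsep x (hsub hx) y (hsub hy) hxy
    have h4 := mix_idx hmix A pt (fun a => e a (ψ a)) hinj hAcard hAsep hA1
    have e1 : ∑ a, v a (ψ a) = m * ∑ a ∈ A, e a (ψ a) * (sv (pt a) : ℤ) := by
      simp only [v]
      rw [← Finset.mul_sum]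
      congr 1
      rw [hA, Finset.sum_filter_of_ne]
      intro a _ h h0
      apply h
      rw [h0, zero_mul]
    have e2 : ∏ a, z a (ψ a) = ∏ a ∈ A, cf μ (m * e a (ψ a)) := by
      simp only [z]
      rw [hA, Finset.prod_filter_of_ne]
      intro a _ h h0
      apply h
      rw [h0, mul_zero, cf_zero]
    rw [e1, e2]
    exact h4
  have hb := block (μ := μ) (Finset.univ : Finset (Fin 3)) w v z (W := 4) hB hz hW
  rw [hzero, sub_zero] at hb
  simp_rw [hexp]
  refine hb.trans (le_of_eq ?_)
  rw [Fintype.card_prod, Fintype.card_bool, mul_comm (Fintype.card ι) 2]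

end Pool.Agent.MixR
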