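import Pool.Agent.MixR.PolyBlock
import Pool.Agent.MixR.ExpMain

/-!
# Polynomial mixing of order four
-/

open Set Filter Topology MeasureTheory
open scoped ENNReal NNReal Real

namespace Pool.Agent.MixR

open Pool.Agent.H29E Pool.Agent.MP_e27144_an

variable {μ : Measure (AddCircle (1 : ℝ))} [IsProbabilityMeasure μ]

/-- the gap of two elements of a piece -/
lemma Good.gap {ε X₀ Y : ℝ} {L D L' N M : ℕ} {f : ℝ → ℕ → ℕ × ℕ} (h : Good ε X₀ Y L f (M * D))
    (hN : N * L' ≤ D) {i : ℕ} (hi : i < M) {s j j' : ℕ} (hL : L' = L + s)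
    (hj : j < N) (hj' : j' < N) (hjj : j ≠ j') :
    ((j : ℤ) - j').natAbs * s ≤
      (((f Y (i * D + j * L')).2 : ℤ) - (f Y (i * D + j' * L')).2).natAbs := by
  wlog hlt : j < j' with H
  · have h1 := H h hN hi hL hj' hj (Ne.symm hjj) (by omega)
    have e1 : ((j : ℤ) - j').natAbs = ((j' : ℤ) - j).natAbs := by omega
    have e2 : (((f Y (i * D + j * L')).2 : ℤ) - (f Y (i * D + j' * L')).2).natAbs
        = (((f Y (i * D + j' * L')).2 : ℤ) - (f Y (i * D + j * L')).2).natAbs := by omega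
    rw [e1, e2]
    exact h1
  have h1 := h.lt _ (pos_le hi hj hN)
  have h2 := h.le _ (pos_le hi hj' hN)
  obtain ⟨t, ht, ht0⟩ : ∃ t, j' = j + t ∧ 0 < t := ⟨j' - j, by omega, by omega⟩
  have e1 : j' * L' = j * L' + t * L + t * s := by rw [ht, hL]; ring
  have e2 : L ≤ t * L := Nat.le_mul_of_pos_left L ht0
  have e3 : ((j : ℤ) - j').natAbs = t := by omega
  rw [e3]
  have e4 : (f Y (i * D + j * L')).2 + t * s ≤ (f Y (i * D + j' * L')).2 := by omega
  omega

theorem poly_window
    {m : ℤ} {c : ℂ} (hc : cf μ m = c) {κ C : ℝ} (hκ : 1 < κ) (hC : 0 ≤ C)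
    (hmix : ∀ (g : ℕ) (F : Finset (ℕ × ℕ)) (e : ℕ × ℕ → ℤ), F.card ≤ 4 → Sep g F →
      (∀ p ∈ F, |e p| = 1) →
      ‖cf μ (m * ∑ p ∈ F, e p * (sv p : ℤ)) - ∏ p ∈ F, cf μ (m * e p)‖ ≤ C * (1 + (g : ℝ)) ^ (-κ))
    {ε X₀ Y : ℝ} {L D L' s N : ℕ} {f : ℝ → ℕ → ℕ × ℕ} (hG : Good ε X₀ Y L f (3 * D))
    (hLs : L' = L + s) (hs : 0 < s)
    (hN : 2 * (N * L') ≤ D) (hN0 : 0 < N)
    (I : Finset (Fin 3)) (hI : I.card = 2) :
    ∫ x, ∏ i : I, ‖avP m (piece f Y D L' N (i : Fin 3)) x - c‖ ^ 2 ∂μ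
      ≤ (4 / N) ^ 2 + 2 * (256 * C * (s : ℝ) ^ (-κ) * (2 * ∑' t : ℕ, (t : ℝ) ^ (-κ)) / N) := by
  classical
  have hN' : N * L' ≤ D := by omega
  have hLL : L ≤ L' := by omega
  have hcn : ‖c‖ ≤ 1 := by rw [← hc]; exact norm_cf_le m
  have hcard : ∀ i : I, (piece f Y D L' N (i : Fin 3)).card = N := fun i =>
    hG.card_piece hLL hN' i.1.2
  have hιcard : Fintype.card I = 2 := by rw [Fintype.card_coe, hI]
  have hNr : (0 : ℝ) < N := by exact_mod_cast hN0
  have hsr : (0 : ℝ) < s := by exact_mod_cast hs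
  set a : (ℕ × ℕ) × (ℕ × ℕ) → ℝ := fun x => if x.1 = x.2 then 4 else 0 with ha
  set w : (ℕ × ℕ) × (ℕ × ℕ) → ℝ := fun x => if x.1 = x.2 then 0 else
    256 * C * (1 + ((((x.1.2 : ℤ) - x.2.2).natAbs : ℕ) : ℝ)) ^ (-κ) with hw
  have hw0 : ∀ x, 0 ≤ w x := by
    intro x
    simp only [hw]
    split_ifs
    · exact le_rfl
    · positivity
  have ha0 : ∀ x, 0 ≤ a x := by
    intro x
    simp only [ha]
    split_ifs <;> norm_num
  have hmom := moment_gen (μ := μ) (m := m) (c := c) (fun i : I => piece f Y D L' N (i : Fin 3))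
    (fun i => by rw [hcard i]; exact hN0) (fun φ => ∏ i, a (φ i) + ∑ i, w (φ i)) ?_
  · refine hmom.trans ?_
    have e1 : ∏ i : I, (((piece f Y D L' N (i : Fin 3)).card : ℝ) ^ 2)⁻¹
        = (((N : ℝ) ^ 2) ^ (Fintype.card I))⁻¹ := by
      rw [Finset.prod_congr rfl (fun i _ => by rw [hcard i]), Finset.prod_const, Finset.card_univ,
        inv_pow]
    rw [e1]
    have h1 := sum_pi_add (fun i : I => piece f Y D L' N (i : Fin 3) ×ˢ piece f Y D L' N (i : Fin 3))
      a w (n := (N : ℝ) ^ 2) (A := 4 / N)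
      (R := 256 * C * (s : ℝ) ^ (-κ) * (2 * ∑' t : ℕ, (t : ℝ) ^ (-κ)) / N) (by positivity)
      (fun i => by rw [Finset.card_product, hcard i]; push_cast; ring) ha0 ?_ ?_
    · rw [hιcard] at h1
      rw [hιcard]
      exact_mod_cast h1
    · -- diagonal
      intro i
      rw [Finset.sum_product]
      have : ∀ p ∈ piece f Y D L' N (i : Fin 3),
          ∑ q ∈ piece f Y D L' N (i : Fin 3), a (p, q) = 4 := by
        intro p hp
        simp only [ha]
        rw [Finset.sum_ite_eq (piece f Y D L' N (i : Fin 3)) p (fun _ => (4 : ℝ)), if_pos hp]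
      rw [Finset.sum_congr rfl this, Finset.sum_const, hcard i, nsmul_eq_mul]
      apply le_of_eq
      field_simp
    · -- off-diagonal
      intro i
      rw [Finset.sum_product]
      have hinj : Set.InjOn (fun j => f Y ((i : Fin 3) * D + j * L')) (Finset.range N) := by
        intro j hj j' hj' he
        simp only [Finset.coe_range, Set.mem_Iio] at hj hj'
        exact hG.piece_injOn hLL hN' i.1.2 hj hj' (by simpa using congrArg Prod.snd he)
      have hsumκ : Summable fun t : ℕ => (t : ℝ) ^ (-κ) := Real.summable_nat_rpow.2 (by linarith)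
      have hrow : ∀ p ∈ piece f Y D L' N (i : Fin 3),
          ∑ q ∈ piece f Y D L' N (i : Fin 3), w (p, q)
            ≤ 256 * C * (s : ℝ) ^ (-κ) * (2 * ∑' t : ℕ, (t : ℝ) ^ (-κ)) := by
        intro p hp
        obtain ⟨j, hj, rfl⟩ := mem_piece.1 hp
        have h4 : ∑ q ∈ piece f Y D L' N (i : Fin 3), w (f Y ((i : Fin 3) * D + j * L'), q)
            = ∑ j' ∈ Finset.range N, w (f Y ((i : Fin 3) * D + j * L'),
              f Y ((i : Fin 3) * D + j' * L')) := by
          unfold piece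
          rw [Finset.sum_image (fun x hx y hy h => hinj (Finset.mem_coe.2 hx) (Finset.mem_coe.2 hy) h)]
        rw [h4]
        have h5 : ∀ j' ∈ Finset.range N, w (f Y ((i : Fin 3) * D + j * L'),
              f Y ((i : Fin 3) * D + j' * L'))
            ≤ 256 * C * (s : ℝ) ^ (-κ) * ((((j : ℤ) - j').natAbs : ℕ) : ℝ) ^ (-κ) := by
          intro j' hj'
          rw [Finset.mem_range] at hj'
          by_cases hjj : j = j'
          · subst hjj
            simp only [hw, if_true]
            positivity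
          · have h6 := hG.gap hN' i.1.2 hLs hj hj' hjj
            have h7 : f Y ((i : Fin 3) * D + j * L') ≠ f Y ((i : Fin 3) * D + j' * L') := by
              intro h
              exact hjj (hinj (by simpa using hj) (by simpa using hj') h)
            simp only [hw]
            rw [if_neg h7, mul_assoc (256 * C), ← Real.mul_rpow (by positivity) (by positivity)]
            apply mul_le_mul_of_nonneg_left _ (by positivity)
            have h8 : 0 < ((j : ℤ) - j').natAbs := by omega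
            apply Real.rpow_le_rpow_of_nonpos
            · have : (0 : ℝ) < (((j : ℤ) - j').natAbs : ℕ) := by exact_mod_cast h8
              positivity
            · have h9 : (((((j : ℤ) - j').natAbs * s : ℕ)) : ℝ) ≤
                  (((((f Y ((i : Fin 3) * D + j * L')).2 : ℤ)
                    - (f Y ((i : Fin 3) * D + j' * L')).2).natAbs : ℕ) : ℝ) := by
                exact_mod_cast h6
              rw [Nat.cast_mul] at h9
              nlinarith
            · linarith
        refine (Finset.sum_le_sum h5).trans ?_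
        rw [← Finset.mul_sum]
        apply mul_le_mul_of_nonneg_left _ (by positivity)
        exact row_sum (ρ := fun t : ℕ => (t : ℝ) ^ (-κ)) (fun t => by positivity) hsumκ
          (Finset.range N) j
      refine (Finset.sum_le_sum hrow).trans ?_
      rw [Finset.sum_const, hcard i, nsmul_eq_mul]
      apply le_of_eq
      field_simp
  · -- individual terms
    intro φ hφ
    by_cases hne : ∃ i, (φ i).1 ≠ (φ i).2
    · -- the nondiagonal index with the smallest gap
      have hne' : (Finset.univ.filter fun i : I => (φ i).1 ≠ (φ i).2).Nonempty := by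
        obtain ⟨i, hi⟩ := hne
        exact ⟨i, Finset.mem_filter.2 ⟨Finset.mem_univ _, hi⟩⟩
      obtain ⟨i₀, hi₀, hmin⟩ := Finset.exists_min_image _
        (fun i : I => (((φ i).1.2 : ℤ) - (φ i).2.2).natAbs) hne'
      have hi₀' := (Finset.mem_filter.1 hi₀).2
      set g := (((φ i₀).1.2 : ℤ) - (φ i₀).2.2).natAbs with hg
      have hloc : ∀ i : I, ∀ p ∈ piece f Y D L' N (i : Fin 3),
          ((i : Fin 3) : ℕ) * D ≤ p.2 ∧ p.2 < ((i : Fin 3) : ℕ) * D + N * L' := by
        intro i p hp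
        obtain ⟨j, hj, rfl⟩ := mem_piece.1 hp
        have h1 := hG.lt _ (pos_le i.1.2 hj hN')
        have h2 := hG.le _ (pos_le i.1.2 hj hN')
        have h3 : (j + 1) * L' ≤ N * L' := Nat.mul_le_mul_right L' hj
        have h4 : (j + 1) * L' = j * L' + L' := by ring
        omega
      have hgN : g < N * L' := by
        have h1 := hloc i₀ _ (hφ i₀).1
        have h2 := hloc i₀ _ (hφ i₀).2
        omega
      have hfar : ∀ i j : I, i ≠ j → ∀ p ∈ piece f Y D L' N (i : Fin 3),
          ∀ q ∈ piece f Y D L' N (j : Fin 3), p.2 + g ≤ q.2 ∨ q.2 + g ≤ p.2 := by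
        intro i j hij p hp q hq
        have h1 := hloc i p hp
        have h2 := hloc j q hq
        have hij' : ((i : Fin 3) : ℕ) ≠ ((j : Fin 3) : ℕ) := fun h =>
          hij (Subtype.ext (Fin.ext h))
        have key : ∀ s t : ℕ, s < t → s * D + D ≤ t * D := by
          intro s t hst
          have h5 : (s + 1) * D ≤ t * D := Nat.mul_le_mul_right D hst
          have h6 : (s + 1) * D = s * D + D := by ring
          omega
        rcases lt_or_gt_of_ne hij' with h | h
        · left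
          have := key _ _ h
          omega
        · right
          have := key _ _ h
          omega
      have hneq : ∀ i j : I, i ≠ j → ∀ p ∈ piece f Y D L' N (i : Fin 3),
          ∀ q ∈ piece f Y D L' N (j : Fin 3), p ≠ q := by
        intro i j hij p hp q hq hpq
        subst hpq
        have h1 := hloc i p hp
        have h2 := hloc j p hq
        have hij' : ((i : Fin 3) : ℕ) ≠ ((j : Fin 3) : ℕ) := fun h =>
          hij (Subtype.ext (Fin.ext h))
        have key : ∀ s t : ℕ, s < t → s * D + D ≤ t * D := by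
          intro s t hst
          have h5 : (s + 1) * D ≤ t * D := Nat.mul_le_mul_right D hst
          have h6 : (s + 1) * D = s * D + D := by ring
          omega
        rcases lt_or_gt_of_ne hij' with h | h
        · have := key _ _ h
          omega
        · have := key _ _ h
          omega
      have hmem : ∀ x ∈ (Finset.univ.image fun i : I => (φ i).1) ∪ (Finset.univ.image fun i : I => (φ i).2),
          ∃ i : I, x ∈ piece f Y D L' N (i : Fin 3) ∧ (x = (φ i).1 ∨ x = (φ i).2) := by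
        intro x hx
        rcases Finset.mem_union.1 hx with hx | hx
        · obtain ⟨i, _, rfl⟩ := Finset.mem_image.1 hx
          exact ⟨i, (hφ i).1, Or.inl rfl⟩
        · obtain ⟨i, _, rfl⟩ := Finset.mem_image.1 hx
          exact ⟨i, (hφ i).2, Or.inr rfl⟩
      have hsep : Sep g ((Finset.univ.image fun i : I => (φ i).1) ∪
          (Finset.univ.image fun i : I => (φ i).2)) := by
        apply sep_of_gap hG.one hG.pos
        · intro x hx
          obtain ⟨i, hi, _⟩ := hmem x hx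
          exact hG.piece_window hN' i.1.2 hi
        · intro x hx y hy hxy
          obtain ⟨i, hi, hi'⟩ := hmem x hx
          obtain ⟨j, hj, hj'⟩ := hmem y hy
          by_cases hij : i = j
          · subst hij
            have hd : (φ i).1 ≠ (φ i).2 := by
              intro h
              rcases hi' with h1 | h1 <;> rcases hj' with h2 | h2 <;>
                exact hxy (by rw [h1, h2]; try simp [h])
            have h5 := hmin i (Finset.mem_filter.2 ⟨Finset.mem_univ _, hd⟩)
            rcases hi' with h1 | h1 <;> rcases hj' with h2 | h2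
            · exact absurd (h1.trans h2.symm) hxy
            · rw [h1, h2]; omega
            · rw [h1, h2]; omega
            · exact absurd (h1.trans h2.symm) hxy
          · exact hfar i j hij x hi y hj
      have hPB := poly_block hc (fun i : I => (φ i).1) (fun i : I => (φ i).2) hne (r := 4) (g := g)
        (by rw [hιcard]) (B := C * (1 + (g : ℝ)) ^ (-κ)) (by positivity) (hmix g)
        (fun i j hij => ⟨hneq i j hij _ (hφ i).1 _ (hφ j).1, hneq i j hij _ (hφ i).1 _ (hφ j).2,
          hneq i j hij _ (hφ i).2 _ (hφ j).2⟩) hsep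
      refine hPB.trans ?_
      rw [hιcard]
      have h6 : w (φ i₀) = 256 * C * (1 + (g : ℝ)) ^ (-κ) := by
        simp only [hw]
        rw [if_neg hi₀']
      have h7 : w (φ i₀) ≤ ∑ i, w (φ i) :=
        Finset.single_le_sum (fun i _ => hw0 (φ i)) (Finset.mem_univ i₀)
      have h8 : 0 ≤ ∏ i, a (φ i) := Finset.prod_nonneg fun i _ => ha0 _
      have h9 : (4 : ℝ) ^ (2 * 2) * (C * (1 + (g : ℝ)) ^ (-κ)) = w (φ i₀) := by
        rw [h6]; ring
      rw [h9]
      linarith
    · push Not at hne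
      have h8 : ∏ i, a (φ i) = ∏ _i : I, (4 : ℝ) :=
        Finset.prod_congr rfl fun i _ => by simp only [ha]; rw [if_pos (hne i)]
      have h9 : 0 ≤ ∑ i, w (φ i) := Finset.sum_nonneg fun i _ => hw0 _
      have hbd : ∀ x : AddCircle (1 : ℝ), ‖∏ i : I, (hh m c (φ i).1 x *
          (starRingEnd ℂ) (hh m c (φ i).2 x))‖ ≤ ∏ _i : I, (4 : ℝ) := by
        intro x
        rw [norm_prod]
        apply Finset.prod_le_prod (fun i _ => norm_nonneg _)
        intro i _
        have h10 : ∀ p, ‖hh m c p x‖ ≤ 2 := by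
          intro p
          unfold hh
          refine (norm_sub_le _ _).trans ?_
          have : ‖fourier (m * (sv p : ℤ)) x‖ ≤ 1 :=
            (ContinuousMap.norm_coe_le_norm _ _).trans (fourier_norm _).le
          linarith
        rw [norm_mul, RCLike.norm_conj]
        have h11 := h10 (φ i).1
        have h12 := h10 (φ i).2
        have h13 := norm_nonneg (hh m c (φ i).1 x)
        have h14 := norm_nonneg (hh m c (φ i).2 x)
        nlinarith
      rw [h8]
      refine (norm_integral_le_of_norm_le_const (Eventually.of_forall hbd)).trans ?_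
      rw [probReal_univ, mul_one]
      linarith

theorem poly_mixing [NullSingletonClass μ] {κ : ℝ} (hκ : 1 < κ) {m : ℤ} (hm : m ≠ 0)
    (hmix : ∃ C : ℝ, ∀ (g : ℕ) (F : Finset (ℕ × ℕ)) (e : ℕ × ℕ → ℤ), F.card ≤ 4 → Sep g F →
      (∀ p ∈ F, |e p| = 1) →
      ‖cf μ (m * ∑ p ∈ F, e p * (sv p : ℤ)) - ∏ p ∈ F, cf μ (m * e p)‖ ≤ C * (1 + (g : ℝ)) ^ (-κ)) :
    cf μ m = 0 := by
  by_contra hcm
  obtain ⟨C, hmix⟩ := hmix
  have hC : 0 ≤ C := by
    have h := hmix 0 ∅ (fun _ => 0) (by simp) (by intro p hp; simp at hp) (by simp)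
    simp only [Finset.sum_empty, Finset.prod_empty, mul_zero, cf_zero, sub_self, norm_zero,
      Nat.cast_zero, add_zero, Real.one_rpow, mul_one] at h
    exact h
  set c := cf μ m with hc
  have hc0 : 0 < ‖c‖ := norm_pos_iff.2 hcm
  set ε : ℝ := min 1 (‖c‖ / 4) with hε_def
  have hε : 0 < ε := lt_min one_pos (by positivity)
  have hε1 : ε ≤ 1 := min_le_left _ _
  have hε2 : ε ≤ ‖c‖ / 4 := min_le_right _ _
  have hη : 2 * (‖c‖ / 4) + π * ε < 2 * ‖c‖ := by
    have := Real.pi_le_four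
    have := Real.pi_pos
    nlinarith
  obtain ⟨L, X₀, f, hX₀, hL, hf⟩ := exists_el hε
  obtain ⟨hc₀, hDev⟩ := ev_D hε hX₀ (M := 3) (by norm_num)
    (c₀ := Real.log (1 + ε) / (2 * (3 : ℕ) * Real.log 3)) rfl
  set c₀ : ℝ := Real.log (1 + ε) / (2 * (3 : ℕ) * Real.log 3) with hc₀_def
  set c₁ : ℝ := c₀ / 16 with hc₁_def
  have hc₁ : 0 < c₁ := by positivity
  set D : ℕ → ℕ := fun k => ⌊c₀ * k⌋₊ with hD
  set N : ℕ → ℕ := fun k => ⌈(k : ℝ) ^ (3 / 4 : ℝ)⌉₊ with hN
  set s : ℕ → ℕ := fun k => ⌊c₁ * (k : ℝ) ^ (1 / 4 : ℝ)⌋₊ with hs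
  set Z : ℝ := 2 * ∑' t : ℕ, (t : ℝ) ^ (-κ) with hZ
  have hZ0 : 0 ≤ Z := by
    rw [hZ]
    apply mul_nonneg (by norm_num)
    apply tsum_nonneg
    intro t
    positivity
  set K : ℝ := 512 * C * (c₁ / 2) ^ (-κ) * Z with hK
  have hK0 : 0 ≤ K := by positivity
  have hb : Summable fun k : ℕ => 16 * (k : ℝ) ^ (-(3 / 2) : ℝ) + K * (k : ℝ) ^ (-((κ + 3) / 4)) := by
    apply Summable.add
    · exact (Real.summable_nat_rpow.2 (by norm_num)).mul_left _
    · exact (Real.summable_nat_rpow.2 (by linarith)).mul_left _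
  have hNL := tendsto_natCast_atTop_atTop.eventually
    (ev_rpow (show (3 / 4 : ℝ) < 1 by norm_num) (16 * L / c₀))
  have hs2 := ((tendsto_rpow_atTop (show (0 : ℝ) < 1 / 4 by norm_num)).comp
    tendsto_natCast_atTop_atTop).eventually_ge_atTop (2 / c₁)
  refine finish (μ := μ) (r := 2) hε (by positivity : 0 < ‖c‖ / 4) hm hη (by norm_num)
    (fun k i => piece f ((1 + ε) ^ k) (D k) (L + s k) (N k) i) _ hb ?_ ?_
  all_goals
    filter_upwards [hDev, hNL, hs2, eventually_ge_atTop 1] with k hk1 hk3 hk5 hk4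
    obtain ⟨hk1a, hk1b, hk1c⟩ := hk1
    have hk4' : (1 : ℝ) ≤ k := by exact_mod_cast hk4
    have hk0 : (0 : ℝ) < k := by linarith
    have hkθ : (1 : ℝ) ≤ (k : ℝ) ^ (3 / 4 : ℝ) := Real.one_le_rpow hk4' (by norm_num)
    have hN1 : (N k : ℝ) ≤ 2 * (k : ℝ) ^ (3 / 4 : ℝ) := by
      have := Nat.ceil_lt_add_one (Real.rpow_nonneg hk0.le (3 / 4 : ℝ))
      simp only [hN]
      linarith
    have hN2 : (k : ℝ) ^ (3 / 4 : ℝ) ≤ N k := Nat.le_ceil _
    have hk5' : 2 ≤ c₁ * (k : ℝ) ^ (1 / 4 : ℝ) := by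
      simp only [Function.comp_apply] at hk5
      rw [div_le_iff₀ hc₁] at hk5
      linarith
    have hs1 : (s k : ℝ) ≤ c₁ * (k : ℝ) ^ (1 / 4 : ℝ) := Nat.floor_le (by positivity)
    have hs3 : c₁ * (k : ℝ) ^ (1 / 4 : ℝ) / 2 ≤ (s k : ℝ) := by
      have := Nat.lt_floor_add_one (c₁ * (k : ℝ) ^ (1 / 4 : ℝ))
      simp only [hs]
      linarith
    have hs0 : 0 < s k := by
      have : (0 : ℝ) < s k := by linarith
      exact_mod_cast this
    have hN0 : 0 < N k := by
      have : (0 : ℝ) < N k := by linarith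
      exact_mod_cast this
    have hpp : (k : ℝ) ^ (3 / 4 : ℝ) * (k : ℝ) ^ (1 / 4 : ℝ) = k := by
      rw [← Real.rpow_add hk0]; norm_num
    have hNL' : 2 * (N k * (L + s k)) ≤ D k := by
      have h5 : ((2 * (N k * (L + s k)) : ℕ) : ℝ) ≤ (D k : ℕ) := by
        push_cast
        rw [Real.rpow_one, div_mul_eq_mul_div, div_le_iff₀ hc₀] at hk3
        have hL' : (0 : ℝ) ≤ L := Nat.cast_nonneg _
        have h6 : (N k : ℝ) * (L + s k) ≤ 2 * (k : ℝ) ^ (3 / 4 : ℝ) * (L + c₁ * (k : ℝ) ^ (1 / 4 : ℝ)) :=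
          mul_le_mul hN1 (by linarith) (by positivity) (by positivity)
        have h6' : 2 * (k : ℝ) ^ (3 / 4 : ℝ) * (L + c₁ * (k : ℝ) ^ (1 / 4 : ℝ))
            = 2 * L * (k : ℝ) ^ (3 / 4 : ℝ) + 2 * c₁ * k := by
          rw [← hpp]
          have : ((k : ℝ) ^ (3 / 4 : ℝ) * (k : ℝ) ^ (1 / 4 : ℝ)) ^ (3 / 4 : ℝ) = (k : ℝ) ^ (3 / 4 : ℝ) := by
            rw [hpp]
          have h2 : ((k : ℝ) ^ (3 / 4 : ℝ) * (k : ℝ) ^ (1 / 4 : ℝ)) ^ (1 / 4 : ℝ) = (k : ℝ) ^ (1 / 4 : ℝ) := by
            rw [hpp]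
          rw [this, h2]
          ring
        have h7 : (D k : ℝ) = (⌊c₀ * k⌋₊ : ℝ) := rfl
        rw [h7]
        rw [h6'] at h6
        have h8 : c₁ * k = c₀ * k / 16 := by rw [hc₁_def]; ring
        nlinarith
      exact_mod_cast h5
    have hgood : Good ε X₀ ((1 + ε) ^ k) L f (3 * D k) := good_of hε1 hX₀ hf hk1a
  · intro i p hp
    have h5 := hgood.piece_window (by omega) i.2 hp
    refine ⟨h5.1, ?_⟩
    rw [pow_succ, mul_comm]
    exact h5.2
  · intro I hI
    have hw := poly_window (μ := μ) hc.symm hκ hC hmix hgood rfl hs0 hNL' hN0 I hI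
    refine hw.trans ?_
    rw [← hZ]
    apply add_le_add
    · -- main term
      have h5 : 4 / (N k : ℝ) ≤ 4 * (k : ℝ) ^ (-(3 / 4) : ℝ) := by
        rw [Real.rpow_neg hk0.le, ← div_eq_mul_inv]
        exact div_le_div_of_nonneg_left (by norm_num) (by linarith) hN2
      have h6 : (4 / (N k : ℝ)) ^ 2 ≤ (4 * (k : ℝ) ^ (-(3 / 4) : ℝ)) ^ 2 :=
        pow_le_pow_left₀ (by positivity) h5 2
      refine h6.trans (le_of_eq ?_)
      rw [mul_pow, ← Real.rpow_natCast ((k : ℝ) ^ (-(3 / 4) : ℝ)) 2, ← Real.rpow_mul hk0.le]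
      norm_num
    · -- error term
      have h5 : (s k : ℝ) ^ (-κ) ≤ (c₁ / 2) ^ (-κ) * (k : ℝ) ^ (1 / 4 * (-κ)) := by
        rw [Real.rpow_mul hk0.le, ← Real.mul_rpow (by positivity) (by positivity)]
        apply Real.rpow_le_rpow_of_nonpos (by positivity) _ (by linarith)
        linarith
      have h6 : 1 / (N k : ℝ) ≤ (k : ℝ) ^ (-(3 / 4) : ℝ) := by
        rw [Real.rpow_neg hk0.le, ← one_div]
        exact one_div_le_one_div_of_le (by linarith) hN2
      have h7 : (k : ℝ) ^ (1 / 4 * (-κ)) * (k : ℝ) ^ (-(3 / 4) : ℝ) = (k : ℝ) ^ (-((κ + 3) / 4)) := by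
        rw [← Real.rpow_add hk0]
        congr 1
        ring
      calc 2 * (256 * C * (s k : ℝ) ^ (-κ) * Z / (N k : ℝ))
          = 512 * C * Z * ((s k : ℝ) ^ (-κ) * (1 / (N k : ℝ))) := by ring
        _ ≤ 512 * C * Z * (((c₁ / 2) ^ (-κ) * (k : ℝ) ^ (1 / 4 * (-κ))) * (k : ℝ) ^ (-(3 / 4) : ℝ)) := by
            apply mul_le_mul_of_nonneg_left _ (by positivity)
            exact mul_le_mul h5 h6 (by positivity) (by positivity)
        _ = K * (k : ℝ) ^ (-((κ + 3) / 4)) := by
            rw [mul_assoc ((c₁ / 2) ^ (-κ)), h7, hK]; ring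

end Pool.Agent.MixR
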