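import Pool.Agent.MixR.PolyMain
import Pool.Agent.MixR.Leb

/-!
# Polynomially mixing measures invariant under `x ↦ 2 x` and `x ↦ 3 x`
-/

open Set Filter Topology MeasureTheory
open scoped ENNReal NNReal Real

namespace Pool.Agent.Results.MP_e27144_an.PolynomialMixing

/-- The Fourier coefficient `∫ e(n x) dμ(x)`. -/
noncomputable def coef (μ : Measure (AddCircle (1 : ℝ))) (n : ℤ) : ℂ := ∫ x, fourier n x ∂μ

/-- The points `(a, b)` of `F`, which stand for the numbers `2 ^ a * 3 ^ b`, are `g`-separated in the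
neutral direction: of two different points one has the larger `a` and the other one the larger `b`, both
by at least `g`. -/
def Separated (g : ℕ) (F : Finset (ℕ × ℕ)) : Prop :=
  ∀ p ∈ F, ∀ q ∈ F, p ≠ q →
    (p.1 + g ≤ q.1 ∧ q.2 + g ≤ p.2) ∨ (q.1 + g ≤ p.1 ∧ p.2 + g ≤ q.2)

/-- For a probability measure `μ` without atoms on the circle which is invariant under `x ↦ 2 x` and
`x ↦ 3 x`, and for `κ > 1`: `μ` is Lebesgue measure if and only if for every integer `m` the functions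
`e(m s x)`, `s = 2 ^ a * 3 ^ b`, are mixing of order four in the neutral direction with the rate
`(1 + g) ^ (-κ)`, the constant being allowed to depend on `m`. -/
theorem result (μ : Measure (AddCircle (1 : ℝ))) (hμ : IsProbabilityMeasure μ)
    (hna : ∀ x, μ {x} = 0)
    (h2 : MeasurePreserving (fun x : AddCircle (1 : ℝ) => (2 : ℕ) • x) μ μ)
    (h3 : MeasurePreserving (fun x : AddCircle (1 : ℝ) => (3 : ℕ) • x) μ μ)
    (κ : ℝ) (hκ : 1 < κ) :
    μ = volume ↔ ∀ m : ℤ, ∃ C : ℝ, ∀ (g : ℕ) (F : Finset (ℕ × ℕ)) (e : ℕ × ℕ → ℤ),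
      F.card ≤ 4 → Separated g F → (∀ p ∈ F, |e p| = 1) →
        ‖coef μ (m * ∑ p ∈ F, e p * (2 ^ p.1 * 3 ^ p.2)) - ∏ p ∈ F, coef μ (m * e p)‖
          ≤ C * (1 + (g : ℝ)) ^ (-κ) := by
  have : NullSingletonClass μ := ⟨hna⟩
  have esv : ∀ (m : ℤ) (F : Finset (ℕ × ℕ)) (u : ℕ × ℕ → ℤ),
      m * ∑ p ∈ F, u p * (2 ^ p.1 * 3 ^ p.2 : ℤ) = m * ∑ p ∈ F, u p * (MixR.sv p : ℤ) := by
    intro m F u
    have h : ∑ p ∈ F, u p * (2 ^ p.1 * 3 ^ p.2 : ℤ) = ∑ p ∈ F, u p * (MixR.sv p : ℤ) := by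
      apply Finset.sum_congr rfl
      intro p _
      unfold MixR.sv
      push_cast
      rfl
    rw [h]
  constructor
  · intro h
    subst h
    intro m
    refine ⟨|(m : ℝ)| ^ κ, ?_⟩
    intro g F e _ hF he
    rw [esv]
    have e1 : m * ∑ p ∈ F, e p * (MixR.sv p : ℤ) = ∑ p ∈ F, (m * e p) * (MixR.sv p : ℤ) := by
      rw [Finset.mul_sum]
      apply Finset.sum_congr rfl
      intro p _
      ring
    rw [e1]
    have hg0 : (0 : ℝ) < 1 + g := by positivity
    rcases MixR.leb_diff (u := fun p => m * e p) hF with h | ⟨h, p, hp, hp0, hdvd⟩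
    · refine le_trans (le_of_eq h) ?_
      positivity
    · refine le_trans (le_of_eq h) ?_
      have h4 : (2 : ℝ) ^ g ≤ |(m : ℝ)| := by
        have h5 := Int.le_of_dvd (abs_pos.2 hp0) ((dvd_abs _ _).2 hdvd)
        rw [abs_mul, he p hp, mul_one] at h5
        exact_mod_cast h5
      have h5 : (1 + (g : ℝ)) ≤ 2 ^ g := by
        have h6 : g + 1 ≤ 2 ^ g := Nat.lt_two_pow_self
        have h7 : ((g + 1 : ℕ) : ℝ) ≤ ((2 ^ g : ℕ) : ℝ) := by exact_mod_cast h6
        push_cast at h7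
        linarith
      have h6 : (1 + (g : ℝ)) ^ κ ≤ |(m : ℝ)| ^ κ :=
        Real.rpow_le_rpow hg0.le (h5.trans h4) (by linarith)
      calc (1 : ℝ) = (1 + (g : ℝ)) ^ κ * (1 + (g : ℝ)) ^ (-κ) := by
            rw [← Real.rpow_add hg0, add_neg_cancel, Real.rpow_zero]
        _ ≤ |(m : ℝ)| ^ κ * (1 + (g : ℝ)) ^ (-κ) :=
            mul_le_mul_of_nonneg_right h6 (Real.rpow_nonneg hg0.le _)
  · intro hmix
    apply H29E.eq_volume_of_fourier
    intro m hm
    obtain ⟨C, hmix⟩ := hmix m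
    exact MixR.poly_mixing hκ hm ⟨C, fun g F e hF hs he => by
      have := hmix g F e hF hs he
      rw [esv] at this
      exact this⟩

end Pool.Agent.Results.MP_e27144_an.PolynomialMixing
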